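import Mathlib

/-!
# High moments of sums over primes
-/

set_option autoImplicit false

namespace Run7.h837

open Finset

lemma exists_perm {k : ℕ} {x y : Fin k → ℕ} (h : List.Perm (List.ofFn x) (List.ofFn y)) :
    ∃ σ : Equiv.Perm (Fin k), y = x ∘ σ := by
  have h1 : x ∘ Tuple.sort x = y ∘ Tuple.sort y := by
    apply List.ofFn_injective
    exact ((((Tuple.sort x).ofFn_comp_perm x).trans h).trans
      ((Tuple.sort y).ofFn_comp_perm y).symm).eq_of_pairwise'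
      (Tuple.monotone_sort x).sortedLE_ofFn.pairwise (Tuple.monotone_sort y).sortedLE_ofFn.pairwise
  refine ⟨(Tuple.sort y)⁻¹.trans (Tuple.sort x), ?_⟩
  funext i
  have h2 := congrFun h1 ((Tuple.sort y)⁻¹ i)
  simp only [Function.comp_apply] at h2 ⊢
  rw [Equiv.trans_apply, h2]
  simp

/-- tuples of elements of `I` -/
noncomputable def TT (I : Finset ℕ) (k : ℕ) : Finset (Fin k → ℕ) :=
  Fintype.piFinset (fun _ : Fin k => I)

lemma mem_TT {I : Finset ℕ} {k : ℕ} {x : Fin k → ℕ} : x ∈ TT I k ↔ ∀ i, x i ∈ I := by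
  unfold TT
  rw [Fintype.mem_piFinset]

lemma sum_TT {R : Type*} [CommSemiring R] (I : Finset ℕ) (k : ℕ) (f : ℕ → R) :
    ∑ x ∈ TT I k, ∏ i, f (x i) = (∑ p ∈ I, f p) ^ k := by
  unfold TT
  rw [← Finset.prod_univ_sum (fun _ : Fin k => I) (fun _ j => f j)]
  simp

lemma card_eq_prod_le {I : Finset ℕ} (hI : ∀ p ∈ I, p.Prime) {k : ℕ} {x : Fin k → ℕ}
    (hx : x ∈ TT I k) :
    ((TT I k).filter (fun y => ∏ i, x i = ∏ i, y i)).card ≤ k.factorial := by
  classical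
  have hsub : (TT I k).filter (fun y => ∏ i, x i = ∏ i, y i) ⊆
      (univ : Finset (Equiv.Perm (Fin k))).image (fun σ : Equiv.Perm (Fin k) => x ∘ (σ : Fin k → Fin k)) := by
    intro y hy
    rw [mem_filter, mem_TT] at hy
    rw [mem_TT] at hx
    obtain ⟨hy1, hy2⟩ := hy
    have e1 : (List.ofFn x).Perm (∏ i, x i).primeFactorsList := by
      apply Nat.primeFactorsList_unique
      · rw [List.prod_ofFn]
      · intro p hp
        rw [List.mem_ofFn] at hp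
        obtain ⟨i, rfl⟩ := hp
        exact hI _ (hx i)
    have e2 : (List.ofFn y).Perm (∏ i, x i).primeFactorsList := by
      apply Nat.primeFactorsList_unique
      · rw [List.prod_ofFn, hy2]
      · intro p hp
        rw [List.mem_ofFn] at hp
        obtain ⟨i, rfl⟩ := hp
        exact hI _ (hy1 i)
    obtain ⟨σ, hσ⟩ := exists_perm (e1.trans e2.symm)
    rw [mem_image]
    exact ⟨σ, mem_univ _, hσ.symm⟩
  refine (card_le_card hsub).trans (card_image_le.trans ?_)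
  rw [card_univ, Fintype.card_perm, Fintype.card_fin]

lemma prod_eq_of_prod_eq {I : Finset ℕ} (hI : ∀ p ∈ I, p.Prime) {k : ℕ} {x y : Fin k → ℕ}
    (hx : x ∈ TT I k) (hy : y ∈ TT I k) (h : ∏ i, x i = ∏ i, y i) (f : ℕ → ℝ) :
    ∏ i, f (x i) = ∏ i, f (y i) := by
  rw [mem_TT] at hx hy
  have e1 : (List.ofFn x).Perm (∏ i, x i).primeFactorsList := by
    apply Nat.primeFactorsList_unique
    · rw [List.prod_ofFn]
    · intro p hp
      rw [List.mem_ofFn] at hp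
      obtain ⟨i, rfl⟩ := hp
      exact hI _ (hx i)
  have e2 : (List.ofFn y).Perm (∏ i, x i).primeFactorsList := by
    apply Nat.primeFactorsList_unique
    · rw [List.prod_ofFn, h]
    · intro p hp
      rw [List.mem_ofFn] at hp
      obtain ⟨i, rfl⟩ := hp
      exact hI _ (hy i)
  obtain ⟨σ, hσ⟩ := exists_perm (e1.trans e2.symm)
  rw [hσ]
  simp only [Function.comp_apply]
  exact (Equiv.prod_comp σ (fun i => f (x i))).symm

/-- the diagonal contribution -/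
lemma diag_le {I : Finset ℕ} (hI : ∀ p ∈ I, p.Prime) (k : ℕ) (f : ℕ → ℝ) :
    ∑ x ∈ TT I k, ∑ y ∈ TT I k, (if ∏ i, x i = ∏ i, y i then (∏ i, f (x i)) * ∏ i, f (y i) else 0) ≤
      k.factorial * (∑ p ∈ I, f p ^ 2) ^ k := by
  calc ∑ x ∈ TT I k, ∑ y ∈ TT I k,
        (if ∏ i, x i = ∏ i, y i then (∏ i, f (x i)) * ∏ i, f (y i) else 0) ≤
      ∑ x ∈ TT I k, (k.factorial : ℝ) * ∏ i, f (x i) ^ 2 := by
        refine sum_le_sum fun x hx => ?_
        have h1 : ∀ y ∈ TT I k, (if ∏ i, x i = ∏ i, y i then (∏ i, f (x i)) * ∏ i, f (y i) else 0) =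
            (if ∏ i, x i = ∏ i, y i then ∏ i, f (x i) ^ 2 else 0) := by
          intro y hy
          split_ifs with h
          · rw [← prod_eq_of_prod_eq hI hx hy h f, ← prod_mul_distrib]
            refine prod_congr rfl fun i _ => ?_
            ring
          · rfl
        rw [sum_congr rfl h1, ← sum_filter, sum_const, nsmul_eq_mul]
        apply mul_le_mul_of_nonneg_right _ (prod_nonneg fun i _ => by positivity)
        exact_mod_cast card_eq_prod_le hI hx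
    _ = k.factorial * (∑ p ∈ I, f p ^ 2) ^ k := by
        rw [← mul_sum, sum_TT I k (fun p => f p ^ 2)]

/-- orthogonality -/
lemma orth {q : ℕ} [NeZero q] {ι : Type*} (S : Finset ι) (m : ι → ℕ) (c : ι → ℂ) :
    ∑ χ : DirichletCharacter ℂ q, ‖∑ x ∈ S, c x * χ (m x : ZMod q)‖ ^ 2 ≤
      Nat.totient q * ∑ x ∈ S, ∑ y ∈ S,
        (if (m x : ZMod q) = (m y : ZMod q) then ‖c x‖ * ‖c y‖ else 0) := by
  classical
  have e1 : ∀ z : ℂ, z * (starRingEnd ℂ) z = ((‖z‖ ^ 2 : ℝ) : ℂ) := by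
    intro z
    rw [Complex.mul_conj, Complex.normSq_eq_norm_sq]
  have hchar : ∀ x y : ι, ‖∑ χ : DirichletCharacter ℂ q, χ (m x : ZMod q) *
      (starRingEnd ℂ) (χ (m y : ZMod q))‖ ≤
      (if (m x : ZMod q) = (m y : ZMod q) then (Nat.totient q : ℝ) else 0) := by
    intro x y
    by_cases hu : IsUnit (m y : ZMod q)
    · have h3 : ∀ χ : DirichletCharacter ℂ q, (starRingEnd ℂ) (χ (m y : ZMod q)) =
          χ ((m y : ZMod q)⁻¹) := by
        intro χ
        rw [← RCLike.star_def, MulChar.star_apply', MulChar.inv_apply, hu.unit_spec.symm,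
          ZMod.inv_coe_unit, Ring.inverse_unit]
      have h4 : ∑ χ : DirichletCharacter ℂ q, χ (m x : ZMod q) *
          (starRingEnd ℂ) (χ (m y : ZMod q)) = if (m y : ZMod q) = (m x : ZMod q) then
            (Nat.totient q : ℂ) else 0 := by
        rw [← DirichletCharacter.sum_char_inv_mul_char_eq ℂ hu (m x : ZMod q)]
        refine sum_congr rfl fun χ _ => ?_
        rw [h3 χ, mul_comm]
      rw [h4]
      by_cases h5 : (m x : ZMod q) = (m y : ZMod q)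
      · rw [if_pos h5, if_pos h5.symm]
        simp
      · rw [if_neg h5, if_neg (fun h => h5 h.symm)]
        simp
    · have h4 : ∑ χ : DirichletCharacter ℂ q, χ (m x : ZMod q) *
          (starRingEnd ℂ) (χ (m y : ZMod q)) = 0 := by
        refine sum_eq_zero fun χ _ => ?_
        rw [MulChar.map_nonunit χ hu, map_zero, mul_zero]
      rw [h4, norm_zero]
      split_ifs
      · positivity
      · exact le_rfl
  have key : ((∑ χ : DirichletCharacter ℂ q, ‖∑ x ∈ S, c x * χ (m x : ZMod q)‖ ^ 2 : ℝ) : ℂ) =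
      ∑ x ∈ S, ∑ y ∈ S, c x * (starRingEnd ℂ) (c y) *
        ∑ χ : DirichletCharacter ℂ q, χ (m x : ZMod q) * (starRingEnd ℂ) (χ (m y : ZMod q)) := by
    push_cast
    have h1 : ∀ χ : DirichletCharacter ℂ q, ((‖∑ x ∈ S, c x * χ (m x : ZMod q)‖ : ℝ) : ℂ) ^ 2 =
        ∑ x ∈ S, ∑ y ∈ S, c x * (starRingEnd ℂ) (c y) *
          (χ (m x : ZMod q) * (starRingEnd ℂ) (χ (m y : ZMod q))) := by
      intro χ
      have := e1 (∑ x ∈ S, c x * χ (m x : ZMod q))
      push_cast at this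
      rw [← this, map_sum, sum_mul_sum]
      refine sum_congr rfl fun x _ => sum_congr rfl fun y _ => ?_
      rw [map_mul]
      ring
    rw [sum_congr rfl (fun χ _ => h1 χ), sum_comm]
    refine sum_congr rfl fun x _ => ?_
    rw [sum_comm]
    refine sum_congr rfl fun y _ => ?_
    rw [mul_sum]
  have hnn : 0 ≤ ∑ χ : DirichletCharacter ℂ q, ‖∑ x ∈ S, c x * χ (m x : ZMod q)‖ ^ 2 :=
    sum_nonneg fun χ _ => by positivity
  have h2 : ∑ χ : DirichletCharacter ℂ q, ‖∑ x ∈ S, c x * χ (m x : ZMod q)‖ ^ 2 =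
      ‖((∑ χ : DirichletCharacter ℂ q, ‖∑ x ∈ S, c x * χ (m x : ZMod q)‖ ^ 2 : ℝ) : ℂ)‖ := by
    rw [Complex.norm_real, Real.norm_eq_abs, abs_of_nonneg hnn]
  rw [h2, key]
  refine (norm_sum_le _ _).trans ?_
  rw [mul_sum]
  refine sum_le_sum fun x _ => ?_
  refine (norm_sum_le _ _).trans ?_
  rw [mul_sum]
  refine sum_le_sum fun y _ => ?_
  rw [norm_mul, norm_mul, RCLike.norm_conj]
  refine (mul_le_mul_of_nonneg_left (hchar x y) (by positivity)).trans (le_of_eq ?_)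
  split_ifs <;> ring

/-- the off-diagonal contribution -/
noncomputable def OFF (q : ℕ) (I : Finset ℕ) (f : ℕ → ℝ) (k : ℕ) : ℝ :=
  ∑ x ∈ TT I k, ∑ y ∈ TT I k,
    (if ∏ i, x i ≠ ∏ i, y i ∧ ((∏ i, x i : ℕ) : ZMod q) = ((∏ i, y i : ℕ) : ZMod q) then
      (∏ i, f (x i)) * ∏ i, f (y i) else 0)

/-- **moments over all characters of a modulus** -/
theorem mom_fixed {q : ℕ} [NeZero q] {I : Finset ℕ} (hI : ∀ p ∈ I, p.Prime) (a : ℕ → ℂ) (k : ℕ) :
    ∑ χ : DirichletCharacter ℂ q, ‖(∑ p ∈ I, a p * χ (p : ZMod q)) ^ k‖ ^ 2 ≤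
      Nat.totient q * (k.factorial * (∑ p ∈ I, ‖a p‖ ^ 2) ^ k + OFF q I (fun p => ‖a p‖) k) := by
  have h1 : ∀ χ : DirichletCharacter ℂ q, (∑ p ∈ I, a p * χ (p : ZMod q)) ^ k =
      ∑ x ∈ TT I k, (∏ i, a (x i)) * χ ((∏ i, x i : ℕ) : ZMod q) := by
    intro χ
    rw [← sum_TT I k (fun p => a p * χ (p : ZMod q))]
    refine sum_congr rfl fun x _ => ?_
    rw [prod_mul_distrib]
    congr 1
    push_cast
    rw [map_prod]
  have h2 : ∑ χ : DirichletCharacter ℂ q, ‖(∑ p ∈ I, a p * χ (p : ZMod q)) ^ k‖ ^ 2 =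
      ∑ χ : DirichletCharacter ℂ q,
        ‖∑ x ∈ TT I k, (∏ i, a (x i)) * χ ((∏ i, x i : ℕ) : ZMod q)‖ ^ 2 :=
    sum_congr rfl fun χ _ => by rw [h1 χ]
  rw [h2]
  refine (orth (TT I k) (fun x => ∏ i, x i) (fun x => ∏ i, a (x i))).trans ?_
  apply mul_le_mul_of_nonneg_left _ (Nat.cast_nonneg _)
  refine le_trans (le_of_eq ?_) (add_le_add (diag_le hI k (fun p => ‖a p‖))
    (le_refl (OFF q I (fun p => ‖a p‖) k)))
  unfold OFF
  rw [← sum_add_distrib]
  refine sum_congr rfl fun x _ => ?_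
  rw [← sum_add_distrib]
  refine sum_congr rfl fun y _ => ?_
  rw [norm_prod, norm_prod]
  by_cases h3 : ∏ i, x i = ∏ i, y i
  · rw [if_pos (by rw [h3]), if_pos h3, if_neg (by rintro ⟨h4, _⟩; exact h4 h3), add_zero]
  · rw [if_neg h3, zero_add]
    by_cases h4 : ((∏ i, x i : ℕ) : ZMod q) = ((∏ i, y i : ℕ) : ZMod q)
    · rw [if_pos h4, if_pos ⟨h3, h4⟩]
    · rw [if_neg h4, if_neg (by rintro ⟨_, h5⟩; exact h4 h5)]

lemma prod_le {I : Finset ℕ} {M : ℕ} (hI : ∀ p ∈ I, p ≤ M) {k : ℕ} {x : Fin k → ℕ}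
    (hx : x ∈ TT I k) : ∏ i, x i ≤ M ^ k := by
  rw [mem_TT] at hx
  calc ∏ i, x i ≤ ∏ _i : Fin k, M := prod_le_prod' fun i _ => hI _ (hx i)
    _ = M ^ k := by simp

/-- the moduli which divide a given nonzero difference -/
lemma card_dvd {Q : ℕ} {u v B : ℕ} (hu : u ≤ B) (hv : v ≤ B) {D : ℝ}
    (hD : ∀ m : ℕ, m ≠ 0 → m ≤ B → (m.divisors.card : ℝ) ≤ D) (hD0 : 0 ≤ D) :
    (((Icc 2 Q).filter (fun q => u ≠ v ∧ (u : ZMod q) = (v : ZMod q))).card : ℝ) ≤ D := by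
  by_cases huv : u = v
  · rw [filter_false_of_mem]
    · simpa using hD0
    · rintro q _ ⟨h, _⟩
      exact h huv
  · set m : ℕ := ((v : ℤ) - u).natAbs with hm
    have hm0 : m ≠ 0 := by
      rw [hm, Int.natAbs_ne_zero]
      omega
    have hmB : m ≤ B := by
      rw [hm]; omega
    refine le_trans ?_ (hD m hm0 hmB)
    have hsub : (Icc 2 Q).filter (fun q => u ≠ v ∧ (u : ZMod q) = (v : ZMod q)) ⊆ m.divisors := by
      intro q hq
      rw [mem_filter] at hq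
      rw [Nat.mem_divisors]
      refine ⟨?_, hm0⟩
      have h1 : u ≡ v [MOD q] := (ZMod.natCast_eq_natCast_iff _ _ _).1 hq.2.2
      rw [Nat.modEq_iff_dvd] at h1
      rw [hm]
      exact Int.natCast_dvd.1 h1
    exact_mod_cast card_le_card hsub

/-- **average of the off-diagonal terms over the moduli** -/
theorem off_avg {Q k M : ℕ} {I : Finset ℕ} (hI : ∀ p ∈ I, p ≤ M) {f : ℕ → ℝ}
    (hf : ∀ p, 0 ≤ f p) {D : ℝ} (hD0 : 0 ≤ D)
    (hD : ∀ m : ℕ, m ≠ 0 → m ≤ M ^ k → (m.divisors.card : ℝ) ≤ D) :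
    ∑ q ∈ Icc 2 Q, (Nat.totient q : ℝ) * OFF q I f k ≤ Q * D * ((∑ p ∈ I, f p) ^ k) ^ 2 := by
  classical
  unfold OFF
  have h1 : ∑ q ∈ Icc 2 Q, (Nat.totient q : ℝ) * ∑ x ∈ TT I k, ∑ y ∈ TT I k,
      (if ∏ i, x i ≠ ∏ i, y i ∧ ((∏ i, x i : ℕ) : ZMod q) = ((∏ i, y i : ℕ) : ZMod q) then
        (∏ i, f (x i)) * ∏ i, f (y i) else 0) =
      ∑ x ∈ TT I k, ∑ y ∈ TT I k, ((∏ i, f (x i)) * ∏ i, f (y i)) *
        ∑ q ∈ (Icc 2 Q).filter (fun q => ∏ i, x i ≠ ∏ i, y i ∧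
          ((∏ i, x i : ℕ) : ZMod q) = ((∏ i, y i : ℕ) : ZMod q)), (Nat.totient q : ℝ) := by
    simp_rw [mul_sum]
    rw [sum_comm]
    refine sum_congr rfl fun x _ => ?_
    rw [sum_comm]
    refine sum_congr rfl fun y _ => ?_
    rw [sum_filter]
    refine sum_congr rfl fun q _ => ?_
    split_ifs <;> ring
  rw [h1]
  have h2 : ∀ x ∈ TT I k, ∀ y ∈ TT I k, ((∏ i, f (x i)) * ∏ i, f (y i)) *
      ∑ q ∈ (Icc 2 Q).filter (fun q => ∏ i, x i ≠ ∏ i, y i ∧
          ((∏ i, x i : ℕ) : ZMod q) = ((∏ i, y i : ℕ) : ZMod q)), (Nat.totient q : ℝ) ≤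
      ((∏ i, f (x i)) * ∏ i, f (y i)) * (Q * D) := by
    intro x hx y hy
    apply mul_le_mul_of_nonneg_left _ (mul_nonneg (prod_nonneg fun i _ => hf _)
      (prod_nonneg fun i _ => hf _))
    calc ∑ q ∈ (Icc 2 Q).filter (fun q => ∏ i, x i ≠ ∏ i, y i ∧
          ((∏ i, x i : ℕ) : ZMod q) = ((∏ i, y i : ℕ) : ZMod q)), (Nat.totient q : ℝ) ≤
        ∑ q ∈ (Icc 2 Q).filter (fun q => ∏ i, x i ≠ ∏ i, y i ∧
          ((∏ i, x i : ℕ) : ZMod q) = ((∏ i, y i : ℕ) : ZMod q)), (Q : ℝ) := by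
          refine sum_le_sum fun q hq => ?_
          rw [mem_filter, mem_Icc] at hq
          exact_mod_cast (Nat.totient_le q).trans hq.1.2
      _ = (((Icc 2 Q).filter (fun q => ∏ i, x i ≠ ∏ i, y i ∧
          ((∏ i, x i : ℕ) : ZMod q) = ((∏ i, y i : ℕ) : ZMod q))).card : ℝ) * Q := by
          rw [sum_const, nsmul_eq_mul]
      _ ≤ D * Q := by
          apply mul_le_mul_of_nonneg_right _ (Nat.cast_nonneg _)
          exact card_dvd (prod_le hI hx) (prod_le hI hy) hD hD0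
      _ = Q * D := mul_comm _ _
  refine (sum_le_sum fun x hx => sum_le_sum fun y hy => h2 x hx y hy).trans (le_of_eq ?_)
  have h3 : ∀ x ∈ TT I k, ∑ y ∈ TT I k, ((∏ i, f (x i)) * ∏ i, f (y i)) * (Q * D) =
      (∏ i, f (x i)) * ((∑ p ∈ I, f p) ^ k * (Q * D)) := by
    intro x _
    rw [← sum_mul, ← mul_sum, sum_TT I k f]
    ring
  rw [sum_congr rfl h3, ← sum_mul, sum_TT I k f]
  ring

end Run7.h837
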