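import Pool.Agent.Run7.h837.Zer
import Pool.Agent.Run7.h837.Mom

/-!
# Sums over the primes of a dyadic block
-/

set_option autoImplicit false

namespace Run7.h837

open Complex Finset

/-- the primes in `(N, 2N]` -/
noncomputable def IB (N : ℕ) : Finset ℕ := (Ioc N (2 * N)).filter Nat.Prime

/-- the coefficients of the normalised block sum -/
noncomputable def cf (N : ℕ) (α : ℝ) (s : ℂ) (p : ℕ) : ℂ :=
  (Real.log p : ℂ) * (p : ℂ) ^ (-s) * (N : ℂ) ^ (s - α)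

/-- the normalised block sum -/
noncomputable def PB {q : ℕ} (χ : DirichletCharacter ℂ q) (N : ℕ) (α : ℝ) (s : ℂ) : ℂ :=
  ∑ p ∈ IB N, cf N α s p * χ (p : ZMod q)

lemma differentiable_PB {q : ℕ} (χ : DirichletCharacter ℂ q) {N : ℕ} (hN : 1 ≤ N) (α : ℝ) :
    Differentiable ℂ (PB χ N α) := by
  unfold PB cf
  intro s
  apply DifferentiableAt.fun_sum
  intro p hp
  unfold IB at hp
  rw [mem_filter, mem_Ioc] at hp
  have hp0 : (p : ℂ) ≠ 0 := by exact_mod_cast (by omega : p ≠ 0)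
  have hN0 : (N : ℂ) ≠ 0 := by exact_mod_cast (by omega : N ≠ 0)
  apply DifferentiableAt.mul _ (differentiableAt_const _)
  apply DifferentiableAt.mul
  · apply DifferentiableAt.mul (differentiableAt_const _)
    exact (differentiableAt_id.neg).const_cpow (Or.inl hp0)
  · exact (differentiableAt_id.sub_const _).const_cpow (Or.inl hN0)

lemma norm_cf {N : ℕ} (hN : 1 ≤ N) {α : ℝ} {s : ℂ} (hs : 0 ≤ s.re) {p : ℕ} (hp : p ∈ IB N) :
    ‖cf N α s p‖ ≤ (N : ℝ) ^ (-α) * Real.log p := by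
  unfold IB at hp
  rw [mem_filter, mem_Ioc] at hp
  obtain ⟨⟨h1, h2⟩, -⟩ := hp
  have hN0 : (0 : ℝ) < N := by exact_mod_cast hN
  have hp0 : (0 : ℝ) < p := by exact_mod_cast (by omega : 0 < p)
  have hp1 : (1 : ℝ) ≤ p := by exact_mod_cast (by omega : 1 ≤ p)
  have hNp : (N : ℝ) ≤ p := by exact_mod_cast h1.le
  have hlog : 0 ≤ Real.log p := Real.log_nonneg hp1
  unfold cf
  rw [norm_mul, norm_mul, norm_natCast_cpow_of_pos (by omega), norm_natCast_cpow_of_pos (by omega),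
    norm_real, Real.norm_eq_abs, abs_of_nonneg hlog, neg_re, sub_re, ofReal_re]
  have key : (p : ℝ) ^ (-s.re) * (N : ℝ) ^ (s.re - α) ≤ (N : ℝ) ^ (-α) := by
    have h3 : (p : ℝ) ^ (-s.re) ≤ (N : ℝ) ^ (-s.re) :=
      Real.rpow_le_rpow_of_nonpos hN0 hNp (by linarith)
    calc (p : ℝ) ^ (-s.re) * (N : ℝ) ^ (s.re - α) ≤ (N : ℝ) ^ (-s.re) * (N : ℝ) ^ (s.re - α) := by
          gcongr
      _ = (N : ℝ) ^ (-α) := by rw [← Real.rpow_add hN0]; congr 1; ring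
  calc Real.log p * (p : ℝ) ^ (-s.re) * (N : ℝ) ^ (s.re - α) =
      ((p : ℝ) ^ (-s.re) * (N : ℝ) ^ (s.re - α)) * Real.log p := by ring
    _ ≤ (N : ℝ) ^ (-α) * Real.log p := mul_le_mul_of_nonneg_right key hlog

lemma sum_log_IB (N : ℕ) : ∑ p ∈ IB N, Real.log p ≤ 3 * N := by
  have h1 : ∑ p ∈ IB N, Real.log p ≤ Chebyshev.theta ((2 * N : ℕ) : ℝ) := by
    rw [Chebyshev.theta_eq_sum_Icc, Nat.floor_natCast]
    apply sum_le_sum_of_subset_of_nonneg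
    · intro p hp
      unfold IB at hp
      rw [mem_filter, mem_Ioc] at hp
      rw [mem_filter, mem_Icc]
      exact ⟨⟨by omega, hp.1.2⟩, hp.2⟩
    · intro p hp _
      rw [mem_filter] at hp
      exact Real.log_nonneg (by exact_mod_cast hp.2.one_le)
  have h2 := Chebyshev.theta_le_log4_mul_x (x := ((2 * N : ℕ) : ℝ)) (Nat.cast_nonneg _)
  have h3 : Real.log 4 ≤ 3 / 2 := by
    have e : Real.log 4 = 2 * Real.log 2 := by
      rw [show (4 : ℝ) = 2 ^ 2 by norm_num, Real.log_pow]; norm_num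
    rw [e]
    linarith [Real.log_two_lt_d9]
  have h4 : (0 : ℝ) ≤ N := Nat.cast_nonneg _
  push_cast at h1 h2
  nlinarith

lemma sum_cf {N : ℕ} (hN : 1 ≤ N) {α : ℝ} {s : ℂ} (hs : 0 ≤ s.re) :
    ∑ p ∈ IB N, ‖cf N α s p‖ ≤ 3 * (N : ℝ) ^ (1 - α) := by
  have hN0 : (0 : ℝ) < N := by exact_mod_cast hN
  calc ∑ p ∈ IB N, ‖cf N α s p‖ ≤ ∑ p ∈ IB N, (N : ℝ) ^ (-α) * Real.log p :=
        sum_le_sum fun p hp => norm_cf hN hs hp
    _ = (N : ℝ) ^ (-α) * ∑ p ∈ IB N, Real.log p := by rw [mul_sum]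
    _ ≤ (N : ℝ) ^ (-α) * (3 * N) := by
        have := sum_log_IB N
        gcongr
    _ = 3 * ((N : ℝ) ^ (-α) * (N : ℝ) ^ (1 : ℝ)) := by rw [Real.rpow_one]; ring
    _ = 3 * (N : ℝ) ^ (1 - α) := by
        rw [← Real.rpow_add hN0]; congr 2; ring

lemma sum_cf_sq {N : ℕ} (hN : 1 ≤ N) {α : ℝ} {s : ℂ} (hs : 0 ≤ s.re) :
    ∑ p ∈ IB N, ‖cf N α s p‖ ^ 2 ≤ 3 * (N : ℝ) ^ (1 - 2 * α) * Real.log (2 * N) := by
  have hN0 : (0 : ℝ) < N := by exact_mod_cast hN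
  have hN1 : (1 : ℝ) ≤ N := by exact_mod_cast hN
  have hterm : ∀ p ∈ IB N, ‖cf N α s p‖ ^ 2 ≤
      (N : ℝ) ^ (-2 * α) * Real.log (2 * N) * Real.log p := by
    intro p hp
    have h1 := norm_cf hN (α := α) hs hp
    unfold IB at hp
    rw [mem_filter, mem_Ioc] at hp
    obtain ⟨⟨h2, h3⟩, -⟩ := hp
    have hp1 : (1 : ℝ) ≤ p := by exact_mod_cast (by omega : 1 ≤ p)
    have hlog : 0 ≤ Real.log p := Real.log_nonneg hp1
    have hlog2 : Real.log p ≤ Real.log (2 * N) :=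
      Real.log_le_log (by linarith) (by exact_mod_cast h3)
    calc ‖cf N α s p‖ ^ 2 ≤ ((N : ℝ) ^ (-α) * Real.log p) ^ 2 :=
          pow_le_pow_left₀ (norm_nonneg _) h1 2
      _ = (N : ℝ) ^ (-2 * α) * (Real.log p * Real.log p) := by
          rw [mul_pow, ← Real.rpow_natCast, ← Real.rpow_mul hN0.le]
          have : -α * ((2 : ℕ) : ℝ) = -2 * α := by push_cast; ring
          rw [this]; ring
      _ ≤ (N : ℝ) ^ (-2 * α) * (Real.log (2 * N) * Real.log p) := by gcongr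
      _ = _ := by ring
  have hlog0 : 0 ≤ Real.log (2 * N) := Real.log_nonneg (by linarith)
  calc ∑ p ∈ IB N, ‖cf N α s p‖ ^ 2 ≤
      ∑ p ∈ IB N, (N : ℝ) ^ (-2 * α) * Real.log (2 * N) * Real.log p := sum_le_sum hterm
    _ = (N : ℝ) ^ (-2 * α) * Real.log (2 * N) * ∑ p ∈ IB N, Real.log p := by rw [mul_sum]
    _ ≤ (N : ℝ) ^ (-2 * α) * Real.log (2 * N) * (3 * N) := by
        have := sum_log_IB N
        gcongr
    _ = 3 * ((N : ℝ) ^ (-2 * α) * (N : ℝ) ^ (1 : ℝ)) * Real.log (2 * N) := by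
        rw [Real.rpow_one]; ring
    _ = _ := by
        rw [← Real.rpow_add hN0]
        congr 3
        ring

/-- **moments of the block sums, averaged over the primitive characters** -/
theorem mom_avg {Q k N : ℕ} (hN : 1 ≤ N) {α : ℝ} {D : ℝ} (hD0 : 0 ≤ D)
    (hD : ∀ m : ℕ, m ≠ 0 → m ≤ (2 * N) ^ k → (m.divisors.card : ℝ) ≤ D) {s : ℂ} (hs : 0 ≤ s.re) :
    ∑ x ∈ Fam Q, ‖PB x.2 N α s ^ k‖ ^ 2 ≤
      (Q : ℝ) ^ 2 * (k * (3 * (N : ℝ) ^ (1 - 2 * α) * Real.log (2 * N))) ^ k +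
        Q * D * ((3 * (N : ℝ) ^ (1 - α)) ^ k) ^ 2 := by
  classical
  have hN1 : (1 : ℝ) ≤ N := by exact_mod_cast hN
  have hlog0 : 0 ≤ Real.log (2 * N) := Real.log_nonneg (by linarith)
  have hprime : ∀ p ∈ IB N, p.Prime := fun p hp => (mem_filter.1 hp).2
  have hle : ∀ p ∈ IB N, p ≤ 2 * N := fun p hp => (mem_Ioc.1 (mem_filter.1 hp).1).2
  set A2 : ℝ := 3 * (N : ℝ) ^ (1 - 2 * α) * Real.log (2 * N) with hA2
  have hA20 : 0 ≤ A2 := by positivity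
  have hq : ∀ q ∈ Icc 2 Q, ∑ χ ∈ prim q, ‖PB χ N α s ^ k‖ ^ 2 ≤
      (Q : ℝ) * (k * A2) ^ k + (Nat.totient q : ℝ) * OFF q (IB N) (fun p => ‖cf N α s p‖) k := by
    intro q hq
    rw [mem_Icc] at hq
    have : NeZero q := ⟨by omega⟩
    have h1 : ∑ χ ∈ prim q, ‖PB χ N α s ^ k‖ ^ 2 ≤
        ∑ χ : DirichletCharacter ℂ q, ‖(∑ p ∈ IB N, cf N α s p * χ (p : ZMod q)) ^ k‖ ^ 2 := by
      unfold PB
      exact sum_le_sum_of_subset_of_nonneg (subset_univ _) fun χ _ _ => by positivity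
    refine h1.trans ((mom_fixed hprime (cf N α s) k).trans ?_)
    rw [mul_add]
    have h7 : (k.factorial : ℝ) * (∑ p ∈ IB N, ‖cf N α s p‖ ^ 2) ^ k ≤ (k * A2) ^ k := by
      calc (k.factorial : ℝ) * (∑ p ∈ IB N, ‖cf N α s p‖ ^ 2) ^ k ≤ (k : ℝ) ^ k * A2 ^ k := by
            have h2 : (k.factorial : ℝ) ≤ (k : ℝ) ^ k := by exact_mod_cast Nat.factorial_le_pow k
            have h3 := sum_cf_sq hN (α := α) hs
            gcongr
        _ = (k * A2) ^ k := (mul_pow _ _ _).symm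
    have h8 : (Nat.totient q : ℝ) ≤ Q := by exact_mod_cast (Nat.totient_le q).trans hq.2
    gcongr
  unfold Fam
  rw [sum_sigma]
  refine (sum_le_sum hq).trans ?_
  rw [sum_add_distrib]
  apply add_le_add
  · rw [sum_const, nsmul_eq_mul]
    have h4 : ((Icc 2 Q).card : ℝ) ≤ Q := by
      rw [Nat.card_Icc]
      exact_mod_cast (by omega : Q + 1 - 2 ≤ Q)
    calc ((Icc 2 Q).card : ℝ) * (Q * (k * A2) ^ k) ≤ (Q : ℝ) * (Q * (k * A2) ^ k) := by gcongr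
      _ = _ := by ring
  · refine (off_avg hle (fun p => norm_nonneg _) hD0 hD).trans ?_
    have h5 := sum_cf hN (α := α) hs
    have h6 : 0 ≤ ∑ p ∈ IB N, ‖cf N α s p‖ := sum_nonneg fun p _ => norm_nonneg _
    gcongr

lemma grid_le2 {r T c : ℝ} (hr : 0 < r) (hT : 1 ≤ T) (hc : c ≤ 2) :
    (((⌊c / (r / 4)⌋₊ + 1) * (⌊2 * T / (r / 4)⌋₊ + 1) : ℕ) : ℝ) ≤
      (8 / r + 1) * (8 / r + 1) * T := by
  have h1 : ((⌊c / (r / 4)⌋₊ : ℕ) : ℝ) ≤ 8 / r := by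
    rcases le_or_gt 0 c with h | h
    · refine (Nat.floor_le (by positivity)).trans ?_
      rw [div_div_eq_mul_div]
      gcongr
      linarith
    · have : c / (r / 4) ≤ 0 := div_nonpos_of_nonpos_of_nonneg h.le (by positivity)
      rw [Nat.floor_of_nonpos this]
      simp only [Nat.cast_zero]
      positivity
  have h2 : ((⌊2 * T / (r / 4)⌋₊ : ℕ) : ℝ) ≤ 8 / r * T := by
    refine (Nat.floor_le (by positivity)).trans (le_of_eq ?_)
    field_simp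
    ring
  push_cast
  have h4 : (0 : ℝ) < 8 / r := by positivity
  calc ((⌊c / (r / 4)⌋₊ : ℝ) + 1) * ((⌊2 * T / (r / 4)⌋₊ : ℝ) + 1) ≤
      (8 / r + 1) * (8 / r * T + 1) := by gcongr
    _ ≤ (8 / r + 1) * (8 / r * T + T) := by gcongr
    _ = _ := by ring

open Classical in
/-- **few characters with a large block sum** -/
theorem blk_count {Q k N : ℕ} {a r T V D : ℝ} (hN : 1 ≤ N) (hr : 0 < r) (hra : r ≤ a)
    (hT : 1 ≤ T) (hV : 0 < V) (hD0 : 0 ≤ D)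
    (hD : ∀ m : ℕ, m ≠ 0 → m ≤ (2 * N) ^ k → (m.divisors.card : ℝ) ≤ D) :
    (((Fam Q).filter (fun x => ∃ s : ℂ, a ≤ s.re ∧ s.re ≤ 2 ∧ |s.im| ≤ T ∧
      V < ‖PB x.2 N a s‖)).card : ℝ) ≤
      (8 / r + 1) * (8 / r + 1) * T * (2 *
        ((Q : ℝ) ^ 2 * (k * (3 * (N : ℝ) ^ (1 - 2 * a) * Real.log (2 * N)) / V ^ 2) ^ k +
        Q * D * ((3 * (N : ℝ) ^ (1 - a) / V) ^ 2) ^ k)) := by
  set F : Finset (Σ q : ℕ, DirichletCharacter ℂ q) :=
    (Fam Q).filter (fun x => ∃ s : ℂ, a ≤ s.re ∧ s.re ≤ 2 ∧ |s.im| ≤ T ∧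
      V < ‖PB x.2 N a s‖) with hF
  have hmem : ∀ x ∈ F, ∃ s : ℂ, a ≤ s.re ∧ s.re ≤ 2 ∧ |s.im| ≤ T ∧
      V < ‖PB x.2 N a s‖ := fun x hx => (mem_filter.1 hx).2
  set w : (Σ q : ℕ, DirichletCharacter ℂ q) → ℂ := fun x =>
    if h : ∃ s : ℂ, a ≤ s.re ∧ s.re ≤ 2 ∧ |s.im| ≤ T ∧
      V < ‖PB x.2 N a s‖ then h.choose else 0 with hw
  have hwspec : ∀ x ∈ F, a ≤ (w x).re ∧ (w x).re ≤ 2 ∧ |(w x).im| ≤ T ∧
      V < ‖PB x.2 N a (w x)‖ := by
    intro x hx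
    have h := hmem x hx
    rw [hw]
    simp only
    rw [dif_pos h]
    exact h.choose_spec
  set f : (Σ q : ℕ, DirichletCharacter ℂ q) → ℂ → ℂ := fun x s => PB x.2 N a s ^ k with hf
  have hfd : ∀ x ∈ F, Differentiable ℂ (f x) := fun x _ => (differentiable_PB x.2 hN a).pow k
  have hN1 : (1 : ℝ) ≤ N := by exact_mod_cast hN
  have hlog0 : 0 ≤ Real.log (2 * N) := Real.log_nonneg (by linarith)
  set S : ℝ := (Q : ℝ) ^ 2 * (k * (3 * (N : ℝ) ^ (1 - 2 * a) * Real.log (2 * N))) ^ k +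
        Q * D * ((3 * (N : ℝ) ^ (1 - a)) ^ k) ^ 2 with hS
  have hS0 : 0 ≤ S := by positivity
  have hSb : ∀ s : ℂ, a - r ≤ s.re → s.re ≤ 2 + r → |s.im| ≤ T + r →
      ∑ x ∈ F, ‖f x s‖ ^ 2 ≤ S := by
    intro s h1 h2 h3
    have h4 : ∑ x ∈ F, ‖f x s‖ ^ 2 ≤ ∑ x ∈ Fam Q, ‖f x s‖ ^ 2 :=
      sum_le_sum_of_subset_of_nonneg (filter_subset _ _) fun x _ _ => by positivity
    exact h4.trans (mom_avg hN hD0 hD (by linarith))
  have key := cover F f hfd (a := a) (b := 2) (T := T) hr hS0 hSb w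
    (fun x hx => ⟨(hwspec x hx).1, (hwspec x hx).2.1, (hwspec x hx).2.2.1⟩)
  have hlow : (F.card : ℝ) * (V ^ k) ^ 2 ≤ ∑ x ∈ F, ‖f x (w x)‖ ^ 2 := by
    rw [← nsmul_eq_mul]
    apply card_nsmul_le_sum
    intro x hx
    rw [hf]
    simp only
    rw [norm_pow]
    have h5 := (hwspec x hx).2.2.2.le
    gcongr
  have hg := grid_le2 (c := 2 - a) hr hT (by linarith)
  have hVk : 0 < (V ^ k) ^ 2 := by positivity
  have h6 : (F.card : ℝ) * (V ^ k) ^ 2 ≤ ((8 / r + 1) * (8 / r + 1) * T) * (2 * S) :=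
    hlow.trans (key.trans (mul_le_mul_of_nonneg_right hg (by positivity)))
  rw [← le_div_iff₀ hVk] at h6
  refine h6.trans (le_of_eq ?_)
  rw [hS]
  have e1 : (k * (3 * (N : ℝ) ^ (1 - 2 * a) * Real.log (2 * N)) / V ^ 2) ^ k =
      (k * (3 * (N : ℝ) ^ (1 - 2 * a) * Real.log (2 * N))) ^ k / (V ^ k) ^ 2 := by
    rw [div_pow, ← pow_mul, ← pow_mul, mul_comm 2 k]
  have e2 : ((3 * (N : ℝ) ^ (1 - a) / V) ^ 2) ^ k =
      ((3 * (N : ℝ) ^ (1 - a)) ^ k) ^ 2 / (V ^ k) ^ 2 := by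
    rw [div_pow, div_pow, ← pow_mul, ← pow_mul, ← pow_mul, ← pow_mul, mul_comm 2 k]
  rw [e1, e2]
  field_simp

end Run7.h837
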