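import Pool.Agent.Run7.h837.Fin

/-!
# The number of exceptional primitive characters
-/

set_option autoImplicit false

namespace Run7.h837

open Finset Filter

lemma card_prim_le {q : ℕ} (hq : 1 ≤ q) : (prim q).card ≤ q := by
  have : NeZero q := ⟨by omega⟩
  refine (card_le_univ _).trans ?_
  rw [← Nat.card_eq_fintype_card, DirichletCharacter.card_eq_totient_of_hasEnoughRootsOfUnity]
  exact Nat.totient_le q

lemma card_Fam_le (M : ℕ) : (Fam M).card ≤ M * M := by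
  unfold Fam
  rw [card_sigma]
  calc ∑ q ∈ Icc 2 M, (prim q).card ≤ ∑ q ∈ Icc 2 M, M := by
        apply sum_le_sum
        intro q hq
        rw [mem_Icc] at hq
        exact (card_prim_le (by omega)).trans hq.2
    _ = (Icc 2 M).card * M := by rw [sum_const, smul_eq_mul]
    _ ≤ M * M := by
        apply Nat.mul_le_mul_right
        rw [Nat.card_Icc]; omega

open Classical in
/-- **few primitive characters violate the bound** -/
theorem count_bad {σ₀ ε : ℝ} (h1 : 1 / 2 < σ₀) (h2 : σ₀ < 1) (hε : 0 < ε) :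
    ∃ C : ℝ, 0 < C ∧ ∃ Q₀ : ℕ, ∀ Q : ℕ, Q₀ ≤ Q →
      (((Fam Q).filter (fun x => ∃ _ : NeZero x.1, ¬ ∀ σ : ℝ, σ₀ ≤ σ → σ < 1 →
        DirichletCharacter.LFunction x.2 (σ : ℂ) ≠ 0 ∧
          ‖deriv (DirichletCharacter.LFunction x.2) (σ : ℂ) /
            DirichletCharacter.LFunction x.2 (σ : ℂ)‖ ≤
            C / (1 - σ) * Real.log x.1 ^ (1 - σ) * Real.log (Real.log x.1) ^ (1 - σ))).card : ℝ) ≤
        (Q : ℝ) ^ (3 - 2 * σ₀ + ε) := by
  obtain ⟨r, hr⟩ : ∃ r : ℝ, r = min ((σ₀ - 1 / 2) / 6) (ε / 24) := ⟨_, rfl⟩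
  have hr0 : 0 < r := by rw [hr]; exact lt_min (by linarith) (by linarith)
  have hr1 : r ≤ (σ₀ - 1 / 2) / 6 := by rw [hr]; exact min_le_left _ _
  have hr2 : r ≤ ε / 24 := by rw [hr]; exact min_le_right _ _
  obtain ⟨Cz, hCz0, hz⟩ := zeros_avg (α := σ₀ - 3 * r) (r := r) (ε := ε / 4) (by linarith) hr0
    (by linarith) (by positivity)
  obtain ⟨B, hB⟩ : ∃ B : ℝ, B = 16 / r + 7 := ⟨_, rfl⟩
  have h16 : 0 < 16 / r := by positivity
  obtain ⟨c, C0, L0, hc, hC0, hL03, hblk⟩ := blk_par (a := σ₀ - r) (r := r) (ε := ε / 4) (B := B)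
    (by linarith) (by linarith) hr0 (by linarith) (by positivity) (by rw [hB]; linarith)
  obtain ⟨C, L1, hC, hL13, hdet⟩ := det_good (σ₀ := σ₀) (r := r) (c := c) (C0 := C0) hr0
    (by linarith) h2 hc hC0
  obtain ⟨L2, hL21, hL2⟩ := log_le_small ((16 / r + 4) / Real.log 2 + 1)
  obtain ⟨L3, hL33, hL3⟩ := large3 (K1 := 0) (K2 := 0) (K3 := Real.log (2 * C0) + Real.log 2)
  obtain ⟨L4, hL41, hL4⟩ := poly_exp (Cz + 2) 3 (δ := ε / 2) (by positivity)
  refine ⟨C, hC, ⌈Real.exp (max (max L0 L1) (max (max L2 L3) L4))⌉₊, ?_⟩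
  intro Q hQ
  have hQexp0 : Real.exp (max (max L0 L1) (max (max L2 L3) L4)) ≤ Q :=
    (Nat.le_ceil _).trans (by exact_mod_cast hQ)
  have hQ0 : (0 : ℝ) < Q := (Real.exp_pos _).trans_le hQexp0
  obtain ⟨L, hL⟩ : ∃ L : ℝ, L = Real.log Q := ⟨_, rfl⟩
  have hLbig : max (max L0 L1) (max (max L2 L3) L4) ≤ L := by
    rw [hL, Real.le_log_iff_exp_le hQ0]; exact hQexp0
  have hQexp : (Q : ℝ) = Real.exp L := by rw [hL, Real.exp_log hQ0]
  have g0 : L0 ≤ L := ((le_max_left _ _).trans (le_max_left _ _)).trans hLbig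
  have g1 : L1 ≤ L := ((le_max_right _ _).trans (le_max_left _ _)).trans hLbig
  have g2 : L2 ≤ L :=
    (((le_max_left _ _).trans (le_max_left _ _)).trans (le_max_right _ _)).trans hLbig
  have g3 : L3 ≤ L :=
    (((le_max_right _ _).trans (le_max_left _ _)).trans (le_max_right _ _)).trans hLbig
  have g4 : L4 ≤ L := ((le_max_right _ _).trans (le_max_right _ _)).trans hLbig
  have hL3' : 3 ≤ L := hL13.trans g1
  have hLpos : 0 < L := by linarith
  have k2 := hL2 L g2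
  obtain ⟨-, -, k3⟩ := hL3 L g3
  have k4 := hL4 L g4
  have hlog2 : 0 < Real.log 2 := Real.log_pos (by norm_num)
  have hlog2' : Real.log 2 ≤ 1 := by linarith [Real.log_two_lt_d9]
  have hlogL1 : 1 ≤ Real.log L := by
    rw [Real.le_log_iff_exp_le (by linarith)]
    linarith [Real.exp_one_lt_d9]
  have hLL : 1 ≤ L * Real.log L := by nlinarith
  -- the parameters `N0`, `J`
  obtain ⟨N0, hN0def⟩ : ∃ N0 : ℕ, N0 = ⌈C0 * (L * Real.log L)⌉₊ := ⟨_, rfl⟩
  have hCL : 1 ≤ C0 * (L * Real.log L) := by nlinarith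
  have hN0 : C0 * (L * Real.log L) ≤ N0 := by rw [hN0def]; exact Nat.le_ceil _
  have hN02 : (N0 : ℝ) ≤ 2 * C0 * (L * Real.log L) := by
    have h3 : (N0 : ℝ) ≤ C0 * (L * Real.log L) + 1 := by
      rw [hN0def]; exact (Nat.ceil_lt_add_one (by linarith)).le
    linarith
  have hN0r : (1 : ℝ) ≤ N0 := hCL.trans hN0
  obtain ⟨J, hJdef⟩ : ∃ J : ℕ, J = ⌈(16 / r + 4) * Real.log L / Real.log 2⌉₊ := ⟨_, rfl⟩
  have hJ1 : (16 / r + 4) * Real.log L / Real.log 2 ≤ J := by rw [hJdef]; exact Nat.le_ceil _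
  have hJ2 : (J : ℝ) ≤ (16 / r + 4) * Real.log L / Real.log 2 + 1 := by
    rw [hJdef]; exact (Nat.ceil_lt_add_one (by positivity)).le
  have hJL : (J : ℝ) ≤ L := by
    refine hJ2.trans (le_trans ?_ k2)
    have : (16 / r + 4) * Real.log L / Real.log 2 = (16 / r + 4) / Real.log 2 * Real.log L := by
      ring
    rw [this]
    linarith
  have hJpow : L ^ (16 / r + 4) ≤ (2 : ℝ) ^ J := by
    rw [← Real.rpow_natCast, Real.rpow_def_of_pos hLpos, Real.rpow_def_of_pos (by norm_num)]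
    apply Real.exp_le_exp.2
    rw [div_le_iff₀ hlog2] at hJ1
    linarith
  -- the bound for the logarithm of the blocks
  have hlogN : ∀ j < J, Real.log (2 * ((2 ^ j * N0 : ℕ) : ℝ)) ≤ B * Real.log L := by
    intro j hj
    have e1 : 2 * ((2 ^ j * N0 : ℕ) : ℝ) = (2 : ℝ) ^ (j + 1) * N0 := by push_cast; ring
    rw [e1, Real.log_mul (by positivity) (by linarith), Real.log_pow]
    have h3 : ((j + 1 : ℕ) : ℝ) ≤ J := by exact_mod_cast hj
    have h4 : ((j + 1 : ℕ) : ℝ) * Real.log 2 ≤ (16 / r + 4) * Real.log L + Real.log 2 := by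
      calc ((j + 1 : ℕ) : ℝ) * Real.log 2 ≤ ((16 / r + 4) * Real.log L / Real.log 2 + 1) *
            Real.log 2 := by
            apply mul_le_mul_of_nonneg_right (h3.trans hJ2) hlog2.le
        _ = _ := by field_simp
    have h5 : Real.log N0 ≤ Real.log (2 * C0) + 2 * Real.log L := by
      have h6 : (N0 : ℝ) ≤ 2 * C0 * L ^ 2 := by
        refine hN02.trans ?_
        have : Real.log L ≤ L := (Real.log_le_sub_one_of_pos hLpos).trans (by linarith)
        rw [sq]; gcongr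
      have h7 := Real.log_le_log (by linarith) h6
      rw [Real.log_mul (by positivity) (by positivity), Real.log_pow] at h7
      exact_mod_cast h7
    rw [hB]
    nlinarith
  -- the exceptional sets
  set Z := (Fam Q).filter (fun x => ∃ s : ℂ, (σ₀ - 3 * r) + r ≤ s.re ∧ |s.im| ≤ L ∧ LL x.2 s = 0)
    with hZ
  set Bj : ℕ → Finset (Σ q : ℕ, DirichletCharacter ℂ q) := fun j =>
    (Fam Q).filter (fun x => ∃ s : ℂ, σ₀ - r ≤ s.re ∧ s.re ≤ 2 ∧ |s.im| ≤ L ∧
      Real.exp (-(c * j)) * (N0 : ℝ) ^ (1 - (σ₀ - r)) < ‖PB x.2 (2 ^ j * N0) (σ₀ - r) s‖) with hBj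
  have hsub : ((Fam Q).filter (fun x => ∃ _ : NeZero x.1, ¬ ∀ σ : ℝ, σ₀ ≤ σ → σ < 1 →
        DirichletCharacter.LFunction x.2 (σ : ℂ) ≠ 0 ∧
          ‖deriv (DirichletCharacter.LFunction x.2) (σ : ℂ) /
            DirichletCharacter.LFunction x.2 (σ : ℂ)‖ ≤
            C / (1 - σ) * Real.log x.1 ^ (1 - σ) * Real.log (Real.log x.1) ^ (1 - σ))) ⊆
      (Z ∪ (range J).biUnion Bj) ∪ Fam (Nat.sqrt Q) := by
    intro x hx
    rw [mem_filter] at hx
    obtain ⟨hxF, hne, hbad⟩ := hx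
    by_contra hcon
    rw [mem_union, mem_union, not_or, not_or] at hcon
    obtain ⟨⟨c1, c2⟩, c3⟩ := hcon
    apply hbad
    obtain ⟨⟨hq2, hqQ⟩, hprim⟩ := mem_Fam.1 hxF
    have hχ : x.2 ≠ 1 := prim_ne_one hq2 hprim
    have hsq : Q < x.1 ^ 2 := by
      have : ¬ x.1 ≤ Nat.sqrt Q := by
        intro hle
        exact c3 (mem_Fam.2 ⟨⟨hq2, hle⟩, hprim⟩)
      rw [not_le, Nat.sqrt_lt'] at this
      exact this
    refine hdet Q L hL g1 N0 J hN0 hN02 hJpow x.1 x.2 hχ hqQ hsq ?_ ?_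
    · intro s hs1 hs2 h0
      apply c1
      rw [hZ, mem_filter]
      refine ⟨hxF, s, by linarith, hs2, ?_⟩
      rw [LL_eq]; exact h0
    · intro j hj s hs1 hs2 hs3
      by_contra hcon2
      push Not at hcon2
      apply c2
      rw [mem_biUnion]
      refine ⟨j, mem_range.2 hj, ?_⟩
      rw [hBj]
      simp only
      rw [mem_filter]
      exact ⟨hxF, s, hs1, hs2, hs3, hcon2⟩
  have hcard : ((((Fam Q).filter (fun x => ∃ _ : NeZero x.1, ¬ ∀ σ : ℝ, σ₀ ≤ σ → σ < 1 →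
        DirichletCharacter.LFunction x.2 (σ : ℂ) ≠ 0 ∧
          ‖deriv (DirichletCharacter.LFunction x.2) (σ : ℂ) /
            DirichletCharacter.LFunction x.2 (σ : ℂ)‖ ≤
            C / (1 - σ) * Real.log x.1 ^ (1 - σ) * Real.log (Real.log x.1) ^ (1 - σ))).card : ℕ) : ℝ)
      ≤ (Z.card : ℝ) + ∑ j ∈ range J, ((Bj j).card : ℝ) + ((Fam (Nat.sqrt Q)).card : ℝ) := by
    have h3 := (card_le_card hsub).trans (card_union_le _ _)
    have h4 : (Z ∪ (range J).biUnion Bj).card ≤ Z.card + ∑ j ∈ range J, (Bj j).card :=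
      (card_union_le _ _).trans (Nat.add_le_add_left card_biUnion_le _)
    exact_mod_cast h3.trans (Nat.add_le_add_right h4 _)
  refine hcard.trans ?_
  set E : ℝ := Real.exp ((3 - 2 * σ₀ + ε / 2) * L) with hE
  have hE0 : 0 < E := Real.exp_pos _
  have hZc : (Z.card : ℝ) ≤ Cz * L ^ 3 * E := by
    have hQ2 : 2 ≤ Q := by
      have : (2 : ℝ) ≤ Q := by
        rw [hQexp]
        have := Real.add_one_le_exp L
        linarith
      exact_mod_cast this
    refine (hz Q hQ2 L (by linarith)).trans ?_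
    have : (Q : ℝ) ^ (3 - 2 * (σ₀ - 3 * r) + ε / 4) ≤ E := by
      rw [hE, hQexp, ← Real.exp_mul]
      apply Real.exp_le_exp.2
      nlinarith
    gcongr
  have hBc : ∀ j ∈ range J, ((Bj j).card : ℝ) ≤ E := by
    intro j hj
    rw [mem_range] at hj
    refine (hblk Q L hL g0 N0 hN0 j (2 ^ j * N0) rfl (hlogN j hj)).trans ?_
    rw [hE]
    apply Real.exp_le_exp.2
    nlinarith
  have hSc : ((Fam (Nat.sqrt Q)).card : ℝ) ≤ E := by
    have h3 : (Fam (Nat.sqrt Q)).card ≤ Q := (card_Fam_le _).trans (Nat.sqrt_le Q)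
    calc ((Fam (Nat.sqrt Q)).card : ℝ) ≤ Q := by exact_mod_cast h3
      _ = Real.exp (1 * L) := by rw [one_mul]; exact hQexp
      _ ≤ E := by
        rw [hE]
        apply Real.exp_le_exp.2
        apply mul_le_mul_of_nonneg_right _ hLpos.le
        linarith
  have hsumB : ∑ j ∈ range J, ((Bj j).card : ℝ) ≤ L * E := by
    refine (sum_le_sum hBc).trans ?_
    rw [sum_const, card_range, nsmul_eq_mul]
    gcongr
  have hL1' : 1 ≤ L := by linarith
  have hL3pow : L ≤ L ^ 3 := le_self_pow₀ hL1' (by norm_num)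
  have hL3pow1 : 1 ≤ L ^ 3 := one_le_pow₀ hL1'
  have hrp : L ^ (3 : ℝ) = L ^ 3 := by
    rw [show (3 : ℝ) = ((3 : ℕ) : ℝ) by norm_num, Real.rpow_natCast]
  rw [hrp] at k4
  calc (Z.card : ℝ) + ∑ j ∈ range J, ((Bj j).card : ℝ) + ((Fam (Nat.sqrt Q)).card : ℝ) ≤
      Cz * L ^ 3 * E + L * E + E := by linarith
    _ ≤ Cz * L ^ 3 * E + L ^ 3 * E + L ^ 3 * E := by nlinarith
    _ = ((Cz + 2) * L ^ 3) * E := by ring
    _ ≤ Real.exp (ε / 2 * L) * E := by gcongr
    _ = (Q : ℝ) ^ (3 - 2 * σ₀ + ε) := by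
      rw [hE, ← Real.exp_add, hQexp, ← Real.exp_mul]
      congr 1; ring

end Run7.h837
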