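import Pool.Agent.Run7.h837.FinF

/-!
# One modulus: the exceptional characters are few
-/

set_option autoImplicit false

namespace Run7.h837

open Finset Filter

open Classical in
/-- **few characters modulo `q` violate the bound** -/
theorem count_fix {σ₀ : ℝ} (h1 : 1 / 2 < σ₀) (h2 : σ₀ < 1) :
    ∃ C c : ℝ, 0 < C ∧ 0 < c ∧ ∃ q₀ : ℕ, ∀ (q : ℕ) [NeZero q], q₀ ≤ q → ∀ m : ℝ, 2 ≤ m →
      m ≤ Real.log q →
      (((npr q).filter (fun χ => ¬ ∀ σ : ℝ, σ₀ ≤ σ → σ < 1 →
        DirichletCharacter.LFunction χ (σ : ℂ) ≠ 0 ∧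
          ‖deriv (DirichletCharacter.LFunction χ) (σ : ℂ) /
            DirichletCharacter.LFunction χ (σ : ℂ)‖ ≤
            C / (1 - σ) * (m * Real.log q) ^ (1 - σ))).card : ℝ) ≤
        Nat.totient q * Real.exp (-(c * (Real.log q / Real.log (Real.log q) *
          Real.log m))) := by
  obtain ⟨r, hr⟩ : ∃ r : ℝ, r = (σ₀ - 1 / 2) / 6 := ⟨_, rfl⟩
  have hr0 : 0 < r := by rw [hr]; linarith
  obtain ⟨Cz, δ, hCz0, hδ, hz⟩ := zeros_fix (α := σ₀ - 3 * r) (r := r) (by linarith) (by linarith)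
    hr0 (by linarith)
  obtain ⟨B, hB⟩ : ∃ B : ℝ, B = 24 / r + 8 := ⟨_, rfl⟩
  have h24 : 0 < 24 / r := by positivity
  have hB1 : 1 ≤ B := by rw [hB]; linarith
  obtain ⟨c, L0, hc, hL03, hblk⟩ := blk_par_fix (a := σ₀ - r) (r := r) (B := B)
    (by linarith) (by linarith) hr0 (by linarith) hB1
  obtain ⟨C, L1, hC, hL13, hdet⟩ := det_fix (σ₀ := σ₀) (r := r) (c := c) hr0
    (by linarith) h2 hc
  obtain ⟨L2, hL21, hL2⟩ := log_le_small ((24 / r + 4) / Real.log 2 + 1 + 6)
  obtain ⟨L3, hL31, hL3⟩ := poly_exp (2 * Cz) 3 (δ := δ / 2) (by positivity)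
  obtain ⟨L4, hL43, hL4⟩ := poly_exp_log (4 * ((8 / r + 1) * (8 / r + 1))) 2
    (δ := 1 / (4 * B) / 2) (by positivity)
  obtain ⟨L5, hL53, hL5⟩ := large3 (K1 := 0) (K2 := 0) (K3 := 3)
  obtain ⟨cf, hcf⟩ : ∃ cf : ℝ, cf = min (1 / (4 * B)) (δ / 4) := ⟨_, rfl⟩
  have hcf0 : 0 < cf := by rw [hcf]; exact lt_min (by positivity) (by positivity)
  have hcf1 : cf ≤ 1 / (4 * B) := by rw [hcf]; exact min_le_left _ _
  have hcf2 : cf ≤ δ / 4 := by rw [hcf]; exact min_le_right _ _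
  refine ⟨6 * C, cf, by positivity, hcf0,
    ⌈Real.exp (max (max L0 L1) (max (max L2 L3) (max L4 L5)))⌉₊, ?_⟩
  intro q _ hq m hm hmq
  have hqexp0 : Real.exp (max (max L0 L1) (max (max L2 L3) (max L4 L5))) ≤ q :=
    (Nat.le_ceil _).trans (by exact_mod_cast hq)
  have hq0 : (0 : ℝ) < q := (Real.exp_pos _).trans_le hqexp0
  obtain ⟨L, hL⟩ : ∃ L : ℝ, L = Real.log q := ⟨_, rfl⟩
  have hLbig : max (max L0 L1) (max (max L2 L3) (max L4 L5)) ≤ L := by
    rw [hL, Real.le_log_iff_exp_le hq0]; exact hqexp0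
  have hqexp : (q : ℝ) = Real.exp L := by rw [hL, Real.exp_log hq0]
  have g0 : L0 ≤ L := ((le_max_left _ _).trans (le_max_left _ _)).trans hLbig
  have g1 : L1 ≤ L := ((le_max_right _ _).trans (le_max_left _ _)).trans hLbig
  have g2 : L2 ≤ L :=
    (((le_max_left _ _).trans (le_max_left _ _)).trans (le_max_right _ _)).trans hLbig
  have g3 : L3 ≤ L :=
    (((le_max_right _ _).trans (le_max_left _ _)).trans (le_max_right _ _)).trans hLbig
  have g4 : L4 ≤ L :=
    (((le_max_left _ _).trans (le_max_right _ _)).trans (le_max_right _ _)).trans hLbig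
  have g5 : L5 ≤ L :=
    (((le_max_right _ _).trans (le_max_right _ _)).trans (le_max_right _ _)).trans hLbig
  have hL3' : 3 ≤ L := hL13.trans g1
  have hLpos : 0 < L := by linarith
  have k2 := hL2 L g2
  have k3 := hL3 L g3
  have k4 := hL4 L g4
  obtain ⟨-, -, k5⟩ := hL5 L g5
  have hlog2 : 0 < Real.log 2 := Real.log_pos (by norm_num)
  have hlog2' : Real.log 2 ≤ 1 := by linarith [Real.log_two_lt_d9]
  have hLL : 1 ≤ L * Real.log L := by nlinarith
  rw [← hL] at hmq ⊢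
  -- the parameters `N0`, `J`
  obtain ⟨N0, hN0def⟩ : ∃ N0 : ℕ, N0 = ⌈3 * m * L⌉₊ := ⟨_, rfl⟩
  have hmL : 6 ≤ m * L := by nlinarith
  have hN0 : 3 * m * L ≤ N0 := by rw [hN0def]; exact Nat.le_ceil _
  have hN02 : (N0 : ℝ) ≤ 6 * (m * L) := by
    have h3 : (N0 : ℝ) ≤ 3 * m * L + 1 := by
      rw [hN0def]; exact (Nat.ceil_lt_add_one (by nlinarith)).le
    nlinarith
  have hN0r : (1 : ℝ) ≤ N0 := by
    refine le_trans ?_ hN0
    nlinarith
  have hN01 : 1 ≤ N0 := by exact_mod_cast hN0r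
  have h6log : 6 * Real.log L ≤ L := by
    refine le_trans ?_ k2
    have : 0 ≤ ((24 / r + 4) / Real.log 2 + 1) * Real.log L := by positivity
    linarith
  have hN03 : (N0 : ℝ) ≤ L ^ 3 := by
    have h6L : 6 ≤ L := by nlinarith
    calc (N0 : ℝ) ≤ 6 * (m * L) := hN02
      _ ≤ L * (L * L) := by gcongr
      _ = L ^ 3 := by ring
  obtain ⟨J, hJdef⟩ : ∃ J : ℕ, J = ⌈(24 / r + 4) * Real.log L / Real.log 2⌉₊ := ⟨_, rfl⟩
  have hJ1 : (24 / r + 4) * Real.log L / Real.log 2 ≤ J := by rw [hJdef]; exact Nat.le_ceil _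
  have hJ2 : (J : ℝ) ≤ (24 / r + 4) * Real.log L / Real.log 2 + 1 := by
    rw [hJdef]; exact (Nat.ceil_lt_add_one (by positivity)).le
  have hJL : (J : ℝ) ≤ L := by
    refine hJ2.trans (le_trans ?_ k2)
    have : (24 / r + 4) * Real.log L / Real.log 2 = (24 / r + 4) / Real.log 2 * Real.log L := by
      ring
    rw [this]
    linarith
  have hJpow : L ^ (24 / r + 4) ≤ (2 : ℝ) ^ J := by
    rw [← Real.rpow_natCast, Real.rpow_def_of_pos hLpos, Real.rpow_def_of_pos (by norm_num)]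
    apply Real.exp_le_exp.2
    rw [div_le_iff₀ hlog2] at hJ1
    linarith
  -- the bound for the logarithm of the blocks
  have hlogN : ∀ j < J, Real.log (2 * ((2 ^ j * N0 : ℕ) : ℝ)) ≤ B * Real.log L := by
    intro j hj
    have e1 : 2 * ((2 ^ j * N0 : ℕ) : ℝ) = (2 : ℝ) ^ (j + 1) * N0 := by push_cast; ring
    rw [e1, Real.log_mul (by positivity) (by linarith), Real.log_pow]
    have h3 : ((j + 1 : ℕ) : ℝ) ≤ J := by exact_mod_cast hj
    have h4 : ((j + 1 : ℕ) : ℝ) * Real.log 2 ≤ (24 / r + 4) * Real.log L + Real.log 2 := by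
      calc ((j + 1 : ℕ) : ℝ) * Real.log 2 ≤ ((24 / r + 4) * Real.log L / Real.log 2 + 1) *
            Real.log 2 := by
            apply mul_le_mul_of_nonneg_right (h3.trans hJ2) hlog2.le
        _ = _ := by field_simp
    have h5 : Real.log N0 ≤ 3 * Real.log L := by
      have h7 := Real.log_le_log (by linarith) hN03
      rw [Real.log_pow] at h7
      exact_mod_cast h7
    rw [hB]
    nlinarith
  -- the exceptional sets
  set Z := (npr q).filter (fun χ => ∃ s : ℂ, (σ₀ - 3 * r) + r ≤ s.re ∧ |s.im| ≤ L ∧ LL χ s = 0)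
    with hZ
  set Bj : ℕ → Finset (DirichletCharacter ℂ q) := fun j =>
    (univ : Finset (DirichletCharacter ℂ q)).filter (fun χ => ∃ s : ℂ, σ₀ - r ≤ s.re ∧
      s.re ≤ 2 ∧ |s.im| ≤ L ∧
      Real.exp (-(c * j)) * (N0 : ℝ) ^ (1 - (σ₀ - r)) < ‖PB χ (2 ^ j * N0) (σ₀ - r) s‖) with hBj
  have hsub : ((npr q).filter (fun χ => ¬ ∀ σ : ℝ, σ₀ ≤ σ → σ < 1 →
        DirichletCharacter.LFunction χ (σ : ℂ) ≠ 0 ∧
          ‖deriv (DirichletCharacter.LFunction χ) (σ : ℂ) /
            DirichletCharacter.LFunction χ (σ : ℂ)‖ ≤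
            6 * C / (1 - σ) * (m * L) ^ (1 - σ))) ⊆
      Z ∪ (range J).biUnion Bj := by
    intro χ hχ
    rw [mem_filter] at hχ
    obtain ⟨hχF, hbad⟩ := hχ
    by_contra hcon
    rw [mem_union, not_or] at hcon
    obtain ⟨c1, c2⟩ := hcon
    apply hbad
    have hχ1 : χ ≠ 1 := mem_npr.1 hχF
    intro σ hσ hσ1
    obtain ⟨d1, d2⟩ := hdet q L hL g1 N0 J hN01 hN03 hJpow χ hχ1
      (by
        intro s hs1 hs2 h0
        apply c1
        rw [hZ, mem_filter]
        refine ⟨hχF, s, by linarith, hs2, ?_⟩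
        rw [LL_eq]; exact h0)
      (by
        intro j hj s hs1 hs2 hs3
        by_contra hcon2
        push Not at hcon2
        apply c2
        rw [mem_biUnion]
        refine ⟨j, mem_range.2 hj, ?_⟩
        rw [hBj]
        simp only
        rw [mem_filter]
        exact ⟨mem_univ _, s, hs1, hs2, hs3, hcon2⟩) σ hσ hσ1
    refine ⟨d1, d2.trans ?_⟩
    have h1σ : 0 < 1 - σ := by linarith
    have h3 : (N0 : ℝ) ^ (1 - σ) ≤ 6 * (m * L) ^ (1 - σ) := by
      calc (N0 : ℝ) ^ (1 - σ) ≤ (6 * (m * L)) ^ (1 - σ) :=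
            Real.rpow_le_rpow (by linarith) hN02 h1σ.le
        _ = 6 ^ (1 - σ) * (m * L) ^ (1 - σ) :=
            Real.mul_rpow (by norm_num) (by positivity)
        _ ≤ 6 ^ (1 : ℝ) * (m * L) ^ (1 - σ) := by
            apply mul_le_mul_of_nonneg_right _ (by positivity)
            exact Real.rpow_le_rpow_of_exponent_le (by norm_num) (by linarith)
        _ = _ := by rw [Real.rpow_one]
    calc C / (1 - σ) * (N0 : ℝ) ^ (1 - σ) ≤
        C / (1 - σ) * (6 * (m * L) ^ (1 - σ)) := by gcongr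
      _ = _ := by ring
  have hcard : ((((npr q).filter (fun χ => ¬ ∀ σ : ℝ, σ₀ ≤ σ → σ < 1 →
        DirichletCharacter.LFunction χ (σ : ℂ) ≠ 0 ∧
          ‖deriv (DirichletCharacter.LFunction χ) (σ : ℂ) /
            DirichletCharacter.LFunction χ (σ : ℂ)‖ ≤
            6 * C / (1 - σ) * (m * L) ^ (1 - σ))).card : ℕ) : ℝ)
      ≤ (Z.card : ℝ) + ∑ j ∈ range J, ((Bj j).card : ℝ) := by
    have h3 := (card_le_card hsub).trans (card_union_le _ _)
    have h4 : Z.card + ((range J).biUnion Bj).card ≤ Z.card + ∑ j ∈ range J, (Bj j).card :=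
      Nat.add_le_add_left card_biUnion_le _
    exact_mod_cast h3.trans h4
  refine hcard.trans ?_
  -- the numbers
  obtain ⟨x, hx⟩ : ∃ x : ℝ, x = L / Real.log L * Real.log m := ⟨_, rfl⟩
  rw [← hx]
  have hlogpos : 0 < Real.log L := by linarith
  have hx1 : L / Real.log L * (1 / 2) ≤ x := by
    rw [hx]
    have h3 : 1 / 2 ≤ Real.log m := by
      have h4 := Real.log_le_log (by norm_num) hm
      linarith [Real.log_two_gt_d9]
    gcongr
  have hx2 : x ≤ 2 * L := by
    have h3 : Real.log m ≤ Real.log L := Real.log_le_log (by linarith) hmq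
    rw [hx]
    calc L / Real.log L * Real.log m ≤ L / Real.log L * Real.log L := by
          gcongr
      _ = L := by field_simp
      _ ≤ 2 * L := by linarith
  have htot : (0 : ℝ) ≤ Nat.totient q := Nat.cast_nonneg _
  have hZc : (Z.card : ℝ) ≤ Nat.totient q * (1 / 2 * Real.exp (-(cf * x))) := by
    have hq2 : 2 ≤ q := by
      have : (2 : ℝ) ≤ q := by
        rw [hqexp]
        have := Real.add_one_le_exp L
        linarith
      exact_mod_cast this
    refine (hz q hq2 L (by linarith)).trans ?_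
    have e1 : (q : ℝ) ^ (-δ) = Real.exp (-(δ / 2 * L)) * Real.exp (-(δ / 2 * L)) := by
      rw [hqexp, ← Real.exp_mul, ← Real.exp_add]
      congr 1; ring
    have e2 : L ^ (3 : ℝ) = L ^ 3 := by
      rw [show (3 : ℝ) = ((3 : ℕ) : ℝ) by norm_num, Real.rpow_natCast]
    rw [e2] at k3
    have h3 : Real.exp (-(δ / 2 * L)) ≤ Real.exp (-(cf * x)) := by
      apply Real.exp_le_exp.2
      have : cf * x ≤ δ / 4 * (2 * L) := by
        apply mul_le_mul hcf2 hx2 _ (by positivity)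
        exact le_trans (by positivity) hx1
      linarith
    rw [e1]
    calc Cz * L ^ 3 * (Nat.totient q * (Real.exp (-(δ / 2 * L)) * Real.exp (-(δ / 2 * L)))) =
        Nat.totient q * (1 / 2 * ((2 * Cz * L ^ 3) * Real.exp (-(δ / 2 * L))) *
          Real.exp (-(δ / 2 * L))) := by ring
      _ ≤ Nat.totient q * (1 / 2 * (Real.exp (δ / 2 * L) * Real.exp (-(δ / 2 * L))) *
          Real.exp (-(cf * x))) := by gcongr
      _ = Nat.totient q * (1 / 2 * Real.exp (-(cf * x))) := by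
          rw [← Real.exp_add]; simp
  have hBc : ∀ j ∈ range J, ((Bj j).card : ℝ) ≤ (8 / r + 1) * (8 / r + 1) * L *
      (2 * (Nat.totient q * Real.exp (-(1 / (2 * B)) * x))) := by
    intro j hj
    rw [mem_range] at hj
    rw [hx]
    exact hblk q L hL g0 m (by linarith) N0 hN0 j (2 ^ j * N0) rfl (hlogN j hj)
  have hsumB : ∑ j ∈ range J, ((Bj j).card : ℝ) ≤
      Nat.totient q * (1 / 2 * Real.exp (-(cf * x))) := by
    refine (sum_le_sum hBc).trans ?_
    rw [sum_const, card_range, nsmul_eq_mul]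
    have e2 : L ^ (2 : ℝ) = L ^ 2 := by
      rw [show (2 : ℝ) = ((2 : ℕ) : ℝ) by norm_num, Real.rpow_natCast]
    rw [e2] at k4
    have h3 : 4 * ((8 / r + 1) * (8 / r + 1)) * L ^ 2 ≤ Real.exp (1 / (4 * B) * x) := by
      refine k4.trans (Real.exp_le_exp.2 ?_)
      calc 1 / (4 * B) / 2 * (L / Real.log L) = 1 / (4 * B) * (L / Real.log L * (1 / 2)) := by ring
        _ ≤ 1 / (4 * B) * x := by gcongr
    have e3 : Real.exp (-(1 / (2 * B)) * x) =
        Real.exp (-(1 / (4 * B) * x)) * Real.exp (-(1 / (4 * B) * x)) := by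
      rw [← Real.exp_add]
      congr 1
      field_simp; ring
    have h4 : Real.exp (-(1 / (4 * B) * x)) ≤ Real.exp (-(cf * x)) := by
      apply Real.exp_le_exp.2
      have hx0 : 0 ≤ x := le_trans (by positivity) hx1
      have := mul_le_mul_of_nonneg_right hcf1 hx0
      linarith
    rw [e3]
    calc (J : ℝ) * ((8 / r + 1) * (8 / r + 1) * L * (2 * (Nat.totient q *
        (Real.exp (-(1 / (4 * B) * x)) * Real.exp (-(1 / (4 * B) * x)))))) ≤
        L * ((8 / r + 1) * (8 / r + 1) * L * (2 * (Nat.totient q *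
        (Real.exp (-(1 / (4 * B) * x)) * Real.exp (-(cf * x)))))) := by gcongr
      _ = Nat.totient q * (1 / 2 * ((4 * ((8 / r + 1) * (8 / r + 1)) * L ^ 2) *
          Real.exp (-(1 / (4 * B) * x))) * Real.exp (-(cf * x))) := by ring
      _ ≤ Nat.totient q * (1 / 2 * (Real.exp (1 / (4 * B) * x) *
          Real.exp (-(1 / (4 * B) * x))) * Real.exp (-(cf * x))) := by gcongr
      _ = Nat.totient q * (1 / 2 * Real.exp (-(cf * x))) := by
          rw [← Real.exp_add]; simp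
  calc (Z.card : ℝ) + ∑ j ∈ range J, ((Bj j).card : ℝ) ≤
      Nat.totient q * (1 / 2 * Real.exp (-(cf * x))) +
        Nat.totient q * (1 / 2 * Real.exp (-(cf * x))) := add_le_add hZc hsumB
    _ = Nat.totient q * Real.exp (-(cf * x)) := by ring

end Run7.h837
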