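import Mathlib

/-!
# Mean square of suprema of holomorphic functions over a box
-/

set_option autoImplicit false

namespace Run7.h837

open Complex MeasureTheory Set Metric

/-- the value at a point near the centre is bounded by the mean square on the circle -/
theorem circ_sq {f : ℂ → ℂ} (hf : Differentiable ℂ f) {c w : ℂ} {r : ℝ} (hr : 0 < r)
    (hw : ‖w - c‖ ≤ r / 2) :
    ‖f w‖ ^ 2 ≤ Real.pi⁻¹ * ∫ θ in (0 : ℝ)..(2 * Real.pi), ‖f (circleMap c r θ)‖ ^ 2 := by
  have hpi := Real.pi_pos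
  set g : ℂ → ℂ := fun z => f z ^ 2 with hg
  have hgd : Differentiable ℂ g := hf.pow 2
  have hwb : w ∈ ball c r := by
    rw [mem_ball, dist_eq_norm]; linarith
  have key := (hgd.diffContOnCl (s := ball c r)).circleIntegral_sub_inv_smul hwb
  have hn : ‖(2 * Real.pi * I : ℂ) • g w‖ = 2 * Real.pi * ‖f w‖ ^ 2 := by
    rw [norm_smul, hg]
    simp [abs_of_pos hpi]
  have hcont : Continuous (fun θ : ℝ => ‖f (circleMap c r θ)‖ ^ 2) :=
    ((hf.continuous.comp (continuous_circleMap c r)).norm).pow 2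
  have hne : ∀ θ : ℝ, circleMap c r θ - w ≠ 0 := by
    intro θ h
    have h1 : ‖circleMap c r θ - c‖ = r := by
      have := circleMap_mem_sphere c hr.le θ
      rwa [mem_sphere, dist_eq_norm] at this
    rw [sub_eq_zero] at h
    rw [h] at h1
    linarith
  have hnle : ∀ θ : ℝ, r / 2 ≤ ‖circleMap c r θ - w‖ := by
    intro θ
    have h1 : ‖circleMap c r θ - c‖ = r := by
      have := circleMap_mem_sphere c hr.le θ
      rwa [mem_sphere, dist_eq_norm] at this
    have h2 : ‖circleMap c r θ - c‖ ≤ ‖circleMap c r θ - w‖ + ‖w - c‖ :=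
      norm_sub_le_norm_sub_add_norm_sub _ _ _
    linarith
  have hbound : ‖∮ z in C(c, r), (z - w)⁻¹ • g z‖ ≤
      ∫ θ in (0 : ℝ)..(2 * Real.pi), 2 * ‖f (circleMap c r θ)‖ ^ 2 := by
    unfold circleIntegral
    refine (intervalIntegral.norm_integral_le_integral_norm (by positivity)).trans ?_
    apply intervalIntegral.integral_mono_on (by positivity)
    · apply Continuous.intervalIntegrable
      apply Continuous.norm
      simp only [smul_eq_mul, deriv_circleMap]
      have h1 : Continuous (fun θ : ℝ => (circleMap c r θ - w)⁻¹) :=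
        ((continuous_circleMap c r).sub continuous_const).inv₀ hne
      have h2 : Continuous (fun θ : ℝ => g (circleMap c r θ)) :=
        hgd.continuous.comp (continuous_circleMap c r)
      exact ((continuous_circleMap 0 r).mul continuous_const).mul (h1.mul h2)
    · exact (hcont.const_mul 2).intervalIntegrable _ _
    · intro θ _
      rw [norm_smul, norm_smul, norm_inv, deriv_circleMap, norm_mul, norm_circleMap_zero, Complex.norm_I,
        mul_one, abs_of_pos hr, hg]
      simp only [norm_pow]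
      have h3 := hnle θ
      have h4 : 0 < ‖circleMap c r θ - w‖ := norm_pos_iff.2 (hne θ)
      have h5 : r * ‖circleMap c r θ - w‖⁻¹ ≤ 2 := by
        rw [← div_eq_mul_inv, div_le_iff₀ h4]; linarith
      have h6 : 0 ≤ ‖f (circleMap c r θ)‖ ^ 2 := by positivity
      calc r * (‖circleMap c r θ - w‖⁻¹ * ‖f (circleMap c r θ)‖ ^ 2) =
          (r * ‖circleMap c r θ - w‖⁻¹) * ‖f (circleMap c r θ)‖ ^ 2 := by ring
        _ ≤ 2 * ‖f (circleMap c r θ)‖ ^ 2 := by gcongr
  rw [key, hn, intervalIntegral.integral_const_mul] at hbound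
  have h7 : ‖f w‖ ^ 2 = Real.pi⁻¹ * (Real.pi * ‖f w‖ ^ 2) := by
    field_simp
  rw [h7]
  apply mul_le_mul_of_nonneg_left _ (by positivity)
  linarith

/-- **mean square of values at arbitrary points of a box** -/
theorem cover {ι : Type*} (F : Finset ι) (f : ι → ℂ → ℂ) (hf : ∀ i ∈ F, Differentiable ℂ (f i))
    {a b T r S : ℝ} (hr : 0 < r) (hS0 : 0 ≤ S)
    (hS : ∀ s : ℂ, a - r ≤ s.re → s.re ≤ b + r → |s.im| ≤ T + r → ∑ i ∈ F, ‖f i s‖ ^ 2 ≤ S)
    (w : ι → ℂ) (hw : ∀ i ∈ F, a ≤ (w i).re ∧ (w i).re ≤ b ∧ |(w i).im| ≤ T) :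
    ∑ i ∈ F, ‖f i (w i)‖ ^ 2 ≤
      ((⌊(b - a) / (r / 4)⌋₊ + 1) * (⌊2 * T / (r / 4)⌋₊ + 1) : ℕ) * (2 * S) := by
  classical
  have hpi := Real.pi_pos
  set δ : ℝ := r / 4 with hδ
  have hδ0 : 0 < δ := by rw [hδ]; linarith
  set g : ι → ℕ × ℕ := fun i => (⌊((w i).re - a) / δ⌋₊, ⌊((w i).im + T) / δ⌋₊) with hg
  set G : Finset (ℕ × ℕ) := Finset.range (⌊(b - a) / δ⌋₊ + 1) ×ˢ Finset.range (⌊2 * T / δ⌋₊ + 1)
    with hG
  have hmaps : ∀ i ∈ F, g i ∈ G := by
    intro i hi
    obtain ⟨h1, h2, h3⟩ := hw i hi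
    rw [hG, Finset.mem_product, Finset.mem_range, Finset.mem_range]
    have h4 := abs_le.1 h3
    constructor
    · apply Nat.lt_succ_of_le
      apply Nat.floor_le_floor
      apply div_le_div_of_nonneg_right _ hδ0.le
      linarith
    · apply Nat.lt_succ_of_le
      apply Nat.floor_le_floor
      apply div_le_div_of_nonneg_right _ hδ0.le
      linarith
  rw [← Finset.sum_fiberwise_of_maps_to hmaps]
  have hcard : ((⌊(b - a) / δ⌋₊ + 1) * (⌊2 * T / δ⌋₊ + 1) : ℕ) = G.card := by
    rw [hG, Finset.card_product, Finset.card_range, Finset.card_range]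
  rw [hcard, ← nsmul_eq_mul]
  apply Finset.sum_le_card_nsmul
  intro p hp
  by_cases hemp : (F.filter (fun i => g i = p)) = ∅
  · rw [hemp, Finset.sum_empty]
    linarith
  obtain ⟨i0, hi0⟩ := Finset.nonempty_iff_ne_empty.2 hemp
  set c : ℂ := ((a + δ * p.1 : ℝ) : ℂ) + ((-T + δ * p.2 : ℝ) : ℂ) * I with hc
  have hcre : c.re = a + δ * p.1 := by simp [hc]
  have hcim : c.im = -T + δ * p.2 := by simp [hc]
  have hclose : ∀ i ∈ F.filter (fun i => g i = p), c.re ≤ (w i).re ∧ (w i).re ≤ c.re + δ ∧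
      c.im ≤ (w i).im ∧ (w i).im ≤ c.im + δ := by
    intro i hi
    rw [Finset.mem_filter] at hi
    obtain ⟨h1, h2, h3⟩ := hw i hi.1
    have h4 := abs_le.1 h3
    have e1 : ⌊((w i).re - a) / δ⌋₊ = p.1 := congrArg Prod.fst hi.2
    have e2 : ⌊((w i).im + T) / δ⌋₊ = p.2 := congrArg Prod.snd hi.2
    have n1 : (0 : ℝ) ≤ ((w i).re - a) / δ := div_nonneg (by linarith) hδ0.le
    have n2 : (0 : ℝ) ≤ ((w i).im + T) / δ := div_nonneg (by linarith) hδ0.le
    have f1 := Nat.floor_le n1
    have f2 := Nat.floor_le n2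
    have f3 := (Nat.lt_floor_add_one (((w i).re - a) / δ)).le
    have f4 := (Nat.lt_floor_add_one (((w i).im + T) / δ)).le
    rw [e1] at f1 f3
    rw [e2] at f2 f4
    rw [le_div_iff₀ hδ0] at f1 f2
    rw [div_le_iff₀ hδ0] at f3 f4
    rw [hcre, hcim]
    refine ⟨by linarith, by linarith, by linarith, by linarith⟩
  have hdist : ∀ i ∈ F.filter (fun i => g i = p), ‖w i - c‖ ≤ r / 2 := by
    intro i hi
    obtain ⟨h1, h2, h3, h4⟩ := hclose i hi
    have h5 : ‖w i - c‖ ≤ |(w i - c).re| + |(w i - c).im| := Complex.norm_le_abs_re_add_abs_im _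
    have h6 : |(w i - c).re| ≤ δ := by
      rw [sub_re, abs_le]; constructor <;> linarith
    have h7 : |(w i - c).im| ≤ δ := by
      rw [sub_im, abs_le]; constructor <;> linarith
    linarith
  have hcbox : c.re ≤ b ∧ a ≤ c.re ∧ |c.im| ≤ T := by
    obtain ⟨h1, h2, h3, h4⟩ := hclose i0 hi0
    rw [Finset.mem_filter] at hi0
    obtain ⟨h5, h6, h7⟩ := hw i0 hi0.1
    have h8 := abs_le.1 h7
    refine ⟨by linarith, ?_, ?_⟩
    · rw [hcre]
      have : (0 : ℝ) ≤ δ * p.1 := by positivity
      linarith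
    · rw [abs_le]
      refine ⟨?_, by linarith⟩
      rw [hcim]
      have : (0 : ℝ) ≤ δ * p.2 := by positivity
      linarith
  have hF' : ∀ i ∈ F.filter (fun i => g i = p), Differentiable ℂ (f i) := fun i hi =>
    hf i (Finset.mem_filter.1 hi).1
  have hcont : ∀ i ∈ F.filter (fun i => g i = p),
      Continuous (fun θ : ℝ => ‖f i (circleMap c r θ)‖ ^ 2) := fun i hi =>
    (((hF' i hi).continuous.comp (continuous_circleMap c r)).norm).pow 2
  calc ∑ i ∈ F.filter (fun i => g i = p), ‖f i (w i)‖ ^ 2 ≤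
      ∑ i ∈ F.filter (fun i => g i = p),
        Real.pi⁻¹ * ∫ θ in (0 : ℝ)..(2 * Real.pi), ‖f i (circleMap c r θ)‖ ^ 2 :=
        Finset.sum_le_sum fun i hi => circ_sq (hF' i hi) hr (hdist i hi)
    _ = Real.pi⁻¹ * ∫ θ in (0 : ℝ)..(2 * Real.pi), ∑ i ∈ F.filter (fun i => g i = p),
          ‖f i (circleMap c r θ)‖ ^ 2 := by
        rw [← Finset.mul_sum, intervalIntegral.integral_finset_sum]
        intro i hi
        exact (hcont i hi).intervalIntegrable _ _
    _ ≤ Real.pi⁻¹ * ∫ θ in (0 : ℝ)..(2 * Real.pi), S := by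
        apply mul_le_mul_of_nonneg_left _ (by positivity)
        apply intervalIntegral.integral_mono_on (by positivity)
        · exact (continuous_finset_sum _ hcont).intervalIntegrable _ _
        · exact continuous_const.intervalIntegrable _ _
        · intro θ _
          set s : ℂ := circleMap c r θ with hs
          have hsc : ‖s - c‖ = r := by
            have := circleMap_mem_sphere c hr.le θ
            rwa [mem_sphere, dist_eq_norm] at this
          have h1 : |(s - c).re| ≤ r := (abs_re_le_norm _).trans hsc.le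
          have h2 : |(s - c).im| ≤ r := (abs_im_le_norm _).trans hsc.le
          rw [sub_re] at h1
          rw [sub_im] at h2
          have h3 := abs_le.1 h1
          have h4 := abs_le.1 h2
          have h5 := abs_le.1 hcbox.2.2
          refine le_trans ?_ (hS s (by linarith [hcbox.2.1]) (by linarith [hcbox.1])
            (abs_le.2 ⟨by linarith, by linarith⟩))
          exact Finset.sum_le_sum_of_subset_of_nonneg (Finset.filter_subset _ _)
            fun i _ _ => by positivity
    _ = 2 * S := by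
        rw [intervalIntegral.integral_const, smul_eq_mul]
        field_simp
        ring

end Run7.h837
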