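import Pool.Agent.Helper368_LD.LogDer

/-!
# Approximation of the logarithmic derivative by a short sum over primes

If `L(s, χ)` has no zeros in a box and the sum `∑_{n ≤ y} Λ(n) χ(n) n^{-s}` is under control in
this box, then `L'/L` is close to minus this sum.
-/

set_option autoImplicit false

namespace Run7.h837

open Complex MeasureTheory Set Metric Finset

open scoped ArithmeticFunction

variable {q : ℕ} [NeZero q] {χ : DirichletCharacter ℂ q}

/-- the truncated sum `∑_{n ≤ y} Λ(n) χ(n) n^{-s}` -/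
noncomputable def ZZ {q : ℕ} (χ : DirichletCharacter ℂ q) (y : ℕ) (s : ℂ) : ℂ :=
  ∑ n ∈ Finset.Icc 1 y, χ (n : ZMod q) * (ArithmeticFunction.vonMangoldt n : ℂ) * (n : ℂ) ^ (-s)

/-- the logarithmic derivative in a zero free box -/
theorem box_logder (hχ : χ ≠ 1) {α r T : ℝ} (hα : 1 / 2 ≤ α) (hr : 0 < r)
    (hz : ∀ s : ℂ, α < s.re → |s.im| ≤ T → DirichletCharacter.LFunction χ s ≠ 0) {s : ℂ}
    (h1 : α + r ≤ s.re) (h2 : s.re ≤ 2) (h3 : |s.im| ≤ T - 2) :
    ‖deriv (DirichletCharacter.LFunction χ) s / DirichletCharacter.LFunction χ s‖ ≤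
      16 / r ^ 2 * Real.log (16 * ((q : ℝ) + 1) * (|s.im| + 5)) := by
  have hq : (1 : ℝ) ≤ q := by exact_mod_cast Nat.one_le_iff_ne_zero.2 (NeZero.ne q)
  have him : 0 ≤ |s.im| := abs_nonneg _
  set z0 : ℂ := 2 + s.im * I with hz0
  set f : ℂ → ℂ := fun z => DirichletCharacter.LFunction χ (z0 + z) with hf
  set R : ℝ := 2 - α with hR
  set ρ : ℝ := 2 - α - r with hρ
  set M : ℝ := 16 * ((q : ℝ) + 1) * (|s.im| + 5) with hM
  have hM1 : 1 < M := by rw [hM]; nlinarith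
  have hf0 : 1 / 4 ≤ ‖f 0‖ := by
    simp only [hf, add_zero]
    exact Pool.Agent.Helper368_LD.L_lower_two χ (by simp [hz0])
  have hre : ∀ z ∈ ball (0 : ℂ) R, α < (z0 + z).re ∧ ‖z0 + z‖ ≤ |s.im| + 5 ∧
      |(z0 + z).im| ≤ T := by
    intro z hz
    rw [mem_ball_zero_iff] at hz
    refine ⟨?_, ?_, ?_⟩
    · have : |z.re| ≤ ‖z‖ := abs_re_le_norm z
      have := (abs_le.1 this).1
      simp [hz0]
      linarith
    · calc ‖z0 + z‖ ≤ ‖z0‖ + ‖z‖ := norm_add_le _ _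
        _ ≤ (2 + |s.im|) + 3 / 2 := by
          gcongr
          · calc ‖z0‖ ≤ ‖(2 : ℂ)‖ + ‖(s.im : ℂ) * I‖ := norm_add_le _ _
              _ = 2 + |s.im| := by simp
          · linarith
        _ ≤ _ := by linarith
    · have h5 : |z.im| ≤ ‖z‖ := abs_im_le_norm z
      have h6 : (z0 + z).im = s.im + z.im := by simp [hz0]
      rw [h6]
      calc |s.im + z.im| ≤ |s.im| + |z.im| := abs_add_le _ _
        _ ≤ T := by linarith
  have hdiffL : Differentiable ℂ (DirichletCharacter.LFunction χ) :=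
    DirichletCharacter.differentiable_LFunction hχ
  have hdiff : DifferentiableOn ℂ f (ball 0 R) := by
    intro z _
    exact (hdiffL.comp (differentiable_const z0 |>.add
      differentiable_id)).differentiableAt.differentiableWithinAt
  have hnv : ∀ z ∈ ball (0 : ℂ) R, f z ≠ 0 := fun z hz' => hz _ (hre z hz').1 (hre z hz').2.2
  have hbd : ∀ z ∈ ball (0 : ℂ) R, ‖f z‖ ≤ M * ‖f 0‖ := by
    intro z hz'
    obtain ⟨h3, h4, -⟩ := hre z hz'
    have h5 := Pool.Agent.Helper368_LD.L_growth hχ (s := z0 + z) (by linarith)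
    have h6 : ((q : ℝ) + 1) / (z0 + z).re ≤ 4 * ((q : ℝ) + 1) := by
      rw [div_le_iff₀ (by linarith)]
      nlinarith
    calc ‖f z‖ ≤ ‖z0 + z‖ * (((q : ℝ) + 1) / (z0 + z).re) := h5
      _ ≤ (|s.im| + 5) * (4 * ((q : ℝ) + 1)) := mul_le_mul h4 h6 (by
          apply div_nonneg <;> linarith) (by linarith)
      _ = M * (1 / 4) := by rw [hM]; ring
      _ ≤ M * ‖f 0‖ := mul_le_mul_of_nonneg_left hf0 (by linarith)
  have hzs : ‖((s.re - 2 : ℝ) : ℂ)‖ ≤ ρ := by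
    rw [norm_real, Real.norm_eq_abs, abs_le]
    constructor <;> linarith
  have hρ0 : 0 ≤ ρ := (norm_nonneg _).trans hzs
  have key := Pool.Agent.Helper368_LD.logder_disc hM1 hρ0 (by rw [hρ, hR]; linarith)
    hdiff hnv hbd hzs
  have hpt : z0 + ((s.re - 2 : ℝ) : ℂ) = s := by
    apply Complex.ext <;> simp [hz0]
  have hd : deriv f ((s.re - 2 : ℝ) : ℂ) = deriv (DirichletCharacter.LFunction χ) s := by
    simp only [hf]
    rw [deriv_comp_const_add, hpt]
  have hfv : f ((s.re - 2 : ℝ) : ℂ) = DirichletCharacter.LFunction χ s := by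
    simp only [hf]; rw [hpt]
  rw [hd, hfv] at key
  refine key.trans ?_
  have hRρ : R - ρ = r := by rw [hR, hρ]; ring
  rw [hRρ]
  have hlog : 0 < Real.log M := Real.log_pos hM1
  rw [div_mul_eq_mul_div]
  gcongr
  linarith

/-- the tail of the Dirichlet series of `L'/L` on the line `Re s = 2` -/
theorem tail_two : ∃ C : ℝ, 0 < C ∧ ∀ (q : ℕ) [NeZero q] (χ : DirichletCharacter ℂ q) (y : ℕ)
    (s : ℂ), s.re = 2 → 1 ≤ y →
    ‖deriv (DirichletCharacter.LFunction χ) s / DirichletCharacter.LFunction χ s + ZZ χ y s‖ ≤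
      C * (y : ℝ) ^ (-(1 / 4) : ℝ) := by
  have hsumm : Summable (fun n : ℕ => 1 / (n : ℝ) ^ (5 / 4 : ℝ)) :=
    Real.summable_one_div_nat_rpow.2 (by norm_num)
  set K : ℝ := ∑' n : ℕ, 1 / (n : ℝ) ^ (5 / 4 : ℝ) with hK
  have hK0 : 0 ≤ K := tsum_nonneg fun n => by positivity
  refine ⟨2 * K + 1, by positivity, ?_⟩
  intro q _ χ y s hs hy
  have hs1 : 1 < s.re := by linarith
  have hS := DirichletCharacter.LSeriesSummable_twist_vonMangoldt χ hs1
  have hE := DirichletCharacter.LSeries_twist_vonMangoldt_eq χ hs1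
  have hd : deriv (DirichletCharacter.LFunction χ) s = deriv (LSeries (fun n : ℕ => χ (n : ZMod q))) s := by
    apply Filter.EventuallyEq.deriv_eq
    have hopen : IsOpen {s : ℂ | 1 < s.re} := isOpen_lt continuous_const continuous_re
    filter_upwards [hopen.mem_nhds hs1] with z hz
    exact DirichletCharacter.LFunction_eq_LSeries χ hz
  rw [hd, DirichletCharacter.LFunction_eq_LSeries χ hs1]
  have hE2 : deriv (LSeries (fun n : ℕ => χ (n : ZMod q))) s / LSeries (fun n : ℕ => χ (n : ZMod q)) s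
      = - LSeries (fun n : ℕ => χ (n : ZMod q) * (ArithmeticFunction.vonMangoldt n : ℂ)) s := by
    have : LSeries (fun n : ℕ => χ (n : ZMod q) * (ArithmeticFunction.vonMangoldt n : ℂ)) s =
        - deriv (LSeries (fun n : ℕ => χ (n : ZMod q))) s / LSeries (fun n : ℕ => χ (n : ZMod q)) s :=
      hE
    rw [this]; ring
  rw [hE2]
  set g : ℕ → ℂ := fun n => LSeries.term (fun n : ℕ => χ (n : ZMod q) * (ArithmeticFunction.vonMangoldt n : ℂ)) s n
    with hg
  have hgs : Summable g := hS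
  have hZ : ZZ χ y s = ∑ n ∈ Finset.range (y + 1), g n := by
    unfold ZZ
    rw [Finset.range_eq_Ico, Finset.sum_eq_sum_Ico_succ_bot (by omega)]
    have h0 : g 0 = 0 := by simp [hg]
    rw [h0, zero_add]
    have : Finset.Ico (0 + 1) (y + 1) = Finset.Icc 1 y := by
      ext n; simp only [Finset.mem_Ico, Finset.mem_Icc]; omega
    rw [this]
    refine Finset.sum_congr rfl fun n hn => ?_
    rw [Finset.mem_Icc] at hn
    rw [hg]
    simp only
    rw [LSeries.term_of_ne_zero (by omega), Complex.cpow_neg, div_eq_mul_inv]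
  have hsplit := hgs.sum_add_tsum_nat_add (y + 1)
  have hL : LSeries (fun n : ℕ => χ (n : ZMod q) * (ArithmeticFunction.vonMangoldt n : ℂ)) s = ∑' n, g n := rfl
  rw [hL, hZ, ← hsplit]
  have e : -(∑ i ∈ Finset.range (y + 1), g i + ∑' i, g (i + (y + 1))) + ∑ n ∈ Finset.range (y + 1), g n =
      - ∑' i, g (i + (y + 1)) := by ring
  rw [e, norm_neg]
  have hy0 : (0 : ℝ) < y := by exact_mod_cast hy
  have hbd : ∀ n : ℕ, ‖g (n + (y + 1))‖ ≤ 2 * (y : ℝ) ^ (-(1 / 4) : ℝ) *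
      (1 / ((n + (y + 1) : ℕ) : ℝ) ^ (5 / 4 : ℝ)) := by
    intro n
    set m : ℕ := n + (y + 1) with hm
    have hm0 : m ≠ 0 := by omega
    have hmp : (0 : ℝ) < m := by exact_mod_cast Nat.pos_of_ne_zero hm0
    have hym : (y : ℝ) ≤ m := by exact_mod_cast (by omega : y ≤ m)
    rw [hg]
    simp only
    rw [LSeries.term_of_ne_zero hm0, norm_div, norm_natCast_cpow_of_pos (Nat.pos_of_ne_zero hm0), hs,
      norm_mul]
    have h5 : ‖χ (m : ZMod q)‖ ≤ 1 := DirichletCharacter.norm_le_one _ _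
    have h6 : ‖((ArithmeticFunction.vonMangoldt m : ℝ) : ℂ)‖ ≤ 2 * (m : ℝ) ^ (1 / 2 : ℝ) := by
      rw [norm_real, Real.norm_eq_abs, abs_of_nonneg ArithmeticFunction.vonMangoldt_nonneg]
      refine ArithmeticFunction.vonMangoldt_le_log.trans ?_
      have := Real.log_le_rpow_div hmp.le (ε := 1 / 2) (by norm_num)
      linarith
    have h7 : (m : ℝ) ^ (-(1 / 4) : ℝ) ≤ (y : ℝ) ^ (-(1 / 4) : ℝ) :=
      Real.rpow_le_rpow_of_nonpos hy0 hym (by norm_num)
    have h8 : (m : ℝ) ^ (1 / 2 : ℝ) / (m : ℝ) ^ (2 : ℝ) =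
        (m : ℝ) ^ (-(1 / 4) : ℝ) * (1 / (m : ℝ) ^ (5 / 4 : ℝ)) := by
      have e1 : (1 : ℝ) / (m : ℝ) ^ (5 / 4 : ℝ) = (m : ℝ) ^ (-(5 / 4) : ℝ) := by
        rw [Real.rpow_neg hmp.le, one_div]
      rw [e1, ← Real.rpow_add hmp, ← Real.rpow_sub hmp]
      norm_num
    have h9 : 0 < (m : ℝ) ^ (2 : ℝ) := by positivity
    calc ‖χ (m : ZMod q)‖ * ‖((ArithmeticFunction.vonMangoldt m : ℝ) : ℂ)‖ / (m : ℝ) ^ (2 : ℝ)
        ≤ 1 * (2 * (m : ℝ) ^ (1 / 2 : ℝ)) / (m : ℝ) ^ (2 : ℝ) := by gcongr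
      _ = 2 * ((m : ℝ) ^ (1 / 2 : ℝ) / (m : ℝ) ^ (2 : ℝ)) := by ring
      _ = 2 * ((m : ℝ) ^ (-(1 / 4) : ℝ) * (1 / (m : ℝ) ^ (5 / 4 : ℝ))) := by rw [h8]
      _ ≤ 2 * ((y : ℝ) ^ (-(1 / 4) : ℝ) * (1 / (m : ℝ) ^ (5 / 4 : ℝ))) := by gcongr
      _ = _ := by ring
  have hs2 : Summable (fun n : ℕ => 1 / ((n + (y + 1) : ℕ) : ℝ) ^ (5 / 4 : ℝ)) :=
    (summable_nat_add_iff (f := fun n : ℕ => 1 / (n : ℝ) ^ (5 / 4 : ℝ)) (y + 1)).2 hsumm
  have h10 : ‖∑' i, g (i + (y + 1))‖ ≤ ∑' n : ℕ, 2 * (y : ℝ) ^ (-(1 / 4) : ℝ) *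
      (1 / ((n + (y + 1) : ℕ) : ℝ) ^ (5 / 4 : ℝ)) :=
    tsum_of_norm_bounded (hs2.mul_left _).hasSum hbd
  refine h10.trans ?_
  rw [tsum_mul_left]
  have h11 : ∑' n : ℕ, 1 / ((n + (y + 1) : ℕ) : ℝ) ^ (5 / 4 : ℝ) ≤ K := by
    have := hsumm.sum_add_tsum_nat_add (y + 1)
    have h12 : 0 ≤ ∑ i ∈ Finset.range (y + 1), 1 / (i : ℝ) ^ (5 / 4 : ℝ) :=
      Finset.sum_nonneg fun i _ => by positivity
    rw [hK]
    linarith
  have h12 : 0 ≤ (y : ℝ) ^ (-(1 / 4) : ℝ) := by positivity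
  nlinarith [mul_le_mul_of_nonneg_left h11 h12]

lemma differentiable_ZZ {q : ℕ} (χ : DirichletCharacter ℂ q) (y : ℕ) :
    Differentiable ℂ (ZZ χ y) := by
  unfold ZZ
  intro s
  apply DifferentiableAt.fun_sum
  intro n hn
  rw [Finset.mem_Icc] at hn
  apply DifferentiableAt.mul (differentiableAt_const _)
  have hn0 : (n : ℂ) ≠ 0 := by exact_mod_cast (by omega : n ≠ 0)
  exact (differentiableAt_id.neg).const_cpow (Or.inl hn0)

/-- the maximum principle in the box -/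
theorem box_max (hχ : χ ≠ 1) {α r T R K B D σ : ℝ} {y : ℕ} (hα : 1 / 2 ≤ α) (hr : 0 < r)
    (hR : 1 ≤ R) (hK : 0 ≤ K) (hT : 3 ≤ T)
    (hz : ∀ s : ℂ, α < s.re → |s.im| ≤ T → DirichletCharacter.LFunction χ s ≠ 0)
    (h1 : ∀ s : ℂ, α + r ≤ s.re → s.re ≤ 2 → |s.im| ≤ T - 2 → ‖ZZ χ y s‖ ≤ K)
    (hB : 16 / r ^ 2 * Real.log (16 * ((q : ℝ) + 1) * (T + 5)) ≤ B) (hD : 0 ≤ D)
    (h2 : ∀ s : ℂ, s.re = 2 →
      ‖deriv (DirichletCharacter.LFunction χ) s / DirichletCharacter.LFunction χ s + ZZ χ y s‖ ≤ D)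
    (hσ : α + 2 * r ≤ σ) (hσ1 : σ ≤ 1) :
    ‖deriv (DirichletCharacter.LFunction χ) (σ : ℂ) / DirichletCharacter.LFunction χ (σ : ℂ) +
      ZZ χ y (σ : ℂ)‖ ≤ Real.exp 1 * (B + K) * R ^ (-r) + Real.exp 4 * R ^ (2 : ℝ) * D +
        Real.exp (4 - (T - 2) ^ 2) * R ^ (2 : ℝ) * (B + K) := by
  have hq : (1 : ℝ) ≤ q := by exact_mod_cast Nat.one_le_iff_ne_zero.2 (NeZero.ne q)
  have hR0 : 0 < R := by linarith
  have hdiffL : Differentiable ℂ (DirichletCharacter.LFunction χ) :=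
    DirichletCharacter.differentiable_LFunction hχ
  set h : ℂ → ℂ := fun s => deriv (DirichletCharacter.LFunction χ) s /
    DirichletCharacter.LFunction χ s + ZZ χ y s with hh
  set Φ : ℂ → ℂ := fun s => h s * (Complex.exp ((s - σ) ^ 2) * (R : ℂ) ^ (s - σ)) with hΦ
  set U : Set ℂ := (Ioo (α + r) 2) ×ℂ (Ioo (-(T - 2)) (T - 2)) with hU
  have hB0 : 0 ≤ B := by
    refine le_trans ?_ hB
    have : 0 ≤ Real.log (16 * ((q : ℝ) + 1) * (T + 5)) := Real.log_nonneg (by nlinarith)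
    positivity
  have hBK : 0 ≤ B + K := by linarith
  have hlt : α + r < 2 := by linarith
  have hTT : -(T - 2) < T - 2 := by linarith
  have hUb : Bornology.IsBounded U :=
    (isBounded_Ioo _ _).reProdIm (isBounded_Ioo _ _)
  have hcl : closure U = (Icc (α + r) 2) ×ℂ (Icc (-(T - 2)) (T - 2)) := by
    rw [hU, closure_reProdIm, closure_Ioo hlt.ne, closure_Ioo hTT.ne]
  have hhb : ∀ s ∈ closure U, ‖h s‖ ≤ B + K := by
    intro s hs
    rw [hcl, mem_reProdIm] at hs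
    obtain ⟨⟨ha, hb⟩, hc⟩ := hs
    have him : |s.im| ≤ T - 2 := abs_le.2 ⟨hc.1, hc.2⟩
    refine (norm_add_le _ _).trans (add_le_add ?_ (h1 s ha hb him))
    refine (box_logder hχ hα hr hz ha hb him).trans (le_trans ?_ hB)
    have him0 : 0 ≤ |s.im| := abs_nonneg _
    gcongr
    linarith
  have hdh : DifferentiableOn ℂ h (closure U) := by
    intro s hs
    rw [hcl, mem_reProdIm] at hs
    obtain ⟨⟨ha, hb⟩, hc⟩ := hs
    have him : |s.im| ≤ T := (abs_le.2 ⟨hc.1, hc.2⟩).trans (by linarith)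
    have hne := hz s (by linarith) him
    have hd1 : DifferentiableAt ℂ (deriv (DirichletCharacter.LFunction χ)) s :=
      ((hdiffL.differentiableOn (s := Set.univ)).deriv isOpen_univ).differentiableAt
        Filter.univ_mem
    exact ((hd1.div (hdiffL s) hne).add (differentiable_ZZ χ y s)).differentiableWithinAt
  have hRne : (R : ℂ) ≠ 0 := by exact_mod_cast hR0.ne'
  have hdΦ : DifferentiableOn ℂ Φ (closure U) := by
    apply hdh.mul
    apply Differentiable.differentiableOn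
    intro s
    apply DifferentiableAt.mul
    · exact ((differentiableAt_id.sub_const _).pow 2).cexp
    · exact (differentiableAt_id.sub_const _).const_cpow (Or.inl hRne)
  have hnorm : ∀ s : ℂ, ‖Φ s‖ = ‖h s‖ * (Real.exp ((s.re - σ) ^ 2 - s.im ^ 2) *
      R ^ (s.re - σ)) := by
    intro s
    rw [hΦ]
    simp only
    rw [norm_mul, norm_mul, Complex.norm_exp, Complex.norm_cpow_eq_rpow_re_of_pos hR0]
    congr 3
    simp [pow_two, Complex.mul_re]
  set A1 : ℝ := Real.exp 1 * (B + K) * R ^ (-r) with hA1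
  set A2 : ℝ := Real.exp 4 * R ^ (2 : ℝ) * D with hA2
  set A3 : ℝ := Real.exp (4 - (T - 2) ^ 2) * R ^ (2 : ℝ) * (B + K) with hA3
  have hA1' : 0 ≤ A1 := by positivity
  have hA2' : 0 ≤ A2 := by positivity
  have hA3' : 0 ≤ A3 := by positivity
  have hfr : ∀ s ∈ frontier U, ‖Φ s‖ ≤ A1 + A2 + A3 := by
    intro s hs
    have hscl : s ∈ closure U := frontier_subset_closure hs
    have hb1 := hhb s hscl
    rw [hU, frontier_reProdIm, frontier_Ioo hlt, frontier_Ioo hTT, closure_Ioo hlt.ne,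
      closure_Ioo hTT.ne] at hs
    rw [hnorm]
    have hh0 : 0 ≤ ‖h s‖ := norm_nonneg _
    rcases hs with hs | hs
    · -- horizontal sides
      rw [mem_reProdIm] at hs
      obtain ⟨⟨ha, hb⟩, hc⟩ := hs
      have him : s.im ^ 2 = (T - 2) ^ 2 := by
        rcases hc with hc | hc
        · rw [hc]; ring
        · rw [Set.mem_singleton_iff] at hc; rw [hc]
      have e1 : Real.exp ((s.re - σ) ^ 2 - s.im ^ 2) ≤ Real.exp (4 - (T - 2) ^ 2) := by
        apply Real.exp_le_exp.2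
        rw [him]
        nlinarith
      have e2 : R ^ (s.re - σ) ≤ R ^ (2 : ℝ) :=
        Real.rpow_le_rpow_of_exponent_le hR (by linarith)
      calc ‖h s‖ * (Real.exp ((s.re - σ) ^ 2 - s.im ^ 2) * R ^ (s.re - σ)) ≤
          (B + K) * (Real.exp (4 - (T - 2) ^ 2) * R ^ (2 : ℝ)) := by gcongr
        _ = A3 := by rw [hA3]; ring
        _ ≤ _ := by linarith
    · rw [mem_reProdIm] at hs
      obtain ⟨hc, ⟨ha, hb⟩⟩ := hs
      rcases hc with hc | hc
      · have e1 : Real.exp ((s.re - σ) ^ 2 - s.im ^ 2) ≤ Real.exp 1 := by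
          apply Real.exp_le_exp.2
          rw [hc]
          nlinarith [sq_nonneg s.im]
        have e2 : R ^ (s.re - σ) ≤ R ^ (-r) :=
          Real.rpow_le_rpow_of_exponent_le hR (by rw [hc]; linarith)
        calc ‖h s‖ * (Real.exp ((s.re - σ) ^ 2 - s.im ^ 2) * R ^ (s.re - σ)) ≤
            (B + K) * (Real.exp 1 * R ^ (-r)) := by gcongr
          _ = A1 := by rw [hA1]; ring
          _ ≤ _ := by linarith
      · rw [Set.mem_singleton_iff] at hc
        have e1 : Real.exp ((s.re - σ) ^ 2 - s.im ^ 2) ≤ Real.exp 4 := by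
          apply Real.exp_le_exp.2
          rw [hc]
          nlinarith [sq_nonneg s.im]
        have e2 : R ^ (s.re - σ) ≤ R ^ (2 : ℝ) :=
          Real.rpow_le_rpow_of_exponent_le hR (by rw [hc]; linarith)
        have e3 : ‖h s‖ ≤ D := h2 s hc
        calc ‖h s‖ * (Real.exp ((s.re - σ) ^ 2 - s.im ^ 2) * R ^ (s.re - σ)) ≤
            D * (Real.exp 4 * R ^ (2 : ℝ)) := by gcongr
          _ = A2 := by rw [hA2]; ring
          _ ≤ _ := by linarith
  have hmem : (σ : ℂ) ∈ closure U := by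
    rw [hcl, mem_reProdIm]
    simp only [ofReal_re, ofReal_im, Set.mem_Icc]
    refine ⟨⟨by linarith, by linarith⟩, by linarith, by linarith⟩
  have key := Complex.norm_le_of_forall_mem_frontier_norm_le hUb hdΦ.diffContOnCl hfr hmem
  rw [hnorm] at key
  simpa using key

end Run7.h837
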