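import Mathlib

/-!
# Bounds for the number of divisors
-/

set_option autoImplicit false

namespace Run7.h837

open Finset

/-- explicit divisor bound -/
theorem card_div_le {δ : ℝ} (hδ : 0 < δ) (hδ1 : δ ≤ 1) {n : ℕ} (hn : n ≠ 0) :
    (n.divisors.card : ℝ) ≤ (2 / δ) ^ (⌈(2 : ℝ) ^ (1 / δ)⌉₊) * (n : ℝ) ^ δ := by
  set P : ℕ := ⌈(2 : ℝ) ^ (1 / δ)⌉₊ with hP
  have h2δ : 1 ≤ 2 / δ := by rw [le_div_iff₀ hδ]; linarith
  rw [Nat.card_divisors hn]
  have hnn : (n : ℝ) ^ δ = ∏ p ∈ n.primeFactors, ((p : ℝ) ^ (n.factorization p)) ^ δ := by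
    rw [Real.finsetProd_rpow _ _ (fun p _ => by positivity)]
    congr 1
    conv_lhs => rw [← Nat.prod_factorization_pow_eq_self hn]
    rw [Finsupp.prod, Nat.support_factorization]
    push_cast
    rfl
  rw [hnn]
  have hC : (2 / δ) ^ P ≥ ∏ p ∈ n.primeFactors, (if p < P then 2 / δ else 1) := by
    rw [Finset.prod_ite, Finset.prod_const, Finset.prod_const_one, mul_one]
    apply pow_le_pow_right₀ h2δ
    calc (n.primeFactors.filter (fun p => p < P)).card ≤ (Finset.range P).card := by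
          apply Finset.card_le_card
          intro p hp
          rw [Finset.mem_filter] at hp
          exact Finset.mem_range.2 hp.2
      _ = P := Finset.card_range P
  refine le_trans ?_ (mul_le_mul_of_nonneg_right hC (Finset.prod_nonneg fun p _ => by positivity))
  rw [← Finset.prod_mul_distrib]
  push_cast
  apply Finset.prod_le_prod
  · intro p _; positivity
  intro p hp
  have hpp : p.Prime := Nat.prime_of_mem_primeFactors hp
  set v : ℕ := n.factorization p with hv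
  have hp2 : (2 : ℝ) ≤ p := by exact_mod_cast hpp.two_le
  have hp0 : (0 : ℝ) < p := by linarith
  have e1 : ((p : ℝ) ^ v) ^ δ = (p : ℝ) ^ ((v : ℝ) * δ) := by
    rw [← Real.rpow_natCast, ← Real.rpow_mul hp0.le]
  rw [e1]
  split_ifs with hlt
  · have h1 : (2 : ℝ) ^ ((v : ℝ) * δ) ≤ (p : ℝ) ^ ((v : ℝ) * δ) :=
      Real.rpow_le_rpow (by norm_num) hp2 (by positivity)
    have h2 : 1 + (v : ℝ) * δ / 2 ≤ (2 : ℝ) ^ ((v : ℝ) * δ) := by
      rw [Real.rpow_def_of_pos (by norm_num)]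
      have h3 := Real.add_one_le_exp (Real.log 2 * ((v : ℝ) * δ))
      have h4 : (1 / 2 : ℝ) ≤ Real.log 2 := by linarith [Real.log_two_gt_d9]
      have h5 : (0 : ℝ) ≤ (v : ℝ) * δ := by positivity
      nlinarith
    have h6 : (v : ℝ) + 1 ≤ 2 / δ * (1 + (v : ℝ) * δ / 2) := by
      have : 2 / δ * (1 + (v : ℝ) * δ / 2) = 2 / δ + v := by field_simp
      rw [this]; linarith
    have h7 : (0 : ℝ) ≤ 2 / δ := by positivity
    calc (v : ℝ) + 1 ≤ 2 / δ * (1 + (v : ℝ) * δ / 2) := h6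
      _ ≤ 2 / δ * (p : ℝ) ^ ((v : ℝ) * δ) := mul_le_mul_of_nonneg_left (h2.trans h1) h7
  · rw [one_mul]
    have h1 : (2 : ℝ) ^ (1 / δ) ≤ p := (Nat.le_ceil _).trans (by exact_mod_cast not_lt.1 hlt)
    have h2 : (2 : ℝ) ≤ (p : ℝ) ^ δ := by
      have := Real.rpow_le_rpow (by positivity) h1 hδ.le
      rwa [← Real.rpow_mul (by norm_num), one_div_mul_cancel hδ.ne', Real.rpow_one] at this
    have h3 : (v : ℝ) + 1 ≤ 2 ^ v := by
      have : v + 1 ≤ 2 ^ v := Nat.lt_two_pow_self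
      exact_mod_cast this
    calc (v : ℝ) + 1 ≤ 2 ^ v := h3
      _ ≤ ((p : ℝ) ^ δ) ^ v := pow_le_pow_left₀ (by norm_num) h2 v
      _ = (p : ℝ) ^ ((v : ℝ) * δ) := by
        rw [← Real.rpow_natCast, ← Real.rpow_mul hp0.le, mul_comm]

/-- the usual divisor bound -/
theorem div_bound {δ : ℝ} (hδ : 0 < δ) : ∃ C : ℝ, 1 ≤ C ∧ ∀ n : ℕ, n ≠ 0 →
    (n.divisors.card : ℝ) ≤ C * (n : ℝ) ^ δ := by
  set e : ℝ := min δ 1 with he
  have he0 : 0 < e := lt_min hδ one_pos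
  have he1 : e ≤ 1 := min_le_right _ _
  refine ⟨(2 / e) ^ (⌈(2 : ℝ) ^ (1 / e)⌉₊), ?_, fun n hn => ?_⟩
  · apply one_le_pow₀
    rw [le_div_iff₀ he0]; linarith
  · refine (card_div_le he0 he1 hn).trans ?_
    have hn1 : (1 : ℝ) ≤ n := by exact_mod_cast Nat.one_le_iff_ne_zero.2 hn
    have h2 : 0 < 2 / e := by positivity
    apply mul_le_mul_of_nonneg_left _ (by positivity)
    exact Real.rpow_le_rpow_of_exponent_le hn1 (min_le_left _ _)

/-- divisor bound for numbers of size `exp (c L log L)` -/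
theorem div_loglog {ε : ℝ} (hε : 0 < ε) : ∃ L0 : ℝ, 1 ≤ L0 ∧ ∀ L : ℝ, L0 ≤ L → ∀ m : ℕ, m ≠ 0 →
    Real.log m ≤ ε / 4 * (L * Real.log L) → (m.divisors.card : ℝ) ≤ Real.exp (ε * L) := by
  refine ⟨max 4 ((32 / ε) ^ 4), (by norm_num : (1 : ℝ) ≤ 4).trans (le_max_left _ _), ?_⟩
  intro L hL m hm hlog
  have hL4 : 4 ≤ L := (le_max_left _ _).trans hL
  have hLε : (32 / ε) ^ 4 ≤ L := (le_max_right _ _).trans hL
  have hL0 : 0 < L := by linarith
  have hlog2 : (1 / 2 : ℝ) ≤ Real.log 2 := by linarith [Real.log_two_gt_d9]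
  have hlog2' : Real.log 2 < 1 := by linarith [Real.log_two_lt_d9]
  have hlogL : 2 * Real.log 2 ≤ Real.log L := by
    have : Real.log 4 ≤ Real.log L := Real.log_le_log (by norm_num) hL4
    have e : Real.log 4 = 2 * Real.log 2 := by
      rw [show (4 : ℝ) = 2 ^ 2 by norm_num, Real.log_pow]; norm_num
    linarith
  have hlogL0 : 0 < Real.log L := by linarith
  set δ : ℝ := 2 * Real.log 2 / Real.log L with hδ
  have hδ0 : 0 < δ := by positivity
  have hδ1 : δ ≤ 1 := by rw [hδ, div_le_one hlogL0]; exact hlogL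
  refine (card_div_le hδ0 hδ1 hm).trans ?_
  have hm1 : (1 : ℝ) ≤ m := by exact_mod_cast Nat.one_le_iff_ne_zero.2 hm
  -- the power of two
  have h2 : (2 : ℝ) ^ (1 / δ) = √L := by
    rw [Real.rpow_def_of_pos (by norm_num), Real.sqrt_eq_rpow, Real.rpow_def_of_pos hL0]
    congr 1
    rw [hδ]
    field_simp
  have hsq1 : 1 ≤ √L := by
    rw [Real.one_le_sqrt]; linarith
  have hceil : ((⌈(2 : ℝ) ^ (1 / δ)⌉₊ : ℕ) : ℝ) ≤ 2 * √L := by
    rw [h2]
    have := (Nat.ceil_lt_add_one (Real.sqrt_nonneg L)).le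
    linarith
  have h2δ : 2 / δ ≤ 8 * L ^ (1 / 4 : ℝ) := by
    have h3 := Real.log_le_rpow_div hL0.le (ε := 1 / 4) (by norm_num)
    have h4 : 2 / δ = Real.log L / Real.log 2 := by
      rw [hδ]; field_simp
    rw [h4, div_le_iff₀ (by linarith)]
    have h5 : (0 : ℝ) ≤ L ^ (1 / 4 : ℝ) := by positivity
    nlinarith
  have h2δ0 : 0 < 2 / δ := by positivity
  have hA : (2 / δ) ^ (⌈(2 : ℝ) ^ (1 / δ)⌉₊) ≤ Real.exp (ε / 2 * L) := by
    have e1 : (2 / δ) ^ (⌈(2 : ℝ) ^ (1 / δ)⌉₊) =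
        Real.exp (Real.log (2 / δ) * ((⌈(2 : ℝ) ^ (1 / δ)⌉₊ : ℕ) : ℝ)) := by
      rw [← Real.rpow_natCast, Real.rpow_def_of_pos h2δ0]
    rw [e1]
    apply Real.exp_le_exp.2
    have h6 : Real.log (2 / δ) ≤ 8 * L ^ (1 / 4 : ℝ) :=
      (Real.log_le_self h2δ0.le).trans h2δ
    have h7 : Real.log (2 / δ) * ((⌈(2 : ℝ) ^ (1 / δ)⌉₊ : ℕ) : ℝ) ≤
        8 * L ^ (1 / 4 : ℝ) * (2 * √L) :=
      mul_le_mul h6 hceil (by positivity) (by positivity)
    refine h7.trans ?_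
    have h8 : 32 / ε ≤ L ^ (1 / 4 : ℝ) := by
      have := Real.rpow_le_rpow (by positivity) hLε (by norm_num : (0 : ℝ) ≤ 1 / 4)
      rw [← Real.rpow_natCast, ← Real.rpow_mul (by positivity)] at this
      simpa using this
    rw [div_le_iff₀ hε] at h8
    have h9 : L = L ^ (1 / 4 : ℝ) * (L ^ (1 / 4 : ℝ) * √L) := by
      rw [Real.sqrt_eq_rpow, ← Real.rpow_add hL0, ← Real.rpow_add hL0]
      norm_num
    have h10 : (0 : ℝ) ≤ L ^ (1 / 4 : ℝ) * √L := by positivity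
    calc 8 * L ^ (1 / 4 : ℝ) * (2 * √L) = 1 / 2 * (32 * (L ^ (1 / 4 : ℝ) * √L)) := by ring
      _ ≤ 1 / 2 * ((L ^ (1 / 4 : ℝ) * ε) * (L ^ (1 / 4 : ℝ) * √L)) := by gcongr
      _ = ε / 2 * (L ^ (1 / 4 : ℝ) * (L ^ (1 / 4 : ℝ) * √L)) := by ring
      _ = ε / 2 * L := by rw [← h9]
  have hB : (m : ℝ) ^ δ ≤ Real.exp (ε / 2 * L) := by
    rw [Real.rpow_def_of_pos (by linarith)]
    apply Real.exp_le_exp.2
    calc Real.log m * δ ≤ (ε / 4 * (L * Real.log L)) * δ := by gcongr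
      _ = ε / 2 * L * Real.log 2 := by
        rw [hδ]; field_simp; ring
      _ ≤ ε / 2 * L * 1 := by gcongr
      _ = _ := by ring
  calc (2 / δ) ^ (⌈(2 : ℝ) ^ (1 / δ)⌉₊) * (m : ℝ) ^ δ ≤
      Real.exp (ε / 2 * L) * Real.exp (ε / 2 * L) := by gcongr
    _ = Real.exp (ε * L) := by rw [← Real.exp_add]; ring_nf

end Run7.h837
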