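import Pool.Agent.Run7.h837.Blk

/-!
# Choice of the parameters for the blocks
-/

set_option autoImplicit false

namespace Run7.h837

open Finset Filter

lemma poly_exp (K A : ℝ) {δ : ℝ} (hδ : 0 < δ) : ∃ L1 : ℝ, 1 ≤ L1 ∧ ∀ L : ℝ, L1 ≤ L →
    K * L ^ A ≤ Real.exp (δ * L) := by
  have h1 := isLittleO_rpow_exp_pos_mul_atTop A hδ
  have h2 := h1.bound (c := 1 / (|K| + 1)) (by positivity)
  rw [eventually_atTop] at h2
  obtain ⟨L2, hL2⟩ := h2
  refine ⟨max 1 L2, le_max_left _ _, fun L hL => ?_⟩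
  have h3 := hL2 L ((le_max_right _ _).trans hL)
  have hL1 : 1 ≤ L := (le_max_left _ _).trans hL
  rw [Real.norm_eq_abs, Real.norm_eq_abs, abs_of_nonneg (by positivity),
    abs_of_nonneg (Real.exp_pos _).le] at h3
  have h4 : K * L ^ A ≤ (|K| + 1) * L ^ A := by
    apply mul_le_mul_of_nonneg_right _ (by positivity)
    linarith [le_abs_self K]
  refine h4.trans ?_
  calc (|K| + 1) * L ^ A ≤ (|K| + 1) * (1 / (|K| + 1) * Real.exp (δ * L)) := by gcongr
    _ = Real.exp (δ * L) := by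
      have : |K| + 1 ≠ 0 := by positivity
      field_simp

/-- the exponent of the second term -/
lemma exp_le {a x : ℝ} (ha : 1 / 2 < a) (ha1 : a < 1) (hx0 : 0 < x) (hx : x ≤ 1 / 2) :
    (2 * a - 1) * (2 * (1 - a) * Real.log 2 + x * (2 * a - 1) * Real.log 2) ≤
      (2 * (1 - a) + 3 * x) * ((2 * a - 1) * Real.log 2 - x * (2 * a - 1) * Real.log 2) := by
  have hl : 0 < Real.log 2 := Real.log_pos (by norm_num)
  have h1 : (2 * (1 - a) + (2 * a - 1) * x) ≤ (2 * (1 - a) + 3 * x) * (1 - x) := by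
    have e : (2 * (1 - a) + 3 * x) * (1 - x) - (2 * (1 - a) + (2 * a - 1) * x) =
        x * (3 - 2 * (1 - a) - (2 * a - 1) - 3 * x) := by ring
    have : 0 ≤ x * (3 - 2 * (1 - a) - (2 * a - 1) - 3 * x) := by
      apply mul_nonneg hx0.le
      linarith
    linarith
  have h2 : 0 < (2 * a - 1) * Real.log 2 := by
    apply mul_pos _ hl
    linarith
  have h3 := mul_le_mul_of_nonneg_right h1 h2.le
  have h4 : 0 ≤ 2 * a - 1 := by linarith
  calc (2 * a - 1) * (2 * (1 - a) * Real.log 2 + x * (2 * a - 1) * Real.log 2) =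
      (2 * (1 - a) + (2 * a - 1) * x) * ((2 * a - 1) * Real.log 2) := by ring
    _ ≤ (2 * (1 - a) + 3 * x) * (1 - x) * ((2 * a - 1) * Real.log 2) := h3
    _ = _ := by ring

open Classical in
/-- **few characters have a large sum over some dyadic block** -/
theorem blk_par {a r ε B : ℝ} (ha : 1 / 2 < a) (ha1 : a < 1) (hr : 0 < r) (hra : r ≤ a)
    (hε : 0 < ε) (hB : 1 ≤ B) :
    ∃ c C0 L0 : ℝ, 0 < c ∧ 1 ≤ C0 ∧ 3 ≤ L0 ∧ ∀ (Q : ℕ) (L : ℝ), L = Real.log Q → L0 ≤ L →
      ∀ N0 : ℕ, C0 * (L * Real.log L) ≤ N0 → ∀ j N : ℕ, N = 2 ^ j * N0 →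
        Real.log (2 * N) ≤ B * Real.log L →
        (((Fam Q).filter (fun x => ∃ s : ℂ, a ≤ s.re ∧ s.re ≤ 2 ∧ |s.im| ≤ L ∧
          Real.exp (-(c * j)) * (N0 : ℝ) ^ (1 - a) < ‖PB x.2 N a s‖)).card : ℝ) ≤
          Real.exp ((3 - 2 * a + ε) * L) := by
  have hl2 : 0 < Real.log 2 := Real.log_pos (by norm_num)
  have hl2' : Real.log 2 ≤ 1 := by linarith [Real.log_two_lt_d9]
  have hl2'' : 1 / 2 ≤ Real.log 2 := by linarith [Real.log_two_gt_d9]
  obtain ⟨x, hx⟩ : ∃ x : ℝ, x = min (1 / 2) (ε / 24) := ⟨_, rfl⟩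
  have hx0 : 0 < x := by rw [hx]; exact lt_min (by norm_num) (by positivity)
  have hx1 : x ≤ 1 / 2 := by rw [hx]; exact min_le_left _ _
  have hx2 : x ≤ ε / 24 := by rw [hx]; exact min_le_right _ _
  obtain ⟨c, hc⟩ : ∃ c : ℝ, 2 * c = x * (2 * a - 1) * Real.log 2 := ⟨x * (2 * a - 1) * Real.log 2 / 2, by ring⟩
  have h2a : 0 < 2 * a - 1 := by linarith
  have hc0 : 0 < c := by
    have : 0 < x * (2 * a - 1) * Real.log 2 := by positivity
    linarith
  obtain ⟨μ, hμ⟩ : ∃ μ : ℝ, μ = (2 * a - 1) * Real.log 2 - 2 * c := ⟨_, rfl⟩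
  have hμ0 : 0 < μ := by
    rw [hμ, hc]
    have : 0 < (2 * a - 1) * Real.log 2 := by positivity
    nlinarith
  obtain ⟨β, hβ⟩ : ∃ β : ℝ, β = 2 * (1 - a) * Real.log 2 + 2 * c := ⟨_, rfl⟩
  have hβ0 : 0 ≤ β := by
    rw [hβ]
    have : 0 ≤ (1 - a) * Real.log 2 := by
      apply mul_nonneg _ hl2.le
      linarith
    nlinarith
  have hβ1 : β ≤ 1 := by
    rw [hβ, hc]
    have h1 : 2 * (1 - a) + x * (2 * a - 1) ≤ 1 := by nlinarith
    calc 2 * (1 - a) * Real.log 2 + x * (2 * a - 1) * Real.log 2 =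
        (2 * (1 - a) + x * (2 * a - 1)) * Real.log 2 := by ring
      _ ≤ 1 * 1 := by
          apply mul_le_mul h1 hl2' hl2.le (by norm_num)
      _ = 1 := by norm_num
  have hβμ : (2 * a - 1) * β ≤ (2 * (1 - a) + ε / 8) * μ := by
    have h1 := exp_le ha ha1 hx0 hx1
    rw [← hc, ← hβ, ← hμ] at h1
    refine h1.trans ?_
    apply mul_le_mul_of_nonneg_right _ hμ0.le
    linarith
  obtain ⟨ls, hls⟩ : ∃ ls : ℝ, ls = 64 * B / ε + 64 / ε + 1 := ⟨_, rfl⟩
  have hls1 : 1 ≤ ls := by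
    rw [hls]
    have : 0 ≤ 64 * B / ε + 64 / ε := by positivity
    linarith
  have hlsB : 64 * B / ε ≤ ls := by
    rw [hls]
    have : 0 ≤ 64 / ε := by positivity
    linarith
  have hlsε : 64 / ε ≤ ls := by
    rw [hls]
    have : 0 ≤ 64 * B / ε := by positivity
    linarith
  obtain ⟨C0, hC0⟩ : ∃ C0 : ℝ, C0 = 6 * B * Real.exp ls := ⟨_, rfl⟩
  have hC01 : 1 ≤ C0 := by
    rw [hC0]
    have : 1 ≤ Real.exp ls := Real.one_le_exp (by linarith)
    nlinarith
  obtain ⟨L1, hL11, hL1⟩ := div_loglog (ε := ε / 8) (by positivity)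
  obtain ⟨L2, hL21, hL2⟩ := poly_exp ((8 / r + 1) * (8 / r + 1) * 2 * (1 + Real.exp 3)) (1 + 2 * B)
    (δ := 5 * ε / 8) (by positivity)
  refine ⟨c, C0, max (max 3 (64 * B / ε)) (max L1 L2), hc0, hC01,
    (le_max_left _ _).trans (le_max_left _ _), ?_⟩
  intro Q L hLQ hL N0 hN0 j N hN hlogN
  have hL3 : 3 ≤ L := ((le_max_left _ _).trans (le_max_left _ _)).trans hL
  have hLB : 64 * B / ε ≤ L := ((le_max_right _ _).trans (le_max_left _ _)).trans hL
  have hLL1 : L1 ≤ L := ((le_max_left _ _).trans (le_max_right _ _)).trans hL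
  have hLL2 : L2 ≤ L := ((le_max_right _ _).trans (le_max_right _ _)).trans hL
  have hlogL1 : 1 ≤ Real.log L := by
    rw [Real.le_log_iff_exp_le (by linarith)]
    linarith [Real.exp_one_lt_d9]
  have hLlog : 0 < L * Real.log L := by positivity
  have hN0r : (0 : ℝ) < N0 := lt_of_lt_of_le (by positivity) hN0
  have hN01 : 1 ≤ N0 := by
    have : 0 < N0 := by exact_mod_cast hN0r
    omega
  have hN1 : 1 ≤ N := by
    rw [hN]; exact Nat.mul_pos (by positivity) hN01
  have hNr : (N : ℝ) = (2 : ℝ) ^ (j : ℝ) * N0 := by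
    rw [hN, Real.rpow_natCast]; push_cast; ring
  -- the exponent k
  obtain ⟨ℓ, hℓ⟩ : ∃ ℓ : ℝ, ℓ = ls + j * μ := ⟨_, rfl⟩
  have hjμ : 0 ≤ (j : ℝ) * μ := by positivity
  have hℓ1 : ls ≤ ℓ := by rw [hℓ]; linarith
  have hℓ0 : 0 < ℓ := by linarith
  obtain ⟨η, hη⟩ : ∃ η : ℝ, η = (2 * a - 1) / ℓ := ⟨_, rfl⟩
  have hη0 : 0 < η := by rw [hη]; positivity
  have hηle : η ≤ 1 / ls := by
    rw [hη]
    apply div_le_div₀ (by norm_num) (by linarith) (by linarith) hℓ1
  have hη1 : η ≤ 1 := hηle.trans (by rw [div_le_one (by linarith)]; exact hls1)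
  have hηℓ : η * ℓ = 2 * a - 1 := by rw [hη]; field_simp
  obtain ⟨k, hk⟩ : ∃ k : ℕ, k = ⌈η * L⌉₊ := ⟨_, rfl⟩
  have hk1 : η * L ≤ k := by rw [hk]; exact Nat.le_ceil _
  have hk2 : (k : ℝ) ≤ η * L + 1 := by
    rw [hk]; exact (Nat.ceil_lt_add_one (by positivity)).le
  have hk3 : (k : ℝ) ≤ 2 * L := by nlinarith
  -- the divisor bound
  have hlog2N : 0 ≤ Real.log (2 * N) := by
    apply Real.log_nonneg
    have : (1 : ℝ) ≤ N := by exact_mod_cast hN1
    linarith
  have hD : ∀ m : ℕ, m ≠ 0 → m ≤ (2 * N) ^ k → (m.divisors.card : ℝ) ≤ Real.exp (ε / 8 * L) := by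
    intro m hm hmle
    apply hL1 L hLL1 m hm
    have hm0 : (0 : ℝ) < m := by exact_mod_cast Nat.pos_of_ne_zero hm
    have h1 : Real.log m ≤ k * Real.log (2 * N) := by
      have : (m : ℝ) ≤ (2 * N : ℝ) ^ k := by exact_mod_cast hmle
      rw [← Real.log_pow]
      exact Real.log_le_log hm0 this
    refine h1.trans ?_
    have h2 : (k : ℝ) * Real.log (2 * N) ≤ (η * L + 1) * (B * Real.log L) := by
      apply mul_le_mul hk2 hlogN hlog2N (by positivity)
    refine h2.trans ?_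
    have h3 : η * B ≤ ε / 64 := by
      have h4 : 1 / ls ≤ ε / (64 * B) := by
        rw [div_le_div_iff₀ (by linarith) (by positivity)]
        rw [div_le_iff₀ hε] at hlsB
        linarith
      calc η * B ≤ ε / (64 * B) * B := by
            apply mul_le_mul_of_nonneg_right (hηle.trans h4) (by linarith)
        _ = ε / 64 := by field_simp
    have h5 : B ≤ ε / 64 * L := by
      rw [div_le_iff₀ hε] at hLB
      linarith
    have h6 : 0 < Real.log L := by linarith
    calc (η * L + 1) * (B * Real.log L) = (η * B * L + B) * Real.log L := by ring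
      _ ≤ (ε / 64 * L + ε / 64 * L) * Real.log L := by gcongr
      _ = ε / 8 / 4 * (L * Real.log L) := by ring
  -- apply the counting lemma
  obtain ⟨V, hV⟩ : ∃ V : ℝ, V = Real.exp (-(c * j)) * (N0 : ℝ) ^ (1 - a) := ⟨_, rfl⟩
  have hV0 : 0 < V := by rw [hV]; positivity
  rw [← hV]
  refine (blk_count hN1 hr hra (by linarith : (1 : ℝ) ≤ L) hV0 (Real.exp_pos _).le hD).trans ?_
  have hVsq : V ^ 2 = Real.exp (-(2 * c * j)) * (N0 : ℝ) ^ (2 - 2 * a) := by
    rw [hV, mul_pow, ← Real.rpow_natCast (_ ^ (1 - a)), ← Real.rpow_mul hN0r.le, ← Real.exp_nat_mul]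
    congr 2
    · push_cast; ring
    · push_cast; ring
  have hQexp : (Q : ℝ) = Real.exp L := by
    rw [hLQ, Real.exp_log]
    by_contra hcon
    have h0 : (Q : ℝ) = 0 := le_antisymm (not_lt.1 hcon) (Nat.cast_nonneg _)
    rw [h0, Real.log_zero] at hLQ
    linarith
  -- first term
  have hfirst : ((k : ℝ) * (3 * (N : ℝ) ^ (1 - 2 * a) * Real.log (2 * N)) / V ^ 2) ^ k ≤
      Real.exp (-(2 * a - 1) * L) := by
    have h1 : (k : ℝ) * (3 * (N : ℝ) ^ (1 - 2 * a) * Real.log (2 * N)) / V ^ 2 ≤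
        Real.exp (-ℓ) := by
      have e1 : (N : ℝ) ^ (1 - 2 * a) / V ^ 2 =
          Real.exp (-(j * μ)) / N0 := by
        rw [hVsq, hNr, Real.mul_rpow (by positivity) hN0r.le, ← Real.rpow_mul (by norm_num)]
        have e2 : (N0 : ℝ) ^ (1 - 2 * a) = (N0 : ℝ) ^ (2 - 2 * a) / N0 := by
          rw [div_eq_mul_inv, ← Real.rpow_neg_one, ← Real.rpow_add hN0r]
          congr 1; ring
        have e3 : (2 : ℝ) ^ ((j : ℝ) * (1 - 2 * a)) =
            Real.exp (-(j * μ)) * Real.exp (-(2 * c * j)) := by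
          rw [Real.rpow_def_of_pos (by norm_num), ← Real.exp_add]
          congr 1
          rw [hμ]; ring
        rw [e2, e3]
        have : (N0 : ℝ) ^ (2 - 2 * a) ≠ 0 := by positivity
        have h3 : Real.exp (-(2 * c * j)) ≠ 0 := (Real.exp_pos _).ne'
        field_simp
      have e4 : (k : ℝ) * (3 * (N : ℝ) ^ (1 - 2 * a) * Real.log (2 * N)) / V ^ 2 =
          3 * (k * Real.log (2 * N) / N0) * Real.exp (-(j * μ)) := by
        calc (k : ℝ) * (3 * (N : ℝ) ^ (1 - 2 * a) * Real.log (2 * N)) / V ^ 2 =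
            3 * k * Real.log (2 * N) * ((N : ℝ) ^ (1 - 2 * a) / V ^ 2) := by ring
          _ = _ := by rw [e1]; ring
      rw [e4, hℓ, neg_add, Real.exp_add]
      apply mul_le_mul_of_nonneg_right _ (Real.exp_pos _).le
      have h5 : (k : ℝ) * Real.log (2 * N) ≤ 2 * L * (B * Real.log L) := by
        apply mul_le_mul hk3 hlogN hlog2N (by linarith)
      have h6 : (k : ℝ) * Real.log (2 * N) / N0 ≤ 2 * B / C0 := by
        rw [div_le_div_iff₀ hN0r (by linarith)]
        calc (k : ℝ) * Real.log (2 * N) * C0 ≤ 2 * L * (B * Real.log L) * C0 := by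
              apply mul_le_mul_of_nonneg_right h5 (by linarith)
          _ = 2 * B * (C0 * (L * Real.log L)) := by ring
          _ ≤ 2 * B * N0 := by gcongr
      calc 3 * (k * Real.log (2 * N) / N0) ≤ 3 * (2 * B / C0) := by gcongr
        _ = Real.exp (-ls) := by
          rw [hC0, Real.exp_neg]
          have : Real.exp ls ≠ 0 := (Real.exp_pos _).ne'
          have hB0 : B ≠ 0 := by linarith
          field_simp
          norm_num
    have h2 : 0 ≤ (k : ℝ) * (3 * (N : ℝ) ^ (1 - 2 * a) * Real.log (2 * N)) / V ^ 2 := by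
      positivity
    calc ((k : ℝ) * (3 * (N : ℝ) ^ (1 - 2 * a) * Real.log (2 * N)) / V ^ 2) ^ k ≤
        (Real.exp (-ℓ)) ^ k := pow_le_pow_left₀ h2 h1 k
      _ = Real.exp (-(ℓ * k)) := by
          rw [← Real.exp_nat_mul]; congr 1; ring
      _ ≤ Real.exp (-(2 * a - 1) * L) := by
          apply Real.exp_le_exp.2
          have : ℓ * (η * L) ≤ ℓ * k := mul_le_mul_of_nonneg_left hk1 hℓ0.le
          have e : ℓ * (η * L) = (2 * a - 1) * L := by rw [← hηℓ]; ring
          linarith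
  -- second term
  have hj : (j : ℝ) ≤ 2 * B * Real.log L := by
    have h1 : (j : ℝ) * Real.log 2 ≤ Real.log (2 * N) := by
      have h2 : (2 : ℝ) ^ (j : ℝ) ≤ 2 * N := by
        rw [hNr]
        have h3 : (1 : ℝ) ≤ N0 := by exact_mod_cast hN01
        have h4 : (0 : ℝ) ≤ (2 : ℝ) ^ (j : ℝ) := by positivity
        nlinarith
      have := Real.log_le_log (by positivity) h2
      rwa [Real.log_rpow (by norm_num)] at this
    have h5 : (j : ℝ) * (1 / 2) ≤ j * Real.log 2 := by gcongr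
    linarith
  have hsecond : ((3 * (N : ℝ) ^ (1 - a) / V) ^ 2) ^ k ≤
      Real.exp ((2 * (1 - a) + ε / 4) * L) * (Real.exp 3 * L ^ (2 * B)) := by
    have e1 : (3 * (N : ℝ) ^ (1 - a) / V) ^ 2 = 9 * Real.exp (j * β) := by
      have e2 : (N : ℝ) ^ (1 - a) / V = Real.exp (j * β / 2) := by
        rw [hV, hNr, Real.mul_rpow (by positivity) hN0r.le, ← Real.rpow_mul (by norm_num)]
        have e3 : (2 : ℝ) ^ ((j : ℝ) * (1 - a)) =
            Real.exp (j * β / 2) * Real.exp (-(c * j)) := by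
          rw [Real.rpow_def_of_pos (by norm_num), ← Real.exp_add]
          congr 1
          rw [hβ]; ring
        rw [e3]
        have : (N0 : ℝ) ^ (1 - a) ≠ 0 := by positivity
        have h3 : Real.exp (-(c * j)) ≠ 0 := (Real.exp_pos _).ne'
        field_simp
      rw [mul_div_assoc, e2, mul_pow, ← Real.exp_nat_mul]
      congr 1
      · norm_num
      · congr 1; push_cast; ring
    rw [e1]
    have h9 : (9 : ℝ) ≤ Real.exp 3 := by
      have h1 : Real.exp 3 = Real.exp 1 ^ 3 := by rw [← Real.exp_nat_mul]; norm_num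
      rw [h1]
      have h2 : (2.7 : ℝ) ≤ Real.exp 1 := by linarith [Real.exp_one_gt_d9]
      have h3 : (2.7 : ℝ) ^ 3 ≤ Real.exp 1 ^ 3 := pow_le_pow_left₀ (by norm_num) h2 3
      linarith
    have hkR : (k : ℝ) * (3 + j * β) ≤ (2 * (1 - a) + ε / 4) * L + (3 + j) := by
      have h1 : (k : ℝ) * (3 + j * β) ≤ (η * L + 1) * (3 + j * β) := by
        apply mul_le_mul_of_nonneg_right hk2
        positivity
      have h2 : η * (3 + j * β) ≤ 2 * (1 - a) + ε / 4 := by
        rw [hη, div_mul_eq_mul_div, div_le_iff₀ hℓ0, hℓ]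
        have h3 : (2 * a - 1) * 3 ≤ ε / 8 * ls := by
          have h4 : 8 ≤ ε / 8 * ls := by
            rw [div_le_iff₀ hε] at hlsε
            linarith
          linarith
        have h5 : (2 * a - 1) * (j * β) ≤ (2 * (1 - a) + ε / 8) * (j * μ) := by
          have := mul_le_mul_of_nonneg_left hβμ (Nat.cast_nonneg (α := ℝ) j)
          nlinarith
        have h6 : 0 ≤ ε / 8 * (j * μ) := by positivity
        have h7 : 0 ≤ (2 * (1 - a) + ε / 8) * ls := by
          apply mul_nonneg _ (by linarith)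
          have : 0 ≤ ε / 8 := by positivity
          linarith
        nlinarith
      have h3 : (η * L + 1) * (3 + j * β) = η * (3 + j * β) * L + (3 + j * β) := by ring
      have h4 : (j : ℝ) * β ≤ j := by
        have := mul_le_mul_of_nonneg_left hβ1 (Nat.cast_nonneg (α := ℝ) j)
        linarith
      have h5 : η * (3 + j * β) * L ≤ (2 * (1 - a) + ε / 4) * L :=
        mul_le_mul_of_nonneg_right h2 (by linarith)
      linarith
    calc (9 * Real.exp (j * β)) ^ k ≤ (Real.exp 3 * Real.exp (j * β)) ^ k := by gcongr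
      _ = Real.exp (k * (3 + j * β)) := by
          rw [← Real.exp_add, ← Real.exp_nat_mul]
      _ ≤ Real.exp ((2 * (1 - a) + ε / 4) * L + (3 + j)) := Real.exp_le_exp.2 hkR
      _ = Real.exp ((2 * (1 - a) + ε / 4) * L) * (Real.exp 3 * Real.exp j) := by
          rw [Real.exp_add, Real.exp_add]
      _ ≤ Real.exp ((2 * (1 - a) + ε / 4) * L) * (Real.exp 3 * L ^ (2 * B)) := by
          have : Real.exp j ≤ L ^ (2 * B) := by
            rw [Real.rpow_def_of_pos (by linarith)]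
            apply Real.exp_le_exp.2
            linarith
          gcongr
  -- put together
  rw [hQexp]
  have hfin := hL2 L hLL2
  have hLpos : 0 < L := by linarith
  have hpow : L ^ (1 + 2 * B) = L * L ^ (2 * B) := by
    rw [Real.rpow_add hLpos, Real.rpow_one]
  have hLB1 : 1 ≤ L ^ (2 * B) := Real.one_le_rpow (by linarith) (by linarith)
  calc (8 / r + 1) * (8 / r + 1) * L * (2 *
        ((Real.exp L) ^ 2 * (k * (3 * (N : ℝ) ^ (1 - 2 * a) * Real.log (2 * N)) / V ^ 2) ^ k +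
        Real.exp L * Real.exp (ε / 8 * L) * ((3 * (N : ℝ) ^ (1 - a) / V) ^ 2) ^ k)) ≤
      (8 / r + 1) * (8 / r + 1) * L * (2 *
        ((Real.exp L) ^ 2 * Real.exp (-(2 * a - 1) * L) +
        Real.exp L * Real.exp (ε / 8 * L) *
          (Real.exp ((2 * (1 - a) + ε / 4) * L) * (Real.exp 3 * L ^ (2 * B))))) := by gcongr
    _ = (8 / r + 1) * (8 / r + 1) * L * 2 *
        (Real.exp ((3 - 2 * a) * L) + Real.exp ((3 - 2 * a + 3 * ε / 8) * L) *
          (Real.exp 3 * L ^ (2 * B))) := by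
        have e1 : (Real.exp L) ^ 2 * Real.exp (-(2 * a - 1) * L) = Real.exp ((3 - 2 * a) * L) := by
          rw [← Real.exp_nat_mul, ← Real.exp_add]
          congr 1; push_cast; ring
        have e2 : Real.exp L * Real.exp (ε / 8 * L) *
          (Real.exp ((2 * (1 - a) + ε / 4) * L) * (Real.exp 3 * L ^ (2 * B))) =
            Real.exp ((3 - 2 * a + 3 * ε / 8) * L) * (Real.exp 3 * L ^ (2 * B)) := by
          rw [← mul_assoc (Real.exp L * Real.exp (ε / 8 * L)), ← Real.exp_add, ← Real.exp_add]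
          congr 2
          ring
        rw [e1, e2]; ring
    _ ≤ (8 / r + 1) * (8 / r + 1) * L * 2 *
        (Real.exp ((3 - 2 * a + 3 * ε / 8) * L) * L ^ (2 * B) +
          Real.exp ((3 - 2 * a + 3 * ε / 8) * L) * (Real.exp 3 * L ^ (2 * B))) := by
        gcongr
        calc Real.exp ((3 - 2 * a) * L) ≤ Real.exp ((3 - 2 * a + 3 * ε / 8) * L) := by
              apply Real.exp_le_exp.2
              apply mul_le_mul_of_nonneg_right _ hLpos.le
              linarith
          _ = Real.exp ((3 - 2 * a + 3 * ε / 8) * L) * 1 := (mul_one _).symm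
          _ ≤ Real.exp ((3 - 2 * a + 3 * ε / 8) * L) * L ^ (2 * B) := by gcongr
    _ = ((8 / r + 1) * (8 / r + 1) * 2 * (1 + Real.exp 3) * L ^ (1 + 2 * B)) *
        Real.exp ((3 - 2 * a + 3 * ε / 8) * L) := by rw [hpow]; ring
    _ ≤ Real.exp (5 * ε / 8 * L) * Real.exp ((3 - 2 * a + 3 * ε / 8) * L) := by gcongr
    _ = Real.exp ((3 - 2 * a + ε) * L) := by
        rw [← Real.exp_add]; congr 1; ring

end Run7.h837
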