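import Pool.Agent.Run7.h837.Sum
import Pool.Agent.Run7.h837.Par

/-!
# The bound for a character without zeros and with small block sums
-/

set_option autoImplicit false

namespace Run7.h837

open Finset Filter

/-- a power of `log L` is small -/
lemma log_le_small (K : ℝ) : ∃ L1 : ℝ, 1 ≤ L1 ∧ ∀ L : ℝ, L1 ≤ L → K * Real.log L ≤ L := by
  obtain ⟨L1, hL1, h⟩ := poly_exp K 1 (δ := 1) one_pos
  refine ⟨Real.exp L1, Real.one_le_exp (by linarith), fun L hL => ?_⟩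
  have hL0 : 0 < L := (Real.exp_pos _).trans_le hL
  have h1 := h (Real.log L) ((Real.le_log_iff_exp_le hL0).2 hL)
  rwa [Real.rpow_one, one_mul, Real.exp_log hL0] at h1

/-- an arbitrary constant is at most `L` -/
lemma large3 {K1 K2 K3 : ℝ} : ∃ L1 : ℝ, 3 ≤ L1 ∧ ∀ L : ℝ, L1 ≤ L → K1 ≤ L ∧ K2 ≤ L ∧ K3 ≤ Real.log L := by
  refine ⟨max 3 (max K1 (max K2 (Real.exp K3))), le_max_left _ _, fun L hL => ?_⟩
  have h3 : 3 ≤ L := (le_max_left _ _).trans hL
  have h4 : max K1 (max K2 (Real.exp K3)) ≤ L := (le_max_right _ _).trans hL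
  refine ⟨(le_max_left _ _).trans h4, ?_, ?_⟩
  · exact ((le_max_left _ _).trans (le_max_right _ _)).trans h4
  · rw [Real.le_log_iff_exp_le (by linarith)]
    exact ((le_max_right _ _).trans (le_max_right _ _)).trans h4

theorem det_good {σ₀ r c C0 : ℝ} (hr : 0 < r) (hα : 1 / 2 < σ₀ - 2 * r) (hσ₀ : σ₀ < 1)
    (hc : 0 < c) (hC0 : 1 ≤ C0) :
    ∃ C L1 : ℝ, 0 < C ∧ 3 ≤ L1 ∧ ∀ (Q : ℕ) (L : ℝ), L = Real.log Q → L1 ≤ L → ∀ N0 J : ℕ,
      C0 * (L * Real.log L) ≤ N0 → (N0 : ℝ) ≤ 2 * C0 * (L * Real.log L) →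
      L ^ (16 / r + 4) ≤ (2 : ℝ) ^ J →
      ∀ (q : ℕ) [NeZero q] (χ : DirichletCharacter ℂ q), χ ≠ 1 → q ≤ Q → Q < q ^ 2 →
        (∀ s : ℂ, σ₀ - 2 * r ≤ s.re → |s.im| ≤ L → DirichletCharacter.LFunction χ s ≠ 0) →
        (∀ j < J, ∀ s : ℂ, σ₀ - r ≤ s.re → s.re ≤ 2 → |s.im| ≤ L →
          ‖PB χ (2 ^ j * N0) (σ₀ - r) s‖ ≤
            Real.exp (-(c * j)) * (N0 : ℝ) ^ (1 - (σ₀ - r))) →
        ∀ σ : ℝ, σ₀ ≤ σ → σ < 1 → DirichletCharacter.LFunction χ (σ : ℂ) ≠ 0 ∧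
          ‖deriv (DirichletCharacter.LFunction χ) (σ : ℂ) /
            DirichletCharacter.LFunction χ (σ : ℂ)‖ ≤
            C / (1 - σ) * Real.log q ^ (1 - σ) * Real.log (Real.log q) ^ (1 - σ) := by
  obtain ⟨C1, hC10, hC1⟩ := ZZ_bound (a := σ₀ - r) (c := c) (by linarith) (by linarith) hc
  obtain ⟨Ct, hCt0, hCt⟩ := tail_two
  obtain ⟨L1, hL13, hL1⟩ := large3 (K1 := Real.exp 1 * (48 / r ^ 2 + 1)) (K2 := Real.exp 4 * Ct)
    (K3 := 2)
  obtain ⟨L2, hL21, hL2⟩ := log_le_small (2 * C0 * C1 ^ 2)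
  obtain ⟨L3, hL31, hL3⟩ := poly_exp (Real.exp 4 * (48 / r ^ 2 + 1)) (4 / r + 1) (δ := 1) one_pos
  obtain ⟨L4, hL41, hL4⟩ := poly_exp 192 1 (δ := 1) one_pos
  refine ⟨3 + 8 * C1 * C0, max (max L1 L2) (max (max L3 L4) 8), by positivity,
    hL13.trans ((le_max_left _ _).trans (le_max_left _ _)), ?_⟩
  intro Q L hLQ hL N0 J hN0 hN02 hJ q _ χ hχ hqQ hQq hz hblk σ hσ hσ1
  have g1 : L1 ≤ L := ((le_max_left _ _).trans (le_max_left _ _)).trans hL
  have g2 : L2 ≤ L := ((le_max_right _ _).trans (le_max_left _ _)).trans hL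
  have g3 : L3 ≤ L :=
    (((le_max_left _ _).trans (le_max_left _ _)).trans (le_max_right _ _)).trans hL
  have g4 : L4 ≤ L :=
    (((le_max_right _ _).trans (le_max_left _ _)).trans (le_max_right _ _)).trans hL
  have g5 : 8 ≤ L := ((le_max_right _ _).trans (le_max_right _ _)).trans hL
  obtain ⟨k1, k2, k3⟩ := hL1 L g1
  have k4 := hL2 L g2
  have k5 := hL3 L g3
  have k6 := hL4 L g4
  have hLpos : 0 < L := by linarith
  have hlogL : 2 ≤ Real.log L := k3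
  have hLL : 1 ≤ L * Real.log L := by nlinarith
  have hN0r : (1 : ℝ) ≤ N0 := by nlinarith
  have hN01 : 1 ≤ N0 := by exact_mod_cast hN0r
  have hQ0 : (0 : ℝ) < Q := by
    by_contra hcon
    have h0 : (Q : ℝ) = 0 := le_antisymm (not_lt.1 hcon) (Nat.cast_nonneg _)
    rw [h0, Real.log_zero] at hLQ
    linarith
  have hQexp : (Q : ℝ) = Real.exp L := by rw [hLQ, Real.exp_log hQ0]
  have hr1 : r < 1 / 4 := by linarith
  -- nonvanishing
  have hne : DirichletCharacter.LFunction χ (σ : ℂ) ≠ 0 := by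
    apply hz
    · rw [Complex.ofReal_re]; linarith
    · rw [Complex.ofReal_im, abs_zero]; linarith
  refine ⟨hne, ?_⟩
  -- the bound of `ZZ` in the box
  set y : ℕ := 2 ^ J * N0 with hy
  have hZbox : ∀ s : ℂ, (σ₀ - 2 * r) + r ≤ s.re → s.re ≤ 2 → |s.im| ≤ L - 2 → ‖ZZ χ y s‖ ≤ L := by
    intro s h1 h2 h3
    have h4 := (hC1 q χ N0 J s hN01 (by linarith)
      (fun j hj => hblk j hj s (by linarith) h2 (by linarith))).2
    refine h4.trans ?_
    have h5 : (N0 : ℝ) ^ (1 - (σ₀ - r)) ≤ (N0 : ℝ) ^ (1 / 2 : ℝ) :=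
      Real.rpow_le_rpow_of_exponent_le hN0r (by linarith)
    have h6 : (C1 * (N0 : ℝ) ^ (1 / 2 : ℝ)) ^ 2 ≤ L ^ 2 := by
      rw [mul_pow, ← Real.rpow_natCast (_ ^ (1 / 2 : ℝ)), ← Real.rpow_mul (by linarith)]
      norm_num
      calc C1 ^ 2 * (N0 : ℝ) ≤ C1 ^ 2 * (2 * C0 * (L * Real.log L)) := by gcongr
        _ = (2 * C0 * C1 ^ 2 * Real.log L) * L := by ring
        _ ≤ L * L := by gcongr
        _ = L ^ 2 := by ring
    have h7 : C1 * (N0 : ℝ) ^ (1 / 2 : ℝ) ≤ L := by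
      have h8 : 0 ≤ C1 * (N0 : ℝ) ^ (1 / 2 : ℝ) := by positivity
      nlinarith [abs_le_of_sq_le_sq h6 hLpos.le]
    exact (mul_le_mul_of_nonneg_left h5 hC10.le).trans h7
  -- the size of the logarithm
  have hqr : (1 : ℝ) ≤ q := by exact_mod_cast Nat.one_le_iff_ne_zero.2 (NeZero.ne q)
  have hB : 16 / r ^ 2 * Real.log (16 * ((q : ℝ) + 1) * (L + 5)) ≤ 48 / r ^ 2 * L := by
    have h1 : 16 * ((q : ℝ) + 1) * (L + 5) ≤ Real.exp L ^ 3 := by
      have h2 : (q : ℝ) ≤ Real.exp L := by rw [← hQexp]; exact_mod_cast hqQ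
      rw [Real.rpow_one, one_mul] at k6
      have h3 : 1 ≤ Real.exp L := Real.one_le_exp hLpos.le
      calc 16 * ((q : ℝ) + 1) * (L + 5) ≤ 16 * (Real.exp L + Real.exp L) * (L + L) := by
            gcongr; linarith
        _ = (64 * L) * Real.exp L := by ring
        _ ≤ (192 * L) * Real.exp L := by gcongr; norm_num
        _ ≤ Real.exp L * Real.exp L := by gcongr
        _ ≤ Real.exp L * Real.exp L * Real.exp L := by
            apply le_mul_of_one_le_right _ h3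
            positivity
        _ = _ := by ring
    have h4 : Real.log (16 * ((q : ℝ) + 1) * (L + 5)) ≤ 3 * L := by
      have h5 := Real.log_le_log (by positivity) h1
      rwa [Real.log_pow, Real.log_exp] at h5
    calc 16 / r ^ 2 * Real.log (16 * ((q : ℝ) + 1) * (L + 5)) ≤ 16 / r ^ 2 * (3 * L) := by
          gcongr
      _ = _ := by ring
  have hypos : 1 ≤ y := Nat.mul_pos (by positivity) hN01
  have hD : ∀ s : ℂ, s.re = 2 →
      ‖deriv (DirichletCharacter.LFunction χ) s / DirichletCharacter.LFunction χ s + ZZ χ y s‖ ≤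
        Ct * (y : ℝ) ^ (-(1 / 4) : ℝ) := fun s hs => hCt q χ y s hs hypos
  have hR : 1 ≤ L ^ (2 / r) := Real.one_le_rpow (by linarith) (by positivity)
  have hmain := box_max (χ := χ) hχ (α := σ₀ - 2 * r) (r := r) (T := L) (R := L ^ (2 / r)) (K := L)
    (B := 48 / r ^ 2 * L) (D := Ct * (y : ℝ) ^ (-(1 / 4) : ℝ)) (σ := σ) (y := y) hα.le hr hR
    hLpos.le (by linarith) (fun s h1 h2 => hz s h1.le h2) hZbox hB (by positivity) hD
    (by linarith) hσ1.le
  have hR1 : (L ^ (2 / r)) ^ (-r) = L ^ (-2 : ℝ) := by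
    rw [← Real.rpow_mul hLpos.le]; congr 1; field_simp
  have hR2 : (L ^ (2 / r)) ^ (2 : ℝ) = L ^ (4 / r) := by
    rw [← Real.rpow_mul hLpos.le]; congr 1; ring
  rw [hR1, hR2] at hmain
  have t1 : Real.exp 1 * (48 / r ^ 2 * L + L) * L ^ (-2 : ℝ) ≤ 1 := by
    have e1 : L ^ (-2 : ℝ) = 1 / (L * L) := by
      rw [Real.rpow_neg hLpos.le, one_div]
      congr 1
      rw [show (2 : ℝ) = ((2 : ℕ) : ℝ) by norm_num, Real.rpow_natCast, sq]
    rw [e1, mul_one_div, div_le_one (by positivity)]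
    calc Real.exp 1 * (48 / r ^ 2 * L + L) = (Real.exp 1 * (48 / r ^ 2 + 1)) * L := by ring
      _ ≤ L * L := by gcongr
  have t2 : Real.exp 4 * L ^ (4 / r) * (Ct * (y : ℝ) ^ (-(1 / 4) : ℝ)) ≤ 1 := by
    have h1 : L ^ (16 / r + 4) ≤ (y : ℝ) := by
      refine hJ.trans ?_
      rw [hy]; push_cast
      have : (0 : ℝ) < (2 : ℝ) ^ J := by positivity
      nlinarith
    have h2 : (y : ℝ) ^ (-(1 / 4) : ℝ) ≤ (L ^ (16 / r + 4)) ^ (-(1 / 4) : ℝ) :=
      Real.rpow_le_rpow_of_nonpos (by positivity) h1 (by norm_num)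
    have h3 : (L ^ (16 / r + 4)) ^ (-(1 / 4) : ℝ) = L ^ (-(4 / r) : ℝ) * L⁻¹ := by
      rw [← Real.rpow_mul hLpos.le, ← Real.rpow_neg_one, ← Real.rpow_add hLpos]
      congr 1; ring
    rw [h3] at h2
    have h4 : L ^ (4 / r) * L ^ (-(4 / r) : ℝ) = 1 := by
      rw [← Real.rpow_add hLpos]; simp
    calc Real.exp 4 * L ^ (4 / r) * (Ct * (y : ℝ) ^ (-(1 / 4) : ℝ)) ≤
        Real.exp 4 * L ^ (4 / r) * (Ct * (L ^ (-(4 / r) : ℝ) * L⁻¹)) := by gcongr
      _ = (Real.exp 4 * Ct) * (L ^ (4 / r) * L ^ (-(4 / r) : ℝ)) * L⁻¹ := by ring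
      _ = (Real.exp 4 * Ct) * L⁻¹ := by rw [h4, mul_one]
      _ ≤ L * L⁻¹ := by gcongr
      _ = 1 := mul_inv_cancel₀ hLpos.ne'
  have t3 : Real.exp (4 - (L - 2) ^ 2) * L ^ (4 / r) * (48 / r ^ 2 * L + L) ≤ 1 := by
    have h1 : Real.exp (4 - (L - 2) ^ 2) ≤ Real.exp 4 * Real.exp (-L) := by
      rw [← Real.exp_add]
      apply Real.exp_le_exp.2
      nlinarith
    have h2 : L ^ (4 / r + 1) = L ^ (4 / r) * L := by
      rw [Real.rpow_add hLpos, Real.rpow_one]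
    rw [h2, one_mul] at k5
    calc Real.exp (4 - (L - 2) ^ 2) * L ^ (4 / r) * (48 / r ^ 2 * L + L) ≤
        Real.exp 4 * Real.exp (-L) * L ^ (4 / r) * (48 / r ^ 2 * L + L) := by gcongr
      _ = (Real.exp 4 * (48 / r ^ 2 + 1) * (L ^ (4 / r) * L)) * Real.exp (-L) := by ring
      _ ≤ Real.exp L * Real.exp (-L) := by gcongr
      _ = 1 := by rw [← Real.exp_add]; simp
  have hdiff : ‖deriv (DirichletCharacter.LFunction χ) (σ : ℂ) /
      DirichletCharacter.LFunction χ (σ : ℂ) + ZZ χ y (σ : ℂ)‖ ≤ 3 := by linarith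
  -- the bound for `ZZ` at `σ`
  have hZσ := (hC1 q χ N0 J (σ : ℂ) hN01 (by rw [Complex.ofReal_re]; linarith)
      (fun j hj => hblk j hj (σ : ℂ) (by rw [Complex.ofReal_re]; linarith)
        (by rw [Complex.ofReal_re]; linarith)
        (by rw [Complex.ofReal_im, abs_zero]; linarith))).1 (by rw [Complex.ofReal_re]; exact hσ1)
  rw [Complex.ofReal_re] at hZσ
  -- comparison of `L` and `log q`
  have h1σ : 0 < 1 - σ := by linarith
  have hlq : L ≤ 2 * Real.log q := by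
    have h1 : (Q : ℝ) ≤ (q : ℝ) ^ 2 := by exact_mod_cast hQq.le
    have h2 := Real.log_le_log hQ0 h1
    rw [Real.log_pow] at h2
    rw [hLQ]; exact_mod_cast h2
  have hlq4 : 4 ≤ Real.log q := by linarith
  have hllq : Real.log L ≤ 2 * Real.log (Real.log q) := by
    have h1 : Real.log L ≤ Real.log 2 + Real.log (Real.log q) := by
      rw [← Real.log_mul (by norm_num) (by linarith)]
      exact Real.log_le_log hLpos hlq
    have h2 : Real.log 2 ≤ Real.log (Real.log q) := Real.log_le_log (by norm_num) (by linarith)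
    linarith
  have hllq1 : 1 ≤ Real.log (Real.log q) := by linarith
  set W : ℝ := Real.log q ^ (1 - σ) * Real.log (Real.log q) ^ (1 - σ) with hW
  have hW1 : 1 ≤ W := by
    rw [hW]
    have h1 : 1 ≤ Real.log q ^ (1 - σ) := Real.one_le_rpow (by linarith) h1σ.le
    have h2 : 1 ≤ Real.log (Real.log q) ^ (1 - σ) := Real.one_le_rpow hllq1 h1σ.le
    nlinarith
  have hN0σ : (N0 : ℝ) ^ (1 - σ) ≤ 8 * C0 * W := by
    have h1 : (N0 : ℝ) ≤ (8 * C0) * (Real.log q * Real.log (Real.log q)) := by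
      calc (N0 : ℝ) ≤ 2 * C0 * (L * Real.log L) := hN02
        _ ≤ 2 * C0 * ((2 * Real.log q) * (2 * Real.log (Real.log q))) := by gcongr
        _ = _ := by ring
    calc (N0 : ℝ) ^ (1 - σ) ≤ ((8 * C0) * (Real.log q * Real.log (Real.log q))) ^ (1 - σ) :=
          Real.rpow_le_rpow (by linarith) h1 h1σ.le
      _ = (8 * C0) ^ (1 - σ) * W := by
          have hh : (Real.log q * Real.log (Real.log q)) ^ (1 - σ) = W :=
            Real.mul_rpow (by linarith) (by linarith)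
          rw [Real.mul_rpow (by positivity) (by positivity), hh]
      _ ≤ (8 * C0) ^ (1 : ℝ) * W := by
          apply mul_le_mul_of_nonneg_right _ (by linarith)
          exact Real.rpow_le_rpow_of_exponent_le (by linarith) (by linarith)
      _ = 8 * C0 * W := by rw [Real.rpow_one]
  have hfin : ‖deriv (DirichletCharacter.LFunction χ) (σ : ℂ) /
      DirichletCharacter.LFunction χ (σ : ℂ)‖ ≤ 3 + C1 / (1 - σ) * (8 * C0 * W) := by
    have e : deriv (DirichletCharacter.LFunction χ) (σ : ℂ) /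
      DirichletCharacter.LFunction χ (σ : ℂ) = (deriv (DirichletCharacter.LFunction χ) (σ : ℂ) /
      DirichletCharacter.LFunction χ (σ : ℂ) + ZZ χ y (σ : ℂ)) - ZZ χ y (σ : ℂ) := by ring
    rw [e]
    refine (norm_sub_le _ _).trans (add_le_add hdiff (hZσ.trans ?_))
    gcongr
  refine hfin.trans ?_
  have hinv : 1 ≤ 1 / (1 - σ) := by
    rw [le_div_iff₀ h1σ]; linarith
  have h3 : 3 ≤ 3 / (1 - σ) * W := by
    have : 1 ≤ 1 / (1 - σ) * W := by nlinarith
    calc (3 : ℝ) ≤ 3 * (1 / (1 - σ) * W) := by linarith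
      _ = _ := by ring
  calc 3 + C1 / (1 - σ) * (8 * C0 * W) ≤ 3 / (1 - σ) * W + C1 / (1 - σ) * (8 * C0 * W) := by
        linarith
    _ = (3 + 8 * C1 * C0) / (1 - σ) * Real.log q ^ (1 - σ) *
        Real.log (Real.log q) ^ (1 - σ) := by rw [hW]; ring

end Run7.h837
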