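import Pool.Agent.Run7.h837.ZerF
import Pool.Agent.Run7.h837.Fin

/-!
# One modulus: the number of exceptional characters
-/

set_option autoImplicit false

namespace Run7.h837

open Finset Filter

lemma poly_exp_log (K A : ℝ) {δ : ℝ} (hδ : 0 < δ) : ∃ L1 : ℝ, 3 ≤ L1 ∧
    ∀ L : ℝ, L1 ≤ L → K * L ^ A ≤ Real.exp (δ * (L / Real.log L)) := by
  obtain ⟨M1, hM1, h⟩ := poly_exp K (2 * A) (δ := δ / 2) (by positivity)
  refine ⟨max 3 (M1 ^ 2), le_max_left _ _, fun L hL => ?_⟩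
  have h3 : 3 ≤ L := (le_max_left _ _).trans hL
  have h4 : M1 ^ 2 ≤ L := (le_max_right _ _).trans hL
  have hLpos : 0 < L := by linarith
  have h5 : M1 ≤ Real.sqrt L := by
    apply Real.le_sqrt_of_sq_le h4
  have h6 := h (Real.sqrt L) h5
  have hs0 : 0 < Real.sqrt L := Real.sqrt_pos.2 hLpos
  have e1 : Real.sqrt L ^ (2 * A) = L ^ A := by
    rw [Real.sqrt_eq_rpow, ← Real.rpow_mul hLpos.le]
    congr 1; ring
  rw [e1] at h6
  refine h6.trans (Real.exp_le_exp.2 ?_)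
  have hlog0 : 0 < Real.log L := Real.log_pos (by linarith)
  have h7 : Real.log L ≤ 2 * Real.sqrt L := by
    have h8 : Real.log L = 2 * Real.log (Real.sqrt L) := by
      rw [Real.log_sqrt hLpos.le]; ring
    rw [h8]
    have := Real.log_le_sub_one_of_pos hs0
    linarith
  have h9 : Real.sqrt L / 2 ≤ L / Real.log L := by
    rw [div_le_div_iff₀ (by norm_num) hlog0]
    have h10 : Real.sqrt L * Real.sqrt L = L := Real.mul_self_sqrt hLpos.le
    nlinarith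
  calc δ / 2 * Real.sqrt L = δ * (Real.sqrt L / 2) := by ring
    _ ≤ δ * (L / Real.log L) := by gcongr

open Classical in
/-- the block bound with the parameters inserted -/
theorem blk_par_fix {a r B : ℝ} (ha : 1 / 2 < a) (ha1 : a < 1) (hr : 0 < r) (hra : r ≤ a)
    (hB : 1 ≤ B) :
    ∃ c L0 : ℝ, 0 < c ∧ 3 ≤ L0 ∧ ∀ (q : ℕ) [NeZero q] (L : ℝ), L = Real.log q → L0 ≤ L →
      ∀ m : ℝ, 1 ≤ m → ∀ N0 : ℕ, 3 * m * L ≤ N0 → ∀ j N : ℕ, N = 2 ^ j * N0 →
        Real.log (2 * N) ≤ B * Real.log L →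
        (((univ : Finset (DirichletCharacter ℂ q)).filter (fun χ => ∃ s : ℂ, a ≤ s.re ∧
          s.re ≤ 2 ∧ |s.im| ≤ L ∧
          Real.exp (-(c * j)) * (N0 : ℝ) ^ (1 - a) < ‖PB χ N a s‖)).card : ℝ) ≤
          (8 / r + 1) * (8 / r + 1) * L * (2 * (Nat.totient q *
            Real.exp (-(1 / (2 * B)) * (L / Real.log L * Real.log m)))) := by
  have hl2 : 0 < Real.log 2 := Real.log_pos (by norm_num)
  have h2a : 0 < 2 * a - 1 := by linarith
  obtain ⟨c, hc⟩ : ∃ c : ℝ, c = (2 * a - 1) * Real.log 2 / 4 := ⟨_, rfl⟩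
  have hc0 : 0 < c := by rw [hc]; positivity
  obtain ⟨L1, hL11, hL1⟩ := log_le_small (2 * B)
  refine ⟨c, max 3 L1, hc0, le_max_left _ _, ?_⟩
  intro q _ L hLq hL m hm N0 hN0 j N hN hlogN
  have hL3 : 3 ≤ L := (le_max_left _ _).trans hL
  have hLB := hL1 L ((le_max_right _ _).trans hL)
  have hLpos : 0 < L := by linarith
  have hlogL1 : 1 ≤ Real.log L := by
    rw [Real.le_log_iff_exp_le (by linarith)]
    linarith [Real.exp_one_lt_d9]
  have hLlog : 0 < L * Real.log L := by positivity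
  have hN0pos : 0 < 3 * m * L := by positivity
  have hN0r : (0 : ℝ) < N0 := lt_of_lt_of_le hN0pos hN0
  have hN01 : 1 ≤ N0 := by
    have : 0 < N0 := by exact_mod_cast hN0r
    omega
  have hN1 : 1 ≤ N := by
    rw [hN]; exact Nat.mul_pos (by positivity) hN01
  have hNr : (N : ℝ) = (2 : ℝ) ^ (j : ℝ) * N0 := by
    rw [hN, Real.rpow_natCast]; push_cast; ring
  have hN1r : (1 : ℝ) ≤ N := by exact_mod_cast hN1
  have hlog2N : 0 < Real.log (2 * N) := Real.log_pos (by linarith)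
  have hq0 : (0 : ℝ) < q := by exact_mod_cast Nat.pos_of_ne_zero (NeZero.ne q)
  have hqexp : (q : ℝ) = Real.exp L := by rw [hLq, Real.exp_log hq0]
  -- the exponent
  obtain ⟨k, hk⟩ : ∃ k : ℕ, k = ⌊L / Real.log (2 * N)⌋₊ := ⟨_, rfl⟩
  have hk1 : (k : ℝ) ≤ L / Real.log (2 * N) := by rw [hk]; exact Nat.floor_le (by positivity)
  have hk2 : L / Real.log (2 * N) - 1 ≤ k := by
    rw [hk]; linarith [Nat.lt_floor_add_one (L / Real.log (2 * N))]
  have hklog : (k : ℝ) * Real.log (2 * N) ≤ L := by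
    rwa [le_div_iff₀ hlog2N] at hk1
  have hkq : (2 * N) ^ k ≤ q := by
    have h1 : ((2 * N : ℝ)) ^ k ≤ q := by
      rw [hqexp, ← Real.rpow_natCast, Real.rpow_def_of_pos (by linarith)]
      apply Real.exp_le_exp.2
      linarith
    exact_mod_cast h1
  have hk3 : 1 / (2 * B) * (L / Real.log L) ≤ k := by
    refine le_trans ?_ hk2
    have h1 : L / (B * Real.log L) ≤ L / Real.log (2 * N) := by gcongr
    have h2 : 1 ≤ L / (2 * B * Real.log L) := by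
      rw [le_div_iff₀ (by positivity)]
      linarith
    have h3 : L / (B * Real.log L) = L / (2 * B * Real.log L) + L / (2 * B * Real.log L) := by
      field_simp; norm_num
    have h4 : 1 / (2 * B) * (L / Real.log L) = L / (2 * B * Real.log L) := by
      field_simp
    rw [h4]
    linarith
  obtain ⟨V, hV⟩ : ∃ V : ℝ, V = Real.exp (-(c * j)) * (N0 : ℝ) ^ (1 - a) := ⟨_, rfl⟩
  have hV0 : 0 < V := by rw [hV]; positivity
  rw [← hV]
  refine (blk_fix hN1 hkq hr hra (by linarith : (1 : ℝ) ≤ L) hV0).trans ?_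
  have hVsq : V ^ 2 = Real.exp (-(2 * c * j)) * (N0 : ℝ) ^ (2 - 2 * a) := by
    rw [hV, mul_pow, ← Real.rpow_natCast (_ ^ (1 - a)), ← Real.rpow_mul hN0r.le, ← Real.exp_nat_mul]
    congr 2
    · push_cast; ring
    · push_cast; ring
  have hratio : (k : ℝ) * (3 * (N : ℝ) ^ (1 - 2 * a) * Real.log (2 * N)) / V ^ 2 ≤
      m⁻¹ := by
    have e1 : (N : ℝ) ^ (1 - 2 * a) / V ^ 2 =
        Real.exp (-(2 * c * j)) / N0 := by
      rw [hVsq, hNr, Real.mul_rpow (by positivity) hN0r.le, ← Real.rpow_mul (by norm_num)]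
      have e2 : (N0 : ℝ) ^ (1 - 2 * a) = (N0 : ℝ) ^ (2 - 2 * a) / N0 := by
        rw [div_eq_mul_inv, ← Real.rpow_neg_one, ← Real.rpow_add hN0r]
        congr 1; ring
      have e3 : (2 : ℝ) ^ ((j : ℝ) * (1 - 2 * a)) =
          Real.exp (-(2 * c * j)) * Real.exp (-(2 * c * j)) := by
        rw [Real.rpow_def_of_pos (by norm_num), ← Real.exp_add]
        congr 1
        rw [hc]; ring
      rw [e2, e3]
      have : (N0 : ℝ) ^ (2 - 2 * a) ≠ 0 := by positivity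
      have h3 : Real.exp (-(2 * c * j)) ≠ 0 := (Real.exp_pos _).ne'
      field_simp
    have e4 : (k : ℝ) * (3 * (N : ℝ) ^ (1 - 2 * a) * Real.log (2 * N)) / V ^ 2 =
        3 * (k * Real.log (2 * N) / N0) * Real.exp (-(2 * c * j)) := by
      calc (k : ℝ) * (3 * (N : ℝ) ^ (1 - 2 * a) * Real.log (2 * N)) / V ^ 2 =
          3 * k * Real.log (2 * N) * ((N : ℝ) ^ (1 - 2 * a) / V ^ 2) := by ring
        _ = _ := by rw [e1]; ring
    rw [e4]
    have h5 : Real.exp (-(2 * c * j)) ≤ 1 := by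
      apply Real.exp_le_one_iff.2
      have : 0 ≤ 2 * c * j := by positivity
      linarith
    have h6 : 3 * (k * Real.log (2 * N) / N0) ≤ m⁻¹ := by
      have h7 : 3 * (k * Real.log (2 * N) / N0) ≤ 3 * (L / N0) := by gcongr
      refine h7.trans ?_
      rw [← one_div, mul_div_assoc', div_le_div_iff₀ hN0r (by positivity)]
      calc 3 * L * m = 3 * m * L := by ring
        _ ≤ N0 := hN0
        _ = 1 * N0 := (one_mul _).symm
    calc 3 * (k * Real.log (2 * N) / N0) * Real.exp (-(2 * c * j)) ≤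
        3 * (k * Real.log (2 * N) / N0) * 1 := by gcongr
      _ = 3 * (k * Real.log (2 * N) / N0) := mul_one _
      _ ≤ _ := h6
  have hpow : ((k : ℝ) * (3 * (N : ℝ) ^ (1 - 2 * a) * Real.log (2 * N)) / V ^ 2) ^ k ≤
      Real.exp (-(1 / (2 * B)) * (L / Real.log L * Real.log m)) := by
    have h2 : 0 ≤ (k : ℝ) * (3 * (N : ℝ) ^ (1 - 2 * a) * Real.log (2 * N)) / V ^ 2 := by
      positivity
    calc ((k : ℝ) * (3 * (N : ℝ) ^ (1 - 2 * a) * Real.log (2 * N)) / V ^ 2) ^ k ≤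
        (m⁻¹) ^ k := pow_le_pow_left₀ h2 hratio k
      _ = Real.exp (-(k * Real.log m)) := by
          rw [inv_pow, Real.exp_neg, Real.exp_nat_mul, Real.exp_log (by linarith)]
      _ ≤ _ := by
          apply Real.exp_le_exp.2
          have h8 : 0 ≤ Real.log m := Real.log_nonneg hm
          have h9 := mul_le_mul_of_nonneg_right hk3 h8
          calc -(k * Real.log m) ≤
              -(1 / (2 * B) * (L / Real.log L) * Real.log m) := by linarith
            _ = _ := by ring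
  gcongr

theorem det_fix {σ₀ r c : ℝ} (hr : 0 < r) (hα : 1 / 2 < σ₀ - 2 * r) (hσ₀ : σ₀ < 1)
    (hc : 0 < c) :
    ∃ C L1 : ℝ, 0 < C ∧ 3 ≤ L1 ∧ ∀ (q : ℕ) [NeZero q] (L : ℝ), L = Real.log q → L1 ≤ L →
      ∀ N0 J : ℕ, 1 ≤ N0 → (N0 : ℝ) ≤ L ^ 3 → L ^ (24 / r + 4) ≤ (2 : ℝ) ^ J →
      ∀ (χ : DirichletCharacter ℂ q), χ ≠ 1 →
        (∀ s : ℂ, σ₀ - 2 * r ≤ s.re → |s.im| ≤ L → DirichletCharacter.LFunction χ s ≠ 0) →
        (∀ j < J, ∀ s : ℂ, σ₀ - r ≤ s.re → s.re ≤ 2 → |s.im| ≤ L →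
          ‖PB χ (2 ^ j * N0) (σ₀ - r) s‖ ≤
            Real.exp (-(c * j)) * (N0 : ℝ) ^ (1 - (σ₀ - r))) →
        ∀ σ : ℝ, σ₀ ≤ σ → σ < 1 → DirichletCharacter.LFunction χ (σ : ℂ) ≠ 0 ∧
          ‖deriv (DirichletCharacter.LFunction χ) (σ : ℂ) /
            DirichletCharacter.LFunction χ (σ : ℂ)‖ ≤ C / (1 - σ) * (N0 : ℝ) ^ (1 - σ) := by
  obtain ⟨C1, hC10, hC1⟩ := ZZ_bound (a := σ₀ - r) (c := c) (by linarith) (by linarith) hc
  obtain ⟨Ct, hCt0, hCt⟩ := tail_two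
  obtain ⟨L1, hL13, hL1⟩ := large3 (K1 := Real.exp 1 * (48 / r ^ 2 + 1)) (K2 := Real.exp 4 * Ct)
    (K3 := 2)
  obtain ⟨L2, hL23, hL2⟩ := large3 (K1 := C1 ^ 2) (K2 := 0) (K3 := 0)
  obtain ⟨L3, hL31, hL3⟩ := poly_exp (Real.exp 4 * (48 / r ^ 2 + 1)) (6 / r + 2) (δ := 1) one_pos
  obtain ⟨L4, hL41, hL4⟩ := poly_exp 192 1 (δ := 1) one_pos
  refine ⟨3 + C1, max (max L1 L2) (max (max L3 L4) 8), by positivity,
    hL13.trans ((le_max_left _ _).trans (le_max_left _ _)), ?_⟩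
  intro q _ L hLQ hL N0 J hN01 hN02 hJ χ hχ hz hblk σ hσ hσ1
  have g1 : L1 ≤ L := ((le_max_left _ _).trans (le_max_left _ _)).trans hL
  have g2 : L2 ≤ L := ((le_max_right _ _).trans (le_max_left _ _)).trans hL
  have g3 : L3 ≤ L :=
    (((le_max_left _ _).trans (le_max_left _ _)).trans (le_max_right _ _)).trans hL
  have g4 : L4 ≤ L :=
    (((le_max_right _ _).trans (le_max_left _ _)).trans (le_max_right _ _)).trans hL
  have g5 : 8 ≤ L := ((le_max_right _ _).trans (le_max_right _ _)).trans hL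
  obtain ⟨k1, k2, k3⟩ := hL1 L g1
  obtain ⟨k4, -, -⟩ := hL2 L g2
  have k5 := hL3 L g3
  have k6 := hL4 L g4
  have hLpos : 0 < L := by linarith
  have hN0r : (1 : ℝ) ≤ N0 := by exact_mod_cast hN01
  have hq0 : (0 : ℝ) < q := by exact_mod_cast Nat.pos_of_ne_zero (NeZero.ne q)
  have hQexp : (q : ℝ) = Real.exp L := by rw [hLQ, Real.exp_log hq0]
  have hr1 : r < 1 / 4 := by linarith
  -- nonvanishing
  have hne : DirichletCharacter.LFunction χ (σ : ℂ) ≠ 0 := by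
    apply hz
    · rw [Complex.ofReal_re]; linarith
    · rw [Complex.ofReal_im, abs_zero]; linarith
  refine ⟨hne, ?_⟩
  -- the bound of `ZZ` in the box
  set y : ℕ := 2 ^ J * N0 with hy
  have hZbox : ∀ s : ℂ, (σ₀ - 2 * r) + r ≤ s.re → s.re ≤ 2 → |s.im| ≤ L - 2 →
      ‖ZZ χ y s‖ ≤ L ^ 2 := by
    intro s h1 h2 h3
    have h4 := (hC1 q χ N0 J s hN01 (by linarith)
      (fun j hj => hblk j hj s (by linarith) h2 (by linarith))).2
    refine h4.trans ?_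
    have h5 : (N0 : ℝ) ^ (1 - (σ₀ - r)) ≤ (N0 : ℝ) ^ (1 / 2 : ℝ) :=
      Real.rpow_le_rpow_of_exponent_le hN0r (by linarith)
    have h6 : (C1 * (N0 : ℝ) ^ (1 / 2 : ℝ)) ^ 2 ≤ (L ^ 2) ^ 2 := by
      rw [mul_pow, ← Real.rpow_natCast (_ ^ (1 / 2 : ℝ)), ← Real.rpow_mul (by linarith)]
      norm_num
      calc C1 ^ 2 * (N0 : ℝ) ≤ L * L ^ 3 := by gcongr
        _ = (L ^ 2) ^ 2 := by ring
    have h7 : C1 * (N0 : ℝ) ^ (1 / 2 : ℝ) ≤ L ^ 2 := by
      have h8 : 0 ≤ C1 * (N0 : ℝ) ^ (1 / 2 : ℝ) := by positivity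
      exact le_of_abs_le (abs_le_of_sq_le_sq h6 (by positivity))
    exact (mul_le_mul_of_nonneg_left h5 hC10.le).trans h7
  -- the size of the logarithm
  have hqr : (1 : ℝ) ≤ q := by exact_mod_cast Nat.one_le_iff_ne_zero.2 (NeZero.ne q)
  have hB : 16 / r ^ 2 * Real.log (16 * ((q : ℝ) + 1) * (L + 5)) ≤ 48 / r ^ 2 * L ^ 2 := by
    have h1 : 16 * ((q : ℝ) + 1) * (L + 5) ≤ Real.exp L ^ 3 := by
      rw [Real.rpow_one, one_mul] at k6
      have h3 : 1 ≤ Real.exp L := Real.one_le_exp hLpos.le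
      calc 16 * ((q : ℝ) + 1) * (L + 5) ≤ 16 * (Real.exp L + Real.exp L) * (L + L) := by
            rw [hQexp]; gcongr; linarith
        _ = (64 * L) * Real.exp L := by ring
        _ ≤ (192 * L) * Real.exp L := by gcongr; norm_num
        _ ≤ Real.exp L * Real.exp L := by gcongr
        _ ≤ Real.exp L * Real.exp L * Real.exp L := by
            apply le_mul_of_one_le_right _ h3
            positivity
        _ = _ := by ring
    have h4 : Real.log (16 * ((q : ℝ) + 1) * (L + 5)) ≤ 3 * L := by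
      have h5 := Real.log_le_log (by positivity) h1
      rwa [Real.log_pow, Real.log_exp] at h5
    calc 16 / r ^ 2 * Real.log (16 * ((q : ℝ) + 1) * (L + 5)) ≤ 16 / r ^ 2 * (3 * L) := by
          gcongr
      _ = 48 / r ^ 2 * L := by ring
      _ ≤ 48 / r ^ 2 * L ^ 2 := by
          gcongr
          nlinarith
  have hypos : 1 ≤ y := Nat.mul_pos (by positivity) hN01
  have hD : ∀ s : ℂ, s.re = 2 →
      ‖deriv (DirichletCharacter.LFunction χ) s / DirichletCharacter.LFunction χ s + ZZ χ y s‖ ≤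
        Ct * (y : ℝ) ^ (-(1 / 4) : ℝ) := fun s hs => hCt q χ y s hs hypos
  have hR : 1 ≤ L ^ (3 / r) := Real.one_le_rpow (by linarith) (by positivity)
  have hmain := box_max (χ := χ) hχ (α := σ₀ - 2 * r) (r := r) (T := L) (R := L ^ (3 / r))
    (K := L ^ 2) (B := 48 / r ^ 2 * L ^ 2) (D := Ct * (y : ℝ) ^ (-(1 / 4) : ℝ)) (σ := σ) (y := y)
    hα.le hr hR (by positivity) (by linarith) (fun s h1 h2 => hz s h1.le h2) hZbox hB
    (by positivity) hD (by linarith) hσ1.le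
  have hR1 : (L ^ (3 / r)) ^ (-r) = L ^ (-3 : ℝ) := by
    rw [← Real.rpow_mul hLpos.le]; congr 1; field_simp
  have hR2 : (L ^ (3 / r)) ^ (2 : ℝ) = L ^ (6 / r) := by
    rw [← Real.rpow_mul hLpos.le]; congr 1; ring
  rw [hR1, hR2] at hmain
  have t1 : Real.exp 1 * (48 / r ^ 2 * L ^ 2 + L ^ 2) * L ^ (-3 : ℝ) ≤ 1 := by
    have e1 : L ^ (-3 : ℝ) = 1 / (L ^ 2 * L) := by
      rw [Real.rpow_neg hLpos.le, one_div]
      congr 1
      rw [show (3 : ℝ) = ((3 : ℕ) : ℝ) by norm_num, Real.rpow_natCast]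
      ring
    rw [e1, mul_one_div, div_le_one (by positivity)]
    calc Real.exp 1 * (48 / r ^ 2 * L ^ 2 + L ^ 2) = (Real.exp 1 * (48 / r ^ 2 + 1)) * L ^ 2 := by
          ring
      _ ≤ L * L ^ 2 := by gcongr
      _ = L ^ 2 * L := by ring
  have t2 : Real.exp 4 * L ^ (6 / r) * (Ct * (y : ℝ) ^ (-(1 / 4) : ℝ)) ≤ 1 := by
    have h1 : L ^ (24 / r + 4) ≤ (y : ℝ) := by
      refine hJ.trans ?_
      rw [hy]; push_cast
      have : (0 : ℝ) < (2 : ℝ) ^ J := by positivity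
      nlinarith
    have h2 : (y : ℝ) ^ (-(1 / 4) : ℝ) ≤ (L ^ (24 / r + 4)) ^ (-(1 / 4) : ℝ) :=
      Real.rpow_le_rpow_of_nonpos (by positivity) h1 (by norm_num)
    have h3 : (L ^ (24 / r + 4)) ^ (-(1 / 4) : ℝ) = L ^ (-(6 / r) : ℝ) * L⁻¹ := by
      rw [← Real.rpow_mul hLpos.le, ← Real.rpow_neg_one, ← Real.rpow_add hLpos]
      congr 1; ring
    rw [h3] at h2
    have h4 : L ^ (6 / r) * L ^ (-(6 / r) : ℝ) = 1 := by
      rw [← Real.rpow_add hLpos]; simp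
    calc Real.exp 4 * L ^ (6 / r) * (Ct * (y : ℝ) ^ (-(1 / 4) : ℝ)) ≤
        Real.exp 4 * L ^ (6 / r) * (Ct * (L ^ (-(6 / r) : ℝ) * L⁻¹)) := by gcongr
      _ = (Real.exp 4 * Ct) * (L ^ (6 / r) * L ^ (-(6 / r) : ℝ)) * L⁻¹ := by ring
      _ = (Real.exp 4 * Ct) * L⁻¹ := by rw [h4, mul_one]
      _ ≤ L * L⁻¹ := by gcongr
      _ = 1 := mul_inv_cancel₀ hLpos.ne'
  have t3 : Real.exp (4 - (L - 2) ^ 2) * L ^ (6 / r) * (48 / r ^ 2 * L ^ 2 + L ^ 2) ≤ 1 := by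
    have h1 : Real.exp (4 - (L - 2) ^ 2) ≤ Real.exp 4 * Real.exp (-L) := by
      rw [← Real.exp_add]
      apply Real.exp_le_exp.2
      nlinarith
    have h2 : L ^ (6 / r + 2) = L ^ (6 / r) * L ^ 2 := by
      rw [Real.rpow_add hLpos, show (2 : ℝ) = ((2 : ℕ) : ℝ) by norm_num, Real.rpow_natCast]
    rw [h2, one_mul] at k5
    calc Real.exp (4 - (L - 2) ^ 2) * L ^ (6 / r) * (48 / r ^ 2 * L ^ 2 + L ^ 2) ≤
        Real.exp 4 * Real.exp (-L) * L ^ (6 / r) * (48 / r ^ 2 * L ^ 2 + L ^ 2) := by gcongr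
      _ = (Real.exp 4 * (48 / r ^ 2 + 1) * (L ^ (6 / r) * L ^ 2)) * Real.exp (-L) := by ring
      _ ≤ Real.exp L * Real.exp (-L) := by gcongr
      _ = 1 := by rw [← Real.exp_add]; simp
  have hdiff : ‖deriv (DirichletCharacter.LFunction χ) (σ : ℂ) /
      DirichletCharacter.LFunction χ (σ : ℂ) + ZZ χ y (σ : ℂ)‖ ≤ 3 := by linarith
  -- the bound for `ZZ` at `σ`
  have hZσ := (hC1 q χ N0 J (σ : ℂ) hN01 (by rw [Complex.ofReal_re]; linarith)
      (fun j hj => hblk j hj (σ : ℂ) (by rw [Complex.ofReal_re]; linarith)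
        (by rw [Complex.ofReal_re]; linarith)
        (by rw [Complex.ofReal_im, abs_zero]; linarith))).1 (by rw [Complex.ofReal_re]; exact hσ1)
  rw [Complex.ofReal_re] at hZσ
  have h1σ : 0 < 1 - σ := by linarith
  have hW1 : 1 ≤ (N0 : ℝ) ^ (1 - σ) := Real.one_le_rpow hN0r h1σ.le
  have hinv : 1 ≤ 1 / (1 - σ) := by
    rw [le_div_iff₀ h1σ]; linarith
  have h3 : 3 ≤ 3 / (1 - σ) * (N0 : ℝ) ^ (1 - σ) := by
    have : 1 ≤ 1 / (1 - σ) * (N0 : ℝ) ^ (1 - σ) := by nlinarith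
    calc (3 : ℝ) ≤ 3 * (1 / (1 - σ) * (N0 : ℝ) ^ (1 - σ)) := by linarith
      _ = _ := by ring
  have e : deriv (DirichletCharacter.LFunction χ) (σ : ℂ) /
      DirichletCharacter.LFunction χ (σ : ℂ) = (deriv (DirichletCharacter.LFunction χ) (σ : ℂ) /
      DirichletCharacter.LFunction χ (σ : ℂ) + ZZ χ y (σ : ℂ)) - ZZ χ y (σ : ℂ) := by ring
  rw [e]
  refine (norm_sub_le _ _).trans ((add_le_add hdiff hZσ).trans ?_)
  calc 3 + C1 / (1 - σ) * (N0 : ℝ) ^ (1 - σ) ≤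
      3 / (1 - σ) * (N0 : ℝ) ^ (1 - σ) + C1 / (1 - σ) * (N0 : ℝ) ^ (1 - σ) := by linarith
    _ = _ := by ring

end Run7.h837
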