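import Pool.Agent.Run7.h837.Trunc
import Pool.Agent.Run7.h837.Divb
import Pool.Agent.Helper112.MultLS

/-!
# Mean square of `L M - 1`
-/

set_option autoImplicit false

namespace Run7.h837

open Complex Finset

open scoped ArithmeticFunction

/-- `L(s, χ)`, for an arbitrary modulus -/
noncomputable def LL {q : ℕ} (χ : DirichletCharacter ℂ q) (s : ℂ) : ℂ :=
  if h : q = 0 then 0 else
    haveI : NeZero q := ⟨h⟩
    DirichletCharacter.LFunction χ s

lemma LL_eq {q : ℕ} [NeZero q] (χ : DirichletCharacter ℂ q) :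
    LL χ = DirichletCharacter.LFunction χ := by
  funext s
  unfold LL
  rw [dif_neg (NeZero.ne q)]

/-- the mollifier -/
noncomputable def MM {q : ℕ} (χ : DirichletCharacter ℂ q) (X : ℕ) (s : ℂ) : ℂ :=
  ∑ m ∈ Icc 1 X, ((ArithmeticFunction.moebius m : ℤ) : ℂ) * (χ (m : ZMod q) * (m : ℂ) ^ (-s))

/-- the truncated Dirichlet series -/
noncomputable def LN {q : ℕ} (χ : DirichletCharacter ℂ q) (N : ℕ) (s : ℂ) : ℂ :=
  ∑ n ∈ Icc 1 N, χ (n : ZMod q) * (n : ℂ) ^ (-s)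

/-- the coefficients of the product -/
noncomputable def bb (N X l : ℕ) : ℤ :=
  ∑ p ∈ ((Icc 1 N) ×ˢ (Icc 1 X)).filter (fun p => p.1 * p.2 = l), ArithmeticFunction.moebius p.2

lemma LN_mul_MM {q : ℕ} (χ : DirichletCharacter ℂ q) (N X : ℕ) (s : ℂ) :
    LN χ N s * MM χ X s =
      ∑ l ∈ Icc 1 (N * X), ((bb N X l : ℤ) : ℂ) * (l : ℂ) ^ (-s) * χ (l : ZMod q) := by
  unfold LN MM
  rw [sum_mul_sum, ← sum_product']
  have hmaps : ∀ p ∈ (Icc 1 N) ×ˢ (Icc 1 X), p.1 * p.2 ∈ Icc 1 (N * X) := by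
    intro p hp
    rw [mem_product, mem_Icc, mem_Icc] at hp
    rw [mem_Icc]
    exact ⟨Nat.mul_pos hp.1.1 hp.2.1, Nat.mul_le_mul hp.1.2 hp.2.2⟩
  rw [← sum_fiberwise_of_maps_to hmaps]
  refine sum_congr rfl fun l hl => ?_
  unfold bb
  push_cast
  rw [sum_mul, sum_mul]
  refine sum_congr rfl fun p hp => ?_
  rw [mem_filter, mem_product, mem_Icc, mem_Icc] at hp
  obtain ⟨⟨⟨h1, h2⟩, h3, h4⟩, h5⟩ := hp
  rw [← h5]
  push_cast
  rw [map_mul, Complex.natCast_mul_natCast_cpow]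
  ring

lemma bb_one {N X : ℕ} (hN : 1 ≤ N) (hX : 1 ≤ X) : bb N X 1 = 1 := by
  unfold bb
  have : ((Icc 1 N) ×ˢ (Icc 1 X)).filter (fun p => p.1 * p.2 = 1) = {(1, 1)} := by
    ext p
    simp only [mem_filter, mem_product, mem_Icc, mem_singleton, mul_eq_one]
    constructor
    · rintro ⟨_, h1, h2⟩
      exact Prod.ext h1 h2
    · intro h
      rw [h]
      exact ⟨⟨⟨le_refl _, hN⟩, le_refl _, hX⟩, rfl, rfl⟩
  rw [this, sum_singleton]
  simp

lemma bb_zero {N X l : ℕ} (h1 : 1 < l) (hN : l ≤ N) (hX : l ≤ X) : bb N X l = 0 := by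
  unfold bb
  have e : ((Icc 1 N) ×ˢ (Icc 1 X)).filter (fun p => p.1 * p.2 = l) = l.divisorsAntidiagonal := by
    ext p
    simp only [mem_filter, mem_product, mem_Icc, Nat.mem_divisorsAntidiagonal]
    constructor
    · rintro ⟨_, h2⟩
      exact ⟨h2, by omega⟩
    · rintro ⟨h2, h3⟩
      have hp1 : 0 < p.1 := Nat.pos_of_ne_zero (by rintro h; rw [h] at h2; omega)
      have hp2 : 0 < p.2 := Nat.pos_of_ne_zero (by rintro h; rw [h] at h2; omega)
      have h4 : p.1 ≤ l := by rw [← h2]; exact Nat.le_mul_of_pos_right _ hp2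
      have h5 : p.2 ≤ l := by rw [← h2]; exact Nat.le_mul_of_pos_left _ hp1
      exact ⟨⟨⟨hp1, h4.trans hN⟩, hp2, h5.trans hX⟩, h2⟩
  rw [e]
  have h6 := congrArg (fun f : ArithmeticFunction ℤ => f l) ArithmeticFunction.coe_zeta_mul_moebius
  simp only [ArithmeticFunction.mul_apply] at h6
  rw [ArithmeticFunction.one_apply_ne (by omega)] at h6
  rw [← h6]
  refine sum_congr rfl fun p hp => ?_
  rw [Nat.mem_divisorsAntidiagonal] at hp
  have hp1 : p.1 ≠ 0 := by rintro h; rw [h] at hp; omega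
  rw [ArithmeticFunction.natCoe_apply, ArithmeticFunction.zeta_apply_ne hp1]
  simp

lemma bb_le (N X l : ℕ) : |(bb N X l : ℝ)| ≤ l.divisors.card := by
  unfold bb
  push_cast
  refine (abs_sum_le_sum_abs _ _).trans ?_
  calc ∑ p ∈ ((Icc 1 N) ×ˢ (Icc 1 X)).filter (fun p => p.1 * p.2 = l),
        |((ArithmeticFunction.moebius p.2 : ℤ) : ℝ)| ≤
      ∑ p ∈ ((Icc 1 N) ×ˢ (Icc 1 X)).filter (fun p => p.1 * p.2 = l), (1 : ℝ) := by
        refine sum_le_sum fun p _ => ?_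
        have := ArithmeticFunction.abs_moebius_le_one (n := p.2)
        exact_mod_cast this
    _ = (((Icc 1 N) ×ˢ (Icc 1 X)).filter (fun p => p.1 * p.2 = l)).card := by simp
    _ ≤ l.divisors.card := by
        have : (((Icc 1 N) ×ˢ (Icc 1 X)).filter (fun p => p.1 * p.2 = l)).card ≤
            l.divisors.card := by
          apply card_le_card_of_injOn (fun p => p.2)
          · intro p hp
            rw [mem_coe, mem_filter, mem_product, mem_Icc, mem_Icc] at hp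
            rw [mem_coe, Nat.mem_divisors]
            refine ⟨⟨p.1, by rw [← hp.2, mul_comm]⟩, ?_⟩
            have := Nat.mul_pos hp.1.1.1 hp.1.2.1
            omega
          · intro p hp p' hp' h
            rw [mem_coe, mem_filter, mem_product, mem_Icc, mem_Icc] at hp hp'
            simp only at h
            have h1 : p.1 * p.2 = p'.1 * p.2 := by rw [hp.2, h, hp'.2]
            exact Prod.ext (Nat.eq_of_mul_eq_mul_right hp.1.2.1 h1) h
        exact_mod_cast this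

open Classical in
/-- the sum over the primitive characters modulo `q` -/
noncomputable def prim (q : ℕ) : Finset (DirichletCharacter ℂ q) :=
  (univ : Finset (DirichletCharacter ℂ q)).filter (fun χ => χ.IsPrimitive)

lemma mem_prim {q : ℕ} {χ : DirichletCharacter ℂ q} : χ ∈ prim q ↔ χ.IsPrimitive := by
  classical
  simp [prim]

/-- large sieve for primitive characters -/
lemma ls_prim (N Q : ℕ) (a : ℕ → ℂ) :
    ∑ q ∈ Icc 2 Q, ∑ χ ∈ prim q, ‖∑ n ∈ Icc 1 N, a n * χ (n : ZMod q)‖ ^ 2 ≤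
      6 * (N + (Q : ℝ) ^ 2) * ∑ n ∈ Icc 1 N, ‖a n‖ ^ 2 := by
  refine le_trans ?_ (Pool.Agent.Helper112.mult_large_sieve N Q a)
  have hsub : Icc 2 Q ⊆ Icc 1 Q := Icc_subset_Icc (by norm_num) le_rfl
  refine le_trans ?_ (sum_le_sum_of_subset_of_nonneg hsub ?_)
  · refine sum_le_sum fun f hf => ?_
    rw [mem_Icc] at hf
    unfold prim
    refine le_mul_of_one_le_left (sum_nonneg fun χ _ => sq_nonneg _) ?_
    have h2 : (0 : ℝ) < (Nat.totient f : ℝ) := by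
      exact_mod_cast Nat.totient_pos.2 (by omega)
    rw [one_le_div h2]
    exact_mod_cast Nat.totient_le f
  · intro q _ _
    apply mul_nonneg
    · positivity
    · exact sum_nonneg fun χ _ => sq_nonneg _

lemma prim_ne_one {q : ℕ} (hq : 2 ≤ q) {χ : DirichletCharacter ℂ q} (h : χ.IsPrimitive) :
    χ ≠ 1 := by
  have : NeZero q := ⟨by omega⟩
  rintro rfl
  rw [DirichletCharacter.isPrimitive_def, DirichletCharacter.conductor_one] at h
  omega

/-- sums of squares of the coefficients -/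
lemma coef_sq {α : ℝ} (hα : 1 / 2 < α) {ε : ℝ} (hε : 0 < ε) : ∃ C : ℝ, 0 < C ∧
    ∀ Q M : ℕ, 1 ≤ Q → ∀ (N X : ℕ) (s : ℂ), α ≤ s.re →
      ∑ l ∈ Ioc Q M, ‖((bb N X l : ℤ) : ℂ) * (l : ℂ) ^ (-s)‖ ^ 2 ≤
        C * (Q : ℝ) ^ (1 - 2 * α + ε) := by
  set e : ℝ := min (ε / 4) ((2 * α - 1) / 8) with he
  have he0 : 0 < e := lt_min (by positivity) (by linarith)
  have he1 : e ≤ ε / 4 := min_le_left _ _
  have he2 : e ≤ (2 * α - 1) / 8 := min_le_right _ _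
  obtain ⟨C, hC1, hC⟩ := div_bound he0
  have hsumm : Summable (fun n : ℕ => 1 / (n : ℝ) ^ (1 + e)) :=
    Real.summable_one_div_nat_rpow.2 (by linarith)
  set K : ℝ := ∑' n : ℕ, 1 / (n : ℝ) ^ (1 + e) with hK
  have hK0 : 0 ≤ K := tsum_nonneg fun n => by positivity
  refine ⟨C ^ 2 * (K + 1), by positivity, ?_⟩
  intro Q M hQ N X s hs
  have hQ0 : (0 : ℝ) < Q := by exact_mod_cast hQ
  have hQ1 : (1 : ℝ) ≤ Q := by exact_mod_cast hQ
  have hterm : ∀ l ∈ Ioc Q M, ‖((bb N X l : ℤ) : ℂ) * (l : ℂ) ^ (-s)‖ ^ 2 ≤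
      C ^ 2 * (Q : ℝ) ^ (1 - 2 * α + ε) * (1 / (l : ℝ) ^ (1 + e)) := by
    intro l hl
    rw [mem_Ioc] at hl
    have hl0 : l ≠ 0 := by omega
    have hlp : (0 : ℝ) < l := by exact_mod_cast Nat.pos_of_ne_zero hl0
    have hl1 : (1 : ℝ) ≤ l := by exact_mod_cast (by omega : 1 ≤ l)
    have hQl : (Q : ℝ) ≤ l := by exact_mod_cast hl.1.le
    rw [norm_mul, norm_natCast_cpow_of_pos (Nat.pos_of_ne_zero hl0), Complex.norm_intCast, mul_pow, neg_re]
    have h1 : |((bb N X l : ℤ) : ℝ)| ^ 2 ≤ (C * (l : ℝ) ^ e) ^ 2 :=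
      pow_le_pow_left₀ (abs_nonneg _) ((bb_le N X l).trans (hC l hl0)) 2
    have h2 : ((l : ℝ) ^ (-s.re)) ^ 2 ≤ ((l : ℝ) ^ (-α)) ^ 2 :=
      pow_le_pow_left₀ (by positivity) (Real.rpow_le_rpow_of_exponent_le hl1 (by linarith)) 2
    have h3 : (C * (l : ℝ) ^ e) ^ 2 * ((l : ℝ) ^ (-α)) ^ 2 =
        C ^ 2 * ((l : ℝ) ^ (1 - 2 * α + 3 * e) * (1 / (l : ℝ) ^ (1 + e))) := by
      have e1 : (1 : ℝ) / (l : ℝ) ^ (1 + e) = (l : ℝ) ^ (-(1 + e)) := by
        rw [Real.rpow_neg hlp.le, one_div]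
      rw [e1, ← Real.rpow_add hlp, mul_pow, ← Real.rpow_natCast, ← Real.rpow_natCast,
        ← Real.rpow_natCast, ← Real.rpow_mul hlp.le, ← Real.rpow_mul hlp.le, mul_assoc,
        ← Real.rpow_add hlp]
      congr 2
      push_cast
      ring
    have h4 : (l : ℝ) ^ (1 - 2 * α + 3 * e) ≤ (Q : ℝ) ^ (1 - 2 * α + 3 * e) :=
      Real.rpow_le_rpow_of_nonpos hQ0 hQl (by linarith)
    have h5 : (Q : ℝ) ^ (1 - 2 * α + 3 * e) ≤ (Q : ℝ) ^ (1 - 2 * α + ε) :=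
      Real.rpow_le_rpow_of_exponent_le hQ1 (by linarith)
    calc |((bb N X l : ℤ) : ℝ)| ^ 2 * ((l : ℝ) ^ (-s.re)) ^ 2 ≤
        (C * (l : ℝ) ^ e) ^ 2 * ((l : ℝ) ^ (-α)) ^ 2 := by gcongr
      _ = C ^ 2 * ((l : ℝ) ^ (1 - 2 * α + 3 * e) * (1 / (l : ℝ) ^ (1 + e))) := h3
      _ ≤ C ^ 2 * ((Q : ℝ) ^ (1 - 2 * α + ε) * (1 / (l : ℝ) ^ (1 + e))) := by
          gcongr
          exact h4.trans h5
      _ = _ := by ring
  refine (sum_le_sum hterm).trans ?_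
  rw [← mul_sum]
  have h6 : ∑ l ∈ Ioc Q M, 1 / (l : ℝ) ^ (1 + e) ≤ K :=
    hsumm.sum_le_tsum _ (fun n _ => by positivity)
  have h7 : 0 ≤ C ^ 2 * (Q : ℝ) ^ (1 - 2 * α + ε) := by positivity
  calc C ^ 2 * (Q : ℝ) ^ (1 - 2 * α + ε) * ∑ l ∈ Ioc Q M, 1 / (l : ℝ) ^ (1 + e) ≤
      C ^ 2 * (Q : ℝ) ^ (1 - 2 * α + ε) * K := mul_le_mul_of_nonneg_left h6 h7
    _ ≤ C ^ 2 * (Q : ℝ) ^ (1 - 2 * α + ε) * (K + 1) := by gcongr; linarith
    _ = _ := by ring

end Run7.h837
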