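import Pool.Agent.Run7.h837.Moll

/-!
# Mean square of `L M - 1` over the primitive characters of conductor at most `Q`
-/

set_option autoImplicit false

namespace Run7.h837

open Complex Finset

lemma a_eq {q : ℕ} (χ : DirichletCharacter ℂ q) {Q : ℕ} (hQ : 1 ≤ Q) (s : ℂ) :
    LN χ Q s * MM χ Q s - 1 = ∑ l ∈ Icc 1 (Q * Q),
      (if Q < l then ((bb Q Q l : ℤ) : ℂ) * (l : ℂ) ^ (-s) else 0) * χ (l : ZMod q) := by
  rw [LN_mul_MM]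
  have hQQ : 1 ≤ Q * Q := Nat.mul_pos hQ hQ
  have h1 : ∑ l ∈ Icc 1 (Q * Q), (if l = 1 then (1 : ℂ) else 0) = 1 := by
    rw [sum_ite_eq' (Icc 1 (Q * Q)) 1 (fun _ => (1 : ℂ)), if_pos (mem_Icc.2 ⟨le_rfl, hQQ⟩)]
  nth_rw 1 [← h1]
  rw [← sum_sub_distrib]
  refine sum_congr rfl fun l hl => ?_
  rw [mem_Icc] at hl
  by_cases hl1 : l = 1
  · subst hl1
    rw [if_pos rfl, if_neg (by omega), bb_one hQ hQ]
    simp
  · rw [if_neg hl1, sub_zero]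
    by_cases hlQ : Q < l
    · rw [if_pos hlQ]
    · rw [if_neg hlQ, bb_zero (by omega) (by omega) (by omega)]
      simp

lemma sum_a {α ε : ℝ} (hα : 1 / 2 < α) (hε : 0 < ε) : ∃ C : ℝ, 0 < C ∧ ∀ Q : ℕ, 2 ≤ Q →
    ∀ s : ℂ, α ≤ s.re →
      ∑ q ∈ Icc 2 Q, ∑ χ ∈ prim q, ‖LN χ Q s * MM χ Q s - 1‖ ^ 2 ≤
        C * (Q : ℝ) ^ (3 - 2 * α + ε) := by
  obtain ⟨C, hC, hcoef⟩ := coef_sq hα hε
  refine ⟨12 * C, by positivity, ?_⟩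
  intro Q hQ s hs
  have hQ0 : (0 : ℝ) < Q := by exact_mod_cast (by omega : 0 < Q)
  set c : ℕ → ℂ := fun l => if Q < l then ((bb Q Q l : ℤ) : ℂ) * (l : ℂ) ^ (-s) else 0 with hc
  have h1 : ∑ q ∈ Icc 2 Q, ∑ χ ∈ prim q, ‖LN χ Q s * MM χ Q s - 1‖ ^ 2 =
      ∑ q ∈ Icc 2 Q, ∑ χ ∈ prim q, ‖∑ l ∈ Icc 1 (Q * Q), c l * χ (l : ZMod q)‖ ^ 2 := by
    refine sum_congr rfl fun q _ => sum_congr rfl fun χ _ => ?_
    rw [a_eq χ (by omega) s]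
  rw [h1]
  refine (ls_prim (Q * Q) Q c).trans ?_
  have h2 : ∑ n ∈ Icc 1 (Q * Q), ‖c n‖ ^ 2 ≤ C * (Q : ℝ) ^ (1 - 2 * α + ε) := by
    refine le_trans (le_of_eq ?_) (hcoef Q (Q * Q) (by omega) Q Q s hs)
    symm
    have hsub : Ioc Q (Q * Q) ⊆ Icc 1 (Q * Q) := by
      intro l hl
      rw [mem_Ioc] at hl
      exact mem_Icc.2 ⟨by omega, hl.2⟩
    rw [← sum_subset hsub]
    · refine sum_congr rfl fun l hl => ?_
      rw [mem_Ioc] at hl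
      rw [hc]
      simp only
      rw [if_pos hl.1]
    · intro l hl hl'
      rw [mem_Icc] at hl
      rw [mem_Ioc] at hl'
      rw [hc]
      simp only
      rw [if_neg (by omega), norm_zero]
      norm_num
  have h3 : (((Q * Q : ℕ) : ℝ) + (Q : ℝ) ^ 2) = 2 * (Q : ℝ) ^ 2 := by push_cast; ring
  rw [h3]
  calc 6 * (2 * (Q : ℝ) ^ 2) * ∑ n ∈ Icc 1 (Q * Q), ‖c n‖ ^ 2 ≤
      6 * (2 * (Q : ℝ) ^ 2) * (C * (Q : ℝ) ^ (1 - 2 * α + ε)) := by gcongr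
    _ = 12 * C * ((Q : ℝ) ^ (2 : ℕ) * (Q : ℝ) ^ (1 - 2 * α + ε)) := by ring
    _ = 12 * C * (Q : ℝ) ^ (3 - 2 * α + ε) := by
        rw [← Real.rpow_natCast, ← Real.rpow_add hQ0]
        congr 2
        push_cast
        ring

lemma sum_M {α : ℝ} (hα : 1 / 2 < α) : ∃ C : ℝ, 0 < C ∧ ∀ Q : ℕ, 2 ≤ Q →
    ∀ s : ℂ, α ≤ s.re → ∑ q ∈ Icc 2 Q, ∑ χ ∈ prim q, ‖MM χ Q s‖ ^ 2 ≤ C * (Q : ℝ) ^ 2 := by
  have hsumm : Summable (fun n : ℕ => 1 / (n : ℝ) ^ (2 * α)) :=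
    Real.summable_one_div_nat_rpow.2 (by linarith)
  set K : ℝ := ∑' n : ℕ, 1 / (n : ℝ) ^ (2 * α) with hK
  have hK0 : 0 ≤ K := tsum_nonneg fun n => by positivity
  refine ⟨12 * (K + 1), by positivity, ?_⟩
  intro Q hQ s hs
  have hQ1 : (1 : ℝ) ≤ Q := by exact_mod_cast (by omega : 1 ≤ Q)
  set c : ℕ → ℂ := fun m => ((ArithmeticFunction.moebius m : ℤ) : ℂ) * (m : ℂ) ^ (-s) with hc
  have h1 : ∑ q ∈ Icc 2 Q, ∑ χ ∈ prim q, ‖MM χ Q s‖ ^ 2 =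
      ∑ q ∈ Icc 2 Q, ∑ χ ∈ prim q, ‖∑ l ∈ Icc 1 Q, c l * χ (l : ZMod q)‖ ^ 2 := by
    refine sum_congr rfl fun q _ => sum_congr rfl fun χ _ => ?_
    unfold MM
    congr 2
    refine sum_congr rfl fun l _ => ?_
    rw [hc]
    ring
  rw [h1]
  refine (ls_prim Q Q c).trans ?_
  have h2 : ∑ n ∈ Icc 1 Q, ‖c n‖ ^ 2 ≤ K + 1 := by
    have h3 : ∀ n ∈ Icc 1 Q, ‖c n‖ ^ 2 ≤ 1 / (n : ℝ) ^ (2 * α) := by
      intro n hn
      rw [mem_Icc] at hn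
      have hn0 : (0 : ℝ) < n := by exact_mod_cast hn.1
      have hn1 : (1 : ℝ) ≤ n := by exact_mod_cast hn.1
      rw [hc]
      simp only
      rw [norm_mul, norm_natCast_cpow_of_pos hn.1, Complex.norm_intCast, mul_pow, neg_re]
      have h4 : |((ArithmeticFunction.moebius n : ℤ) : ℝ)| ^ 2 ≤ 1 := by
        have h5 : |((ArithmeticFunction.moebius n : ℤ) : ℝ)| ≤ 1 := by
          exact_mod_cast (ArithmeticFunction.abs_moebius_le_one (n := n))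
        exact pow_le_one₀ (abs_nonneg _) h5
      have h6 : ((n : ℝ) ^ (-s.re)) ^ 2 ≤ 1 / (n : ℝ) ^ (2 * α) := by
        rw [one_div, ← Real.rpow_neg hn0.le, ← Real.rpow_natCast, ← Real.rpow_mul hn0.le]
        apply Real.rpow_le_rpow_of_exponent_le hn1
        push_cast
        linarith
      calc _ ≤ 1 * (1 / (n : ℝ) ^ (2 * α)) := by gcongr
        _ = _ := one_mul _
    refine (sum_le_sum h3).trans ?_
    have := hsumm.sum_le_tsum (Icc 1 Q) (fun n _ => by positivity)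
    linarith
  have h3 : (Q : ℝ) + (Q : ℝ) ^ 2 ≤ 2 * (Q : ℝ) ^ 2 := by nlinarith
  calc 6 * ((Q : ℝ) + (Q : ℝ) ^ 2) * ∑ n ∈ Icc 1 Q, ‖c n‖ ^ 2 ≤
      6 * (2 * (Q : ℝ) ^ 2) * (K + 1) := by gcongr
    _ = _ := by ring

/-- **Mean square of `L M - 1`.** -/
theorem ms_avg {α ε : ℝ} (hα : 1 / 2 < α) (hε : 0 < ε) : ∃ C : ℝ, 0 < C ∧ ∀ Q : ℕ, 2 ≤ Q →
    ∀ s : ℂ, α ≤ s.re →
      ∑ q ∈ Icc 2 Q, ∑ χ ∈ prim q, ‖LL χ s * MM χ Q s - 1‖ ^ 2 ≤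
        C * (1 + ‖s‖) ^ 2 * (Q : ℝ) ^ (3 - 2 * α + ε) := by
  obtain ⟨C1, hC1, h1⟩ := sum_a hα hε
  obtain ⟨C2, hC2, h2⟩ := sum_M hα
  obtain ⟨C3, hC3, h3⟩ := trunc_bound
  refine ⟨2 * C1 + 2 * ((C3 * (2 / ε) * 2) ^ 2 * C2), by positivity, ?_⟩
  intro Q hQ s hs
  have hQ0 : (0 : ℝ) < Q := by exact_mod_cast (by omega : 0 < Q)
  have hQ1 : (1 : ℝ) ≤ Q := by exact_mod_cast (by omega : 1 ≤ Q)
  have hs0 : 0 < s.re := by linarith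
  have hterm : ∀ q ∈ Icc 2 Q, ∀ χ ∈ prim q, ‖LL χ s * MM χ Q s - 1‖ ^ 2 ≤
      2 * ‖LN χ Q s * MM χ Q s - 1‖ ^ 2 +
        2 * ((C3 * (2 / ε) * 2) ^ 2 * ‖s‖ ^ 2 * (Q : ℝ) ^ (1 - 2 * α + ε) * ‖MM χ Q s‖ ^ 2) := by
    intro q hq χ hχ
    rw [mem_Icc] at hq
    have hnz : NeZero q := ⟨by omega⟩
    rw [mem_prim] at hχ
    have hne := prim_ne_one hq.1 hχ
    have e1 : LL χ s * MM χ Q s - 1 = (LN χ Q s * MM χ Q s - 1) +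
        (LL χ s - LN χ Q s) * MM χ Q s := by ring
    have e2 : ‖LL χ s * MM χ Q s - 1‖ ^ 2 ≤ 2 * ‖LN χ Q s * MM χ Q s - 1‖ ^ 2 +
        2 * ‖(LL χ s - LN χ Q s) * MM χ Q s‖ ^ 2 := by
      rw [e1]
      have := norm_add_le (LN χ Q s * MM χ Q s - 1) ((LL χ s - LN χ Q s) * MM χ Q s)
      have h4 := pow_le_pow_left₀ (norm_nonneg _) this 2
      nlinarith [sq_nonneg (‖LN χ Q s * MM χ Q s - 1‖ - ‖(LL χ s - LN χ Q s) * MM χ Q s‖)]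
    refine e2.trans ?_
    gcongr
    rw [norm_mul, mul_pow]
    apply mul_le_mul_of_nonneg_right _ (by positivity)
    have h5 := h3 q χ hq.1 hne Q (by omega) s hs0
    rw [← LL_eq] at h5
    have h6 : ‖LL χ s - LN χ Q s‖ ≤ C3 * (2 / ε) * 2 * ‖s‖ * (Q : ℝ) ^ ((1 - 2 * α + ε) / 2) := by
      refine h5.trans ?_
      have hq1 : (1 : ℝ) ≤ q := by exact_mod_cast (by omega : 1 ≤ q)
      have hqQ : (q : ℝ) ≤ Q := by exact_mod_cast hq.2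
      have a1 : √(q : ℝ) ≤ (Q : ℝ) ^ (1 / 2 : ℝ) := by
        rw [Real.sqrt_eq_rpow]
        exact Real.rpow_le_rpow (by linarith) hqQ (by norm_num)
      have a2 : Real.log q ≤ (2 / ε) * (Q : ℝ) ^ (ε / 2) := by
        have := Real.log_le_rpow_div hQ0.le (ε := ε / 2) (by positivity)
        have h7 := Real.log_le_log (by linarith) hqQ
        calc Real.log q ≤ (Q : ℝ) ^ (ε / 2) / (ε / 2) := h7.trans this
          _ = _ := by field_simp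
      have a2' : 0 ≤ Real.log q := Real.log_nonneg hq1
      have a3 : ‖s‖ / s.re ≤ 2 * ‖s‖ := by
        rw [div_le_iff₀ hs0]
        nlinarith [norm_nonneg s]
      have a4 : (Q : ℝ) ^ (-s.re) ≤ (Q : ℝ) ^ (-α) :=
        Real.rpow_le_rpow_of_exponent_le hQ1 (by linarith)
      calc C3 * √(q : ℝ) * Real.log q * (‖s‖ / s.re) * (Q : ℝ) ^ (-s.re) ≤
          C3 * (Q : ℝ) ^ (1 / 2 : ℝ) * ((2 / ε) * (Q : ℝ) ^ (ε / 2)) * (2 * ‖s‖) *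
            (Q : ℝ) ^ (-α) := by gcongr
        _ = C3 * (2 / ε) * 2 * ‖s‖ * ((Q : ℝ) ^ (1 / 2 : ℝ) * (Q : ℝ) ^ (ε / 2) *
            (Q : ℝ) ^ (-α)) := by ring
        _ = C3 * (2 / ε) * 2 * ‖s‖ * (Q : ℝ) ^ ((1 - 2 * α + ε) / 2) := by
            rw [← Real.rpow_add hQ0, ← Real.rpow_add hQ0]
            congr 2
            ring
    have h7 := pow_le_pow_left₀ (norm_nonneg _) h6 2
    refine h7.trans (le_of_eq ?_)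
    rw [mul_pow, mul_pow, ← Real.rpow_natCast ((Q : ℝ) ^ ((1 - 2 * α + ε) / 2)),
      ← Real.rpow_mul hQ0.le]
    congr 2
    push_cast
    ring
  calc ∑ q ∈ Icc 2 Q, ∑ χ ∈ prim q, ‖LL χ s * MM χ Q s - 1‖ ^ 2 ≤
      ∑ q ∈ Icc 2 Q, ∑ χ ∈ prim q, (2 * ‖LN χ Q s * MM χ Q s - 1‖ ^ 2 +
        2 * ((C3 * (2 / ε) * 2) ^ 2 * ‖s‖ ^ 2 * (Q : ℝ) ^ (1 - 2 * α + ε) * ‖MM χ Q s‖ ^ 2)) :=
        sum_le_sum fun q hq => sum_le_sum fun χ hχ => hterm q hq χ hχ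
    _ = 2 * (∑ q ∈ Icc 2 Q, ∑ χ ∈ prim q, ‖LN χ Q s * MM χ Q s - 1‖ ^ 2) +
        2 * ((C3 * (2 / ε) * 2) ^ 2 * ‖s‖ ^ 2 * (Q : ℝ) ^ (1 - 2 * α + ε) *
          ∑ q ∈ Icc 2 Q, ∑ χ ∈ prim q, ‖MM χ Q s‖ ^ 2) := by
        simp only [sum_add_distrib, mul_sum]
    _ ≤ 2 * (C1 * (Q : ℝ) ^ (3 - 2 * α + ε)) +
        2 * ((C3 * (2 / ε) * 2) ^ 2 * ‖s‖ ^ 2 * (Q : ℝ) ^ (1 - 2 * α + ε) *
          (C2 * (Q : ℝ) ^ 2)) := by
        gcongr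
        · exact h1 Q hQ s hs
        · exact h2 Q hQ s hs
    _ = (2 * C1 + 2 * ((C3 * (2 / ε) * 2) ^ 2 * C2) * ‖s‖ ^ 2) * (Q : ℝ) ^ (3 - 2 * α + ε) := by
        have e : (Q : ℝ) ^ (3 - 2 * α + ε) = (Q : ℝ) ^ (1 - 2 * α + ε) * (Q : ℝ) ^ (2 : ℕ) := by
          rw [← Real.rpow_natCast, ← Real.rpow_add hQ0]
          congr 1
          push_cast
          ring
        rw [e]; ring
    _ ≤ _ := by
        apply mul_le_mul_of_nonneg_right _ (by positivity)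
        have hn : 0 ≤ ‖s‖ := norm_nonneg s
        have b1 : 1 ≤ (1 + ‖s‖) ^ 2 := by nlinarith
        have b2 : ‖s‖ ^ 2 ≤ (1 + ‖s‖) ^ 2 := by nlinarith
        have b3 : 0 ≤ 2 * ((C3 * (2 / ε) * 2) ^ 2 * C2) := by positivity
        nlinarith

end Run7.h837
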