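import Pool.Agent.Run7.h837.Zer
import Pool.Agent.Run7.h837.Mom

/-!
# Mean square of `L M - 1` over the characters of one modulus
-/

set_option autoImplicit false

namespace Run7.h837

open Complex Finset

/-- orthogonality over integers which are distinct modulo `q` -/
lemma orth_inj {q : ℕ} [NeZero q] (S : Finset ℕ)
    (hS : ∀ m ∈ S, ∀ n ∈ S, (m : ZMod q) = (n : ZMod q) → m = n) (c : ℕ → ℂ) :
    ∑ χ : DirichletCharacter ℂ q, ‖∑ n ∈ S, c n * χ (n : ZMod q)‖ ^ 2 ≤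
      Nat.totient q * ∑ n ∈ S, ‖c n‖ ^ 2 := by
  refine (orth S id c).trans ?_
  apply mul_le_mul_of_nonneg_left _ (Nat.cast_nonneg _)
  refine sum_le_sum fun x hx => ?_
  have h1 : ∀ y ∈ S, (if ((id x : ℕ) : ZMod q) = ((id y : ℕ) : ZMod q) then ‖c x‖ * ‖c y‖ else 0) =
      (if y = x then ‖c x‖ * ‖c x‖ else 0) := by
    intro y hy
    by_cases h : y = x
    · subst h; simp
    · rw [if_neg h, if_neg]
      intro h2
      exact h (hS y hy x hx h2.symm)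
  rw [sum_congr rfl h1, sum_ite_eq' S x (fun _ => ‖c x‖ * ‖c x‖), if_pos hx, sq]

lemma inj_block {q A : ℕ} {S : Finset ℕ} (hS : S ⊆ Ioc A (A + q)) :
    ∀ m ∈ S, ∀ n ∈ S, (m : ZMod q) = (n : ZMod q) → m = n := by
  intro m hm n hn h
  have h1 := mem_Ioc.1 (hS hm)
  have h2 := mem_Ioc.1 (hS hn)
  have h3 : m ≡ n [MOD q] := (ZMod.natCast_eq_natCast_iff _ _ _).1 h
  rcases le_total m n with hle | hle
  · have h4 : q ∣ n - m := (Nat.modEq_iff_dvd' hle).1 h3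
    have h5 : n - m < q := by omega
    have := Nat.eq_zero_of_dvd_of_lt h4 h5
    omega
  · have h4 : q ∣ m - n := (Nat.modEq_iff_dvd' hle).1 h3.symm
    have h5 : m - n < q := by omega
    have := Nat.eq_zero_of_dvd_of_lt h4 h5
    omega

/-- the coefficients of `L_q M_X - 1` -/
noncomputable def cc (q X : ℕ) (s : ℂ) (l : ℕ) : ℂ := ((bb q X l : ℤ) : ℂ) * (l : ℂ) ^ (-s)

lemma a_eq' {q : ℕ} (χ : DirichletCharacter ℂ q) {X : ℕ} (hX : 1 ≤ X) (hXq : X ≤ q) (s : ℂ) :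
    LN χ q s * MM χ X s - 1 = ∑ l ∈ Ioc X (q * X), cc q X s l * χ (l : ZMod q) := by
  rw [LN_mul_MM]
  have hq : 1 ≤ q := hX.trans hXq
  have hQQ : X ≤ q * X := Nat.le_mul_of_pos_left _ hq
  have h1 : Icc 1 (q * X) = Icc 1 X ∪ Ioc X (q * X) := by
    ext l; simp only [mem_union, mem_Icc, mem_Ioc]; omega
  have hd : Disjoint (Icc 1 X) (Ioc X (q * X)) := by
    rw [disjoint_left]; intro l h2 h3; rw [mem_Icc] at h2; rw [mem_Ioc] at h3; omega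
  rw [h1, sum_union hd]
  have h2 : ∑ l ∈ Icc 1 X, ((bb q X l : ℤ) : ℂ) * (l : ℂ) ^ (-s) * χ (l : ZMod q) = 1 := by
    rw [sum_eq_single_of_mem 1 (mem_Icc.2 ⟨le_rfl, hX⟩)]
    · rw [bb_one hq hX]; simp
    · intro l hl hl1
      rw [mem_Icc] at hl
      rw [bb_zero (by omega) (by omega) (by omega)]
      simp
  rw [h2]
  unfold cc
  ring

lemma split_mod {f : ℕ → ℂ} (q : ℕ) : ∀ X : ℕ, 1 ≤ X →
    ∑ l ∈ Ioc q (q * X), f l = ∑ j ∈ Ico 1 X, ∑ l ∈ Ioc (q * j) (q * j + q), f l := by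
  intro X hX
  induction X, hX using Nat.le_induction with
  | base => simp
  | succ X hX ih =>
    rw [sum_Ico_succ_top hX, ← ih]
    have h1 : q ≤ q * X := Nat.le_mul_of_pos_right _ hX
    have h2 : q * (X + 1) = q * X + q := by ring
    rw [h2, sum_Ioc_consecutive f h1 (by omega)]

lemma split_mod_r {f : ℕ → ℝ} (q : ℕ) : ∀ X : ℕ, 1 ≤ X →
    ∑ l ∈ Ioc q (q * X), f l = ∑ j ∈ Ico 1 X, ∑ l ∈ Ioc (q * j) (q * j + q), f l := by
  intro X hX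
  induction X, hX using Nat.le_induction with
  | base => simp
  | succ X hX ih =>
    rw [sum_Ico_succ_top hX, ← ih]
    have h1 : q ≤ q * X := Nat.le_mul_of_pos_right _ hX
    have h2 : q * (X + 1) = q * X + q := by ring
    rw [h2, sum_Ioc_consecutive f h1 (by omega)]

/-- second moment of a sum over an interval of length `q X` -/
lemma long_sum {q : ℕ} [NeZero q] {X : ℕ} (hX : 1 ≤ X) (hXq : X ≤ q) (c : ℕ → ℂ) :
    ∑ χ : DirichletCharacter ℂ q, ‖∑ l ∈ Ioc X (q * X), c l * χ (l : ZMod q)‖ ^ 2 ≤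
      Nat.totient q * (2 * ∑ l ∈ Ioc X q, ‖c l‖ ^ 2 + 2 * X * ∑ l ∈ Ioc q (q * X), ‖c l‖ ^ 2) := by
  have hq1 : 1 ≤ q := Nat.one_le_iff_ne_zero.2 (NeZero.ne q)
  have hqX : q ≤ q * X := Nat.le_mul_of_pos_right _ hX
  have hterm : ∀ χ : DirichletCharacter ℂ q, ‖∑ l ∈ Ioc X (q * X), c l * χ (l : ZMod q)‖ ^ 2 ≤
      2 * ‖∑ l ∈ Ioc X q, c l * χ (l : ZMod q)‖ ^ 2 +
      2 * X * ∑ j ∈ Ico 1 X, ‖∑ l ∈ Ioc (q * j) (q * j + q), c l * χ (l : ZMod q)‖ ^ 2 := by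
    intro χ
    rw [← sum_Ioc_consecutive (fun l => c l * χ (l : ZMod q)) hXq hqX, split_mod q X hX]
    set A := ∑ l ∈ Ioc X q, c l * χ (l : ZMod q) with hA
    set F : ℕ → ℂ := fun j => ∑ l ∈ Ioc (q * j) (q * j + q), c l * χ (l : ZMod q) with hF
    have h1 : ‖A + ∑ j ∈ Ico 1 X, F j‖ ^ 2 ≤ 2 * ‖A‖ ^ 2 + 2 * ‖∑ j ∈ Ico 1 X, F j‖ ^ 2 := by
      have := pow_le_pow_left₀ (norm_nonneg _) (norm_add_le A (∑ j ∈ Ico 1 X, F j)) 2
      nlinarith [sq_nonneg (‖A‖ - ‖∑ j ∈ Ico 1 X, F j‖)]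
    have h2 : ‖∑ j ∈ Ico 1 X, F j‖ ^ 2 ≤ X * ∑ j ∈ Ico 1 X, ‖F j‖ ^ 2 := by
      have h3 : ‖∑ j ∈ Ico 1 X, F j‖ ^ 2 ≤ (∑ j ∈ Ico 1 X, ‖F j‖) ^ 2 :=
        pow_le_pow_left₀ (norm_nonneg _) (norm_sum_le _ _) 2
      refine h3.trans ((sq_sum_le_card_mul_sum_sq).trans ?_)
      have h4 : ((Ico 1 X).card : ℝ) ≤ X := by
        rw [Nat.card_Ico]; exact_mod_cast Nat.sub_le X 1
      exact mul_le_mul_of_nonneg_right h4 (sum_nonneg fun j _ => by positivity)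
    calc ‖A + ∑ j ∈ Ico 1 X, F j‖ ^ 2 ≤ 2 * ‖A‖ ^ 2 + 2 * ‖∑ j ∈ Ico 1 X, F j‖ ^ 2 := h1
      _ ≤ 2 * ‖A‖ ^ 2 + 2 * (X * ∑ j ∈ Ico 1 X, ‖F j‖ ^ 2) := by gcongr
      _ = _ := by ring
  refine (sum_le_sum fun χ _ => hterm χ).trans ?_
  rw [sum_add_distrib, ← mul_sum, ← mul_sum, sum_comm]
  have h1 : ∑ χ : DirichletCharacter ℂ q, ‖∑ l ∈ Ioc X q, c l * χ (l : ZMod q)‖ ^ 2 ≤
      Nat.totient q * ∑ l ∈ Ioc X q, ‖c l‖ ^ 2 := by
    apply orth_inj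
    apply inj_block (A := X)
    intro l hl
    rw [mem_Ioc] at hl ⊢
    omega
  have h2 : ∑ j ∈ Ico 1 X, ∑ χ : DirichletCharacter ℂ q,
      ‖∑ l ∈ Ioc (q * j) (q * j + q), c l * χ (l : ZMod q)‖ ^ 2 ≤
      Nat.totient q * ∑ l ∈ Ioc q (q * X), ‖c l‖ ^ 2 := by
    rw [split_mod_r q X hX, mul_sum]
    refine sum_le_sum fun j _ => ?_
    exact orth_inj _ (inj_block (A := q * j) (Subset.refl _)) c
  have hX0 : (0 : ℝ) ≤ 2 * X := by positivity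
  calc 2 * ∑ χ : DirichletCharacter ℂ q, ‖∑ l ∈ Ioc X q, c l * χ (l : ZMod q)‖ ^ 2 +
      2 * X * ∑ j ∈ Ico 1 X, ∑ χ : DirichletCharacter ℂ q,
        ‖∑ l ∈ Ioc (q * j) (q * j + q), c l * χ (l : ZMod q)‖ ^ 2 ≤
      2 * (Nat.totient q * ∑ l ∈ Ioc X q, ‖c l‖ ^ 2) +
      2 * X * (Nat.totient q * ∑ l ∈ Ioc q (q * X), ‖c l‖ ^ 2) := by gcongr
    _ = _ := by ring

open Classical in
/-- the nonprincipal characters -/
noncomputable def npr (q : ℕ) : Finset (DirichletCharacter ℂ q) :=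
  (univ : Finset (DirichletCharacter ℂ q)).filter (fun χ => χ ≠ 1)

lemma mem_npr {q : ℕ} {χ : DirichletCharacter ℂ q} : χ ∈ npr q ↔ χ ≠ 1 := by
  classical
  simp [npr]

lemma sum_M_fix {α : ℝ} (hα : 1 / 2 < α) : ∃ C : ℝ, 0 < C ∧ ∀ (q : ℕ) [NeZero q] (X : ℕ), X ≤ q →
    ∀ s : ℂ, α ≤ s.re → ∑ χ : DirichletCharacter ℂ q, ‖MM χ X s‖ ^ 2 ≤ C * Nat.totient q := by
  have hsumm : Summable (fun n : ℕ => 1 / (n : ℝ) ^ (2 * α)) :=
    Real.summable_one_div_nat_rpow.2 (by linarith)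
  set K : ℝ := ∑' n : ℕ, 1 / (n : ℝ) ^ (2 * α) with hK
  have hK0 : 0 ≤ K := tsum_nonneg fun n => by positivity
  refine ⟨K + 1, by positivity, ?_⟩
  intro q _ X hXq s hs
  set c : ℕ → ℂ := fun m => ((ArithmeticFunction.moebius m : ℤ) : ℂ) * (m : ℂ) ^ (-s) with hc
  have h1 : ∑ χ : DirichletCharacter ℂ q, ‖MM χ X s‖ ^ 2 =
      ∑ χ : DirichletCharacter ℂ q, ‖∑ l ∈ Icc 1 X, c l * χ (l : ZMod q)‖ ^ 2 := by
    refine sum_congr rfl fun χ _ => ?_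
    unfold MM
    congr 2
    refine sum_congr rfl fun l _ => ?_
    rw [hc]
    ring
  rw [h1]
  refine (orth_inj (Icc 1 X) (inj_block (A := 0) ?_) c).trans ?_
  · intro l hl
    rw [mem_Icc] at hl
    rw [mem_Ioc]
    omega
  have h2 : ∑ n ∈ Icc 1 X, ‖c n‖ ^ 2 ≤ K + 1 := by
    have h3 : ∀ n ∈ Icc 1 X, ‖c n‖ ^ 2 ≤ 1 / (n : ℝ) ^ (2 * α) := by
      intro n hn
      rw [mem_Icc] at hn
      have hn0 : (0 : ℝ) < n := by exact_mod_cast hn.1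
      have hn1 : (1 : ℝ) ≤ n := by exact_mod_cast hn.1
      rw [hc]
      simp only
      rw [norm_mul, norm_natCast_cpow_of_pos hn.1, Complex.norm_intCast, mul_pow, neg_re]
      have h4 : |((ArithmeticFunction.moebius n : ℤ) : ℝ)| ^ 2 ≤ 1 := by
        have h5 : |((ArithmeticFunction.moebius n : ℤ) : ℝ)| ≤ 1 := by
          exact_mod_cast (ArithmeticFunction.abs_moebius_le_one (n := n))
        exact pow_le_one₀ (abs_nonneg _) h5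
      have h6 : ((n : ℝ) ^ (-s.re)) ^ 2 ≤ 1 / (n : ℝ) ^ (2 * α) := by
        rw [one_div, ← Real.rpow_neg hn0.le, ← Real.rpow_natCast, ← Real.rpow_mul hn0.le]
        apply Real.rpow_le_rpow_of_exponent_le hn1
        push_cast
        linarith
      calc _ ≤ 1 * (1 / (n : ℝ) ^ (2 * α)) := by gcongr
        _ = _ := one_mul _
    refine (sum_le_sum h3).trans ?_
    have := hsumm.sum_le_tsum (Icc 1 X) (fun n _ => by positivity)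
    linarith
  rw [mul_comm]
  gcongr

/-- **Mean square of `L M - 1` over the nonprincipal characters of one modulus.** -/
theorem ms_fix {α ε : ℝ} (hα : 1 / 2 < α) (hε : 0 < ε) : ∃ C : ℝ, 0 < C ∧
    ∀ (q : ℕ) [NeZero q] (X : ℕ), 2 ≤ q → 1 ≤ X → X ≤ q → ∀ s : ℂ, α ≤ s.re →
      ∑ χ ∈ npr q, ‖LL χ s * MM χ X s - 1‖ ^ 2 ≤
        C * (1 + ‖s‖) ^ 2 * (Nat.totient q *
          ((X : ℝ) ^ (1 - 2 * α + ε) + X * (q : ℝ) ^ (1 - 2 * α + ε))) := by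
  obtain ⟨C1, hC1, h1⟩ := coef_sq hα hε
  obtain ⟨C2, hC2, h2⟩ := sum_M_fix hα
  obtain ⟨C3, hC3, h3⟩ := trunc_bound
  refine ⟨4 * C1 + 2 * ((C3 * (2 / ε) * 2) ^ 2 * C2), by positivity, ?_⟩
  intro q _ X hq hX hXq s hs
  have hq0 : (0 : ℝ) < q := by exact_mod_cast (by omega : 0 < q)
  have hq1 : (1 : ℝ) ≤ q := by exact_mod_cast (by omega : 1 ≤ q)
  have hX1 : (1 : ℝ) ≤ X := by exact_mod_cast hX
  have hs0 : 0 < s.re := by linarith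
  have hterm : ∀ χ ∈ npr q, ‖LL χ s * MM χ X s - 1‖ ^ 2 ≤
      2 * ‖LN χ q s * MM χ X s - 1‖ ^ 2 +
        2 * ((C3 * (2 / ε) * 2) ^ 2 * ‖s‖ ^ 2 * (q : ℝ) ^ (1 - 2 * α + ε) * ‖MM χ X s‖ ^ 2) := by
    intro χ hχ
    rw [mem_npr] at hχ
    have e1 : LL χ s * MM χ X s - 1 = (LN χ q s * MM χ X s - 1) +
        (LL χ s - LN χ q s) * MM χ X s := by ring
    have e2 : ‖LL χ s * MM χ X s - 1‖ ^ 2 ≤ 2 * ‖LN χ q s * MM χ X s - 1‖ ^ 2 +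
        2 * ‖(LL χ s - LN χ q s) * MM χ X s‖ ^ 2 := by
      rw [e1]
      have := norm_add_le (LN χ q s * MM χ X s - 1) ((LL χ s - LN χ q s) * MM χ X s)
      have h4 := pow_le_pow_left₀ (norm_nonneg _) this 2
      nlinarith [sq_nonneg (‖LN χ q s * MM χ X s - 1‖ - ‖(LL χ s - LN χ q s) * MM χ X s‖)]
    refine e2.trans ?_
    gcongr
    rw [norm_mul, mul_pow]
    apply mul_le_mul_of_nonneg_right _ (by positivity)
    have h5 := h3 q χ hq hχ q (by omega) s hs0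
    rw [← LL_eq] at h5
    have h6 : ‖LL χ s - LN χ q s‖ ≤ C3 * (2 / ε) * 2 * ‖s‖ * (q : ℝ) ^ ((1 - 2 * α + ε) / 2) := by
      refine h5.trans ?_
      have a1 : √(q : ℝ) ≤ (q : ℝ) ^ (1 / 2 : ℝ) := by rw [Real.sqrt_eq_rpow]
      have a2 : Real.log q ≤ (2 / ε) * (q : ℝ) ^ (ε / 2) := by
        have := Real.log_le_rpow_div hq0.le (ε := ε / 2) (by positivity)
        calc Real.log q ≤ (q : ℝ) ^ (ε / 2) / (ε / 2) := this
          _ = _ := by field_simp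
      have a2' : 0 ≤ Real.log q := Real.log_nonneg hq1
      have a3 : ‖s‖ / s.re ≤ 2 * ‖s‖ := by
        rw [div_le_iff₀ hs0]
        nlinarith [norm_nonneg s]
      have a4 : (q : ℝ) ^ (-s.re) ≤ (q : ℝ) ^ (-α) :=
        Real.rpow_le_rpow_of_exponent_le hq1 (by linarith)
      calc C3 * √(q : ℝ) * Real.log q * (‖s‖ / s.re) * (q : ℝ) ^ (-s.re) ≤
          C3 * (q : ℝ) ^ (1 / 2 : ℝ) * ((2 / ε) * (q : ℝ) ^ (ε / 2)) * (2 * ‖s‖) *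
            (q : ℝ) ^ (-α) := by gcongr
        _ = C3 * (2 / ε) * 2 * ‖s‖ * ((q : ℝ) ^ (1 / 2 : ℝ) * (q : ℝ) ^ (ε / 2) *
            (q : ℝ) ^ (-α)) := by ring
        _ = C3 * (2 / ε) * 2 * ‖s‖ * (q : ℝ) ^ ((1 - 2 * α + ε) / 2) := by
            rw [← Real.rpow_add hq0, ← Real.rpow_add hq0]
            congr 2
            ring
    have h7 := pow_le_pow_left₀ (norm_nonneg _) h6 2
    refine h7.trans (le_of_eq ?_)
    rw [mul_pow, mul_pow, ← Real.rpow_natCast ((q : ℝ) ^ ((1 - 2 * α + ε) / 2)),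
      ← Real.rpow_mul hq0.le]
    congr 2
    push_cast
    ring
  have hA : ∑ χ ∈ npr q, ‖LN χ q s * MM χ X s - 1‖ ^ 2 ≤
      Nat.totient q * (2 * (C1 * (X : ℝ) ^ (1 - 2 * α + ε)) +
        2 * X * (C1 * (q : ℝ) ^ (1 - 2 * α + ε))) := by
    have h4 : ∑ χ ∈ npr q, ‖LN χ q s * MM χ X s - 1‖ ^ 2 ≤
        ∑ χ : DirichletCharacter ℂ q, ‖∑ l ∈ Ioc X (q * X), cc q X s l * χ (l : ZMod q)‖ ^ 2 := by
      refine le_trans (sum_le_sum_of_subset_of_nonneg (subset_univ _)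
        fun χ _ _ => by positivity) (le_of_eq ?_)
      refine sum_congr rfl fun χ _ => ?_
      rw [a_eq' χ hX hXq s]
    refine h4.trans ((long_sum hX hXq _).trans ?_)
    have h5 := h1 X q hX q X s hs
    have h6 := h1 q (q * X) (by omega) q X s hs
    have h7 : (0 : ℝ) ≤ 2 * X := by positivity
    unfold cc
    gcongr
  have hB : ∑ χ ∈ npr q, ‖MM χ X s‖ ^ 2 ≤ C2 * Nat.totient q :=
    (sum_le_sum_of_subset_of_nonneg (subset_univ _) fun χ _ _ => by positivity).trans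
      (h2 q X hXq s hs)
  have htot : (0 : ℝ) ≤ Nat.totient q := Nat.cast_nonneg _
  calc ∑ χ ∈ npr q, ‖LL χ s * MM χ X s - 1‖ ^ 2 ≤
      ∑ χ ∈ npr q, (2 * ‖LN χ q s * MM χ X s - 1‖ ^ 2 +
        2 * ((C3 * (2 / ε) * 2) ^ 2 * ‖s‖ ^ 2 * (q : ℝ) ^ (1 - 2 * α + ε) * ‖MM χ X s‖ ^ 2)) :=
        sum_le_sum hterm
    _ = 2 * (∑ χ ∈ npr q, ‖LN χ q s * MM χ X s - 1‖ ^ 2) +
        2 * ((C3 * (2 / ε) * 2) ^ 2 * ‖s‖ ^ 2 * (q : ℝ) ^ (1 - 2 * α + ε) *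
          ∑ χ ∈ npr q, ‖MM χ X s‖ ^ 2) := by
        simp only [sum_add_distrib, mul_sum]
    _ ≤ 2 * (Nat.totient q * (2 * (C1 * (X : ℝ) ^ (1 - 2 * α + ε)) +
        2 * X * (C1 * (q : ℝ) ^ (1 - 2 * α + ε)))) +
        2 * ((C3 * (2 / ε) * 2) ^ 2 * ‖s‖ ^ 2 * (q : ℝ) ^ (1 - 2 * α + ε) *
          (C2 * Nat.totient q)) := by gcongr
    _ = 4 * C1 * (Nat.totient q * ((X : ℝ) ^ (1 - 2 * α + ε) + X * (q : ℝ) ^ (1 - 2 * α + ε))) +
        2 * ((C3 * (2 / ε) * 2) ^ 2 * C2) * ‖s‖ ^ 2 *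
          (Nat.totient q * (1 * (q : ℝ) ^ (1 - 2 * α + ε))) := by ring
    _ ≤ 4 * C1 * (Nat.totient q * ((X : ℝ) ^ (1 - 2 * α + ε) + X * (q : ℝ) ^ (1 - 2 * α + ε))) +
        2 * ((C3 * (2 / ε) * 2) ^ 2 * C2) * ‖s‖ ^ 2 *
          (Nat.totient q * ((X : ℝ) ^ (1 - 2 * α + ε) + X * (q : ℝ) ^ (1 - 2 * α + ε))) := by
        have h8 : (1 : ℝ) * (q : ℝ) ^ (1 - 2 * α + ε) ≤
            (X : ℝ) ^ (1 - 2 * α + ε) + X * (q : ℝ) ^ (1 - 2 * α + ε) := by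
          have h9 : 0 ≤ (X : ℝ) ^ (1 - 2 * α + ε) := by positivity
          have h10 : 0 ≤ (q : ℝ) ^ (1 - 2 * α + ε) := by positivity
          nlinarith
        gcongr
    _ = (4 * C1 + 2 * ((C3 * (2 / ε) * 2) ^ 2 * C2) * ‖s‖ ^ 2) *
          (Nat.totient q * ((X : ℝ) ^ (1 - 2 * α + ε) + X * (q : ℝ) ^ (1 - 2 * α + ε))) := by ring
    _ ≤ _ := by
        apply mul_le_mul_of_nonneg_right _ (by positivity)
        have hn : 0 ≤ ‖s‖ := norm_nonneg s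
        have b1 : 1 ≤ (1 + ‖s‖) ^ 2 := by nlinarith
        have b2 : ‖s‖ ^ 2 ≤ (1 + ‖s‖) ^ 2 := by nlinarith
        have b3 : 0 ≤ 2 * ((C3 * (2 / ε) * 2) ^ 2 * C2) := by positivity
        nlinarith

end Run7.h837
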