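import Pool.Agent.Run7.h837.Blk
import Pool.Agent.Run7.h837.Det

/-!
# Assembling the sum over prime powers out of the dyadic blocks
-/

set_option autoImplicit false

namespace Run7.h837

open Finset

/-- comparison of weighted sums with an antitone weight -/
lemma abel_comp (a b f : ℕ → ℝ) (hf : ∀ n, 1 ≤ n → f (n + 1) ≤ f n) (hf0 : ∀ n, 1 ≤ n → 0 ≤ f n)
    (h : ∀ N : ℕ, ∑ n ∈ Icc 1 N, a n ≤ ∑ n ∈ Icc 1 N, b n) (N : ℕ) :
    ∑ n ∈ Icc 1 N, a n * f n ≤ ∑ n ∈ Icc 1 N, b n * f n := by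
  have key : ∀ N : ℕ, 1 ≤ N → (∑ n ∈ Icc 1 N, b n - ∑ n ∈ Icc 1 N, a n) * f N ≤
      ∑ n ∈ Icc 1 N, b n * f n - ∑ n ∈ Icc 1 N, a n * f n := by
    intro N hN
    induction N, hN using Nat.le_induction with
    | base => simp; linarith
    | succ N hN ih =>
      rw [sum_Icc_succ_top (by omega), sum_Icc_succ_top (by omega), sum_Icc_succ_top (by omega),
        sum_Icc_succ_top (by omega)]
      have h1 : 0 ≤ ∑ n ∈ Icc 1 N, b n - ∑ n ∈ Icc 1 N, a n := sub_nonneg.2 (h N)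
      have h2 := mul_le_mul_of_nonneg_left (hf N hN) h1
      nlinarith
  rcases Nat.eq_zero_or_pos N with rfl | hN
  · simp
  · have h1 := key N hN
    have h2 : 0 ≤ (∑ n ∈ Icc 1 N, b n - ∑ n ∈ Icc 1 N, a n) * f N :=
      mul_nonneg (sub_nonneg.2 (h N)) (hf0 N hN)
    linarith

lemma rpow_anti {σ : ℝ} (hσ : 0 ≤ σ) {n : ℕ} (hn : 1 ≤ n) :
    ((n + 1 : ℕ) : ℝ) ^ (-σ) ≤ (n : ℝ) ^ (-σ) := by
  have h0 : (0 : ℝ) < n := by exact_mod_cast hn
  exact Real.rpow_le_rpow_of_nonpos h0 (by push_cast; linarith) (by linarith)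

/-- `∑_{n ≤ N} n^{-σ} ≤ N^{1-σ}/(1-σ)` -/
lemma sum_rpow_le {σ : ℝ} (hσ0 : 0 ≤ σ) (hσ : σ < 1) (N : ℕ) :
    ∑ n ∈ Icc 1 N, (n : ℝ) ^ (-σ) ≤ (N : ℝ) ^ (1 - σ) / (1 - σ) := by
  have h1 : 0 < 1 - σ := by linarith
  induction N with
  | zero =>
    simp only [show Icc 1 0 = (∅ : Finset ℕ) from rfl, sum_empty]
    positivity
  | succ N ih =>
    rw [sum_Icc_succ_top (by omega)]
    have hN0 : (0 : ℝ) < ((N + 1 : ℕ) : ℝ) := by positivity
    have hx : ((N : ℝ)) = ((N + 1 : ℕ) : ℝ) * (1 + -(1 / ((N + 1 : ℕ) : ℝ))) := by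
      field_simp
      push_cast; ring
    have h2 : -1 ≤ -(1 / ((N + 1 : ℕ) : ℝ)) := by
      have : 1 / ((N + 1 : ℕ) : ℝ) ≤ 1 := by
        rw [div_le_one hN0]; push_cast; linarith [Nat.cast_nonneg (α := ℝ) N]
      linarith
    have h3 := rpow_one_add_le_one_add_mul_self h2 h1.le (by linarith : 1 - σ ≤ 1)
    have h4 : (N : ℝ) ^ (1 - σ) ≤ ((N + 1 : ℕ) : ℝ) ^ (1 - σ) -
        (1 - σ) * ((N + 1 : ℕ) : ℝ) ^ (-σ) := by
      have e1 : (N : ℝ) ^ (1 - σ) = ((N + 1 : ℕ) : ℝ) ^ (1 - σ) *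
          (1 + -(1 / ((N + 1 : ℕ) : ℝ))) ^ (1 - σ) := by
        conv_lhs => rw [hx]
        rw [Real.mul_rpow hN0.le (by linarith)]
      rw [e1]
      have h5 := mul_le_mul_of_nonneg_left h3 (by positivity : (0 : ℝ) ≤ ((N + 1 : ℕ) : ℝ) ^ (1 - σ))
      refine h5.trans (le_of_eq ?_)
      have e2 : ((N + 1 : ℕ) : ℝ) ^ (-σ) = ((N + 1 : ℕ) : ℝ) ^ (1 - σ) / ((N + 1 : ℕ) : ℝ) := by
        rw [div_eq_mul_inv, ← Real.rpow_neg_one, ← Real.rpow_add hN0]
        congr 1; ring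
      rw [e2]
      field_simp
      ring
    have h6 : (N : ℝ) ^ (1 - σ) / (1 - σ) ≤ ((N + 1 : ℕ) : ℝ) ^ (1 - σ) / (1 - σ) -
        ((N + 1 : ℕ) : ℝ) ^ (-σ) := by
      rw [div_le_iff₀ h1, sub_mul, div_mul_cancel₀ _ h1.ne']
      linarith
    linarith

lemma log4_le : Real.log 4 ≤ 3 / 2 := by
  have e : Real.log 4 = 2 * Real.log 2 := by
    rw [show (4 : ℝ) = 2 ^ 2 by norm_num, Real.log_pow]; norm_num
  rw [e]
  linarith [Real.log_two_lt_d9]

/-- the sum over the primes -/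
lemma sum_prime_rpow {σ : ℝ} (hσ0 : 0 ≤ σ) (hσ : σ < 1) (N : ℕ) :
    ∑ p ∈ (Icc 1 N).filter Nat.Prime, Real.log p * (p : ℝ) ^ (-σ) ≤
      3 / 2 * ((N : ℝ) ^ (1 - σ) / (1 - σ)) := by
  have h1 := abel_comp (fun n => if n.Prime then Real.log n else 0) (fun _ => 3 / 2)
    (fun n => (n : ℝ) ^ (-σ)) (fun n hn => rpow_anti hσ0 hn) (fun n _ => by positivity)
    (fun N => by
      rw [← sum_filter]
      have h2 : ∑ p ∈ (Icc 1 N).filter Nat.Prime, Real.log p = Chebyshev.theta (N : ℝ) := by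
        rw [Chebyshev.theta, Nat.floor_natCast]
        apply sum_congr _ fun _ _ => rfl
        rfl
      rw [h2]
      have h3 := Chebyshev.theta_le_log4_mul_x (x := (N : ℝ)) (Nat.cast_nonneg _)
      rw [sum_const, Nat.card_Icc, nsmul_eq_mul]
      have h4 : (0 : ℝ) ≤ N := Nat.cast_nonneg _
      have h5 := log4_le
      have h6 : ((N + 1 - 1 : ℕ) : ℝ) = N := by simp
      rw [h6]
      nlinarith) N
  have e1 : ∑ p ∈ (Icc 1 N).filter Nat.Prime, Real.log p * (p : ℝ) ^ (-σ) =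
      ∑ n ∈ Icc 1 N, (if n.Prime then Real.log n else 0) * (n : ℝ) ^ (-σ) := by
    rw [sum_filter]
    apply sum_congr rfl
    intro n _
    split_ifs <;> simp
  rw [e1]
  refine h1.trans ?_
  rw [← mul_sum]
  exact mul_le_mul_of_nonneg_left (sum_rpow_le hσ0 hσ N) (by norm_num)

/-- the sum over the prime powers which are not primes -/
lemma sum_nonprime {a : ℝ} (ha : 1 / 2 < a) : ∃ C : ℝ, 0 ≤ C ∧ ∀ (N : ℕ) (σ : ℝ), a ≤ σ →
    ∑ n ∈ (Icc 1 N).filter (fun n => ¬ n.Prime),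
      ArithmeticFunction.vonMangoldt n * (n : ℝ) ^ (-σ) ≤ C := by
  obtain ⟨C, hC⟩ := Chebyshev.psi_sub_theta_le_mul_sqrt
  have hs : Summable (fun n : ℕ => (n : ℝ) ^ (-(1 / 2) - a)) := by
    rw [Real.summable_nat_rpow]; linarith
  refine ⟨|C| * ∑' n : ℕ, (n : ℝ) ^ (-(1 / 2) - a), by positivity, ?_⟩
  intro N σ hσ
  have hstep : ∑ n ∈ (Icc 1 N).filter (fun n => ¬ n.Prime),
      ArithmeticFunction.vonMangoldt n * (n : ℝ) ^ (-σ) ≤
      ∑ n ∈ (Icc 1 N).filter (fun n => ¬ n.Prime),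
      ArithmeticFunction.vonMangoldt n * (n : ℝ) ^ (-a) := by
    apply sum_le_sum
    intro n hn
    rw [mem_filter, mem_Icc] at hn
    have h1 : (1 : ℝ) ≤ n := by exact_mod_cast hn.1.1
    have h2 : (n : ℝ) ^ (-σ) ≤ (n : ℝ) ^ (-a) :=
      Real.rpow_le_rpow_of_exponent_le h1 (by linarith)
    exact mul_le_mul_of_nonneg_left h2 ArithmeticFunction.vonMangoldt_nonneg
  refine hstep.trans ?_
  have h1 := abel_comp (fun n => if ¬ n.Prime then ArithmeticFunction.vonMangoldt n else 0)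
    (fun n => |C| * (n : ℝ) ^ (-(1 / 2 : ℝ)))
    (fun n => (n : ℝ) ^ (-a)) (fun n hn => rpow_anti (by linarith) hn) (fun n _ => by positivity)
    (fun N => by
      rw [← sum_filter]
      have h2 : ∑ n ∈ (Icc 1 N).filter (fun n => ¬ n.Prime), ArithmeticFunction.vonMangoldt n =
          Chebyshev.psi (N : ℝ) - Chebyshev.theta (N : ℝ) := by
        rw [Chebyshev.psi_sub_theta_eq_sum_not_prime, Nat.floor_natCast]
        apply sum_congr _ fun _ _ => rfl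
        rfl
      rw [h2]
      refine (hC N).trans ?_
      rcases Nat.eq_zero_or_pos N with rfl | hN
      · simp
      have hNr : (0 : ℝ) < N := by exact_mod_cast hN
      rw [← mul_sum]
      have h3 : Real.sqrt N ≤ ∑ n ∈ Icc 1 N, (n : ℝ) ^ (-(1 / 2 : ℝ)) := by
        have h4 : ∑ n ∈ Icc 1 N, (N : ℝ) ^ (-(1 / 2 : ℝ)) ≤
            ∑ n ∈ Icc 1 N, (n : ℝ) ^ (-(1 / 2 : ℝ)) := by
          apply sum_le_sum
          intro n hn
          rw [mem_Icc] at hn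
          have h5 : (0 : ℝ) < n := by exact_mod_cast hn.1
          exact Real.rpow_le_rpow_of_nonpos h5 (by exact_mod_cast hn.2) (by norm_num)
        refine le_trans (le_of_eq ?_) h4
        rw [sum_const, Nat.card_Icc, nsmul_eq_mul, Real.sqrt_eq_rpow]
        have h6 : ((N + 1 - 1 : ℕ) : ℝ) = N := by simp
        rw [h6]
        nth_rw 2 [← Real.rpow_one (N : ℝ)]
        rw [← Real.rpow_add hNr]
        norm_num
      calc C * Real.sqrt N ≤ |C| * Real.sqrt N :=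
            mul_le_mul_of_nonneg_right (le_abs_self _) (Real.sqrt_nonneg _)
        _ ≤ _ := mul_le_mul_of_nonneg_left h3 (abs_nonneg _)) N
  have e1 : ∑ n ∈ (Icc 1 N).filter (fun n => ¬ n.Prime),
      ArithmeticFunction.vonMangoldt n * (n : ℝ) ^ (-a) =
      ∑ n ∈ Icc 1 N, (if ¬ n.Prime then ArithmeticFunction.vonMangoldt n else 0) *
        (n : ℝ) ^ (-a) := by
    rw [sum_filter]
    apply sum_congr rfl
    intro n _
    split_ifs <;> simp
  rw [e1]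
  refine h1.trans ?_
  have e2 : ∀ n ∈ Icc 1 N, |C| * (n : ℝ) ^ (-(1 / 2 : ℝ)) * (n : ℝ) ^ (-a) =
      |C| * (n : ℝ) ^ (-(1 / 2) - a) := by
    intro n hn
    rw [mem_Icc] at hn
    have h5 : (0 : ℝ) < n := by exact_mod_cast hn.1
    rw [mul_assoc, ← Real.rpow_add h5]
    congr 2
  rw [sum_congr rfl e2, ← mul_sum]
  apply mul_le_mul_of_nonneg_left _ (abs_nonneg _)
  exact hs.sum_le_tsum _ (fun n _ => by positivity)

/-- the sum over the primes of one block -/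
lemma norm_block {q : ℕ} (χ : DirichletCharacter ℂ q) {N : ℕ} (hN : 1 ≤ N) (a : ℝ) (s : ℂ) :
    ‖∑ p ∈ IB N, χ (p : ZMod q) * (Real.log p : ℂ) * (p : ℂ) ^ (-s)‖ =
      ‖PB χ N a s‖ * (N : ℝ) ^ (a - s.re) := by
  have hN0 : (N : ℂ) ≠ 0 := by exact_mod_cast (by omega : N ≠ 0)
  have hNr : (0 : ℝ) < N := by exact_mod_cast hN
  have e : ∑ p ∈ IB N, χ (p : ZMod q) * (Real.log p : ℂ) * (p : ℂ) ^ (-s) =
      PB χ N a s * (N : ℂ) ^ ((a : ℂ) - s) := by
    unfold PB cf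
    rw [sum_mul]
    apply sum_congr rfl
    intro p _
    have h1 : (N : ℂ) ^ (s - (a : ℂ)) * (N : ℂ) ^ ((a : ℂ) - s) = 1 := by
      rw [← Complex.cpow_add _ _ hN0]
      simp
    calc χ (p : ZMod q) * (Real.log p : ℂ) * (p : ℂ) ^ (-s) =
        χ (p : ZMod q) * (Real.log p : ℂ) * (p : ℂ) ^ (-s) *
          ((N : ℂ) ^ (s - (a : ℂ)) * (N : ℂ) ^ ((a : ℂ) - s)) := by rw [h1, mul_one]
      _ = _ := by ring
  rw [e, norm_mul, Complex.norm_natCast_cpow_of_pos (by omega)]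
  simp

/-- the sum over the primes up to `2^J N0`, split -/
lemma split_blocks {q : ℕ} (χ : DirichletCharacter ℂ q) (N0 : ℕ) (s : ℂ) (J : ℕ) :
    ∑ p ∈ (Icc 1 (2 ^ J * N0)).filter Nat.Prime, χ (p : ZMod q) * (Real.log p : ℂ) * (p : ℂ) ^ (-s) =
      ∑ p ∈ (Icc 1 N0).filter Nat.Prime, χ (p : ZMod q) * (Real.log p : ℂ) * (p : ℂ) ^ (-s) +
      ∑ j ∈ range J, ∑ p ∈ IB (2 ^ j * N0),
        χ (p : ZMod q) * (Real.log p : ℂ) * (p : ℂ) ^ (-s) := by
  induction J with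
  | zero => simp
  | succ J ih =>
    rw [sum_range_succ, ← add_assoc, ← ih]
    have e : (Icc 1 (2 ^ (J + 1) * N0)).filter Nat.Prime =
        (Icc 1 (2 ^ J * N0)).filter Nat.Prime ∪ IB (2 ^ J * N0) := by
      ext p
      unfold IB
      have e2 : 2 ^ (J + 1) * N0 = 2 * (2 ^ J * N0) := by ring
      simp only [mem_union, mem_filter, mem_Icc, mem_Ioc, e2]
      constructor
      · rintro ⟨⟨h1, h2⟩, h3⟩
        by_cases h : p ≤ 2 ^ J * N0
        · exact Or.inl ⟨⟨h1, h⟩, h3⟩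
        · exact Or.inr ⟨⟨by omega, h2⟩, h3⟩
      · rintro (⟨⟨h1, h2⟩, h3⟩ | ⟨⟨h1, h2⟩, h3⟩)
        · exact ⟨⟨h1, by omega⟩, h3⟩
        · exact ⟨⟨by omega, h2⟩, h3⟩
    rw [e, sum_union]
    rw [disjoint_left]
    intro p hp hp2
    unfold IB at hp2
    rw [mem_filter, mem_Icc] at hp
    rw [mem_filter, mem_Ioc] at hp2
    omega

/-- **bound of `ZZ` from the block bounds** -/
theorem ZZ_bound {a c : ℝ} (ha : 1 / 2 < a) (ha1 : a < 1) (hc : 0 < c) :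
    ∃ C : ℝ, 0 < C ∧ ∀ (q : ℕ) (χ : DirichletCharacter ℂ q) (N0 J : ℕ) (s : ℂ), 1 ≤ N0 →
      a ≤ s.re → (∀ j < J, ‖PB χ (2 ^ j * N0) a s‖ ≤ Real.exp (-(c * j)) * (N0 : ℝ) ^ (1 - a)) →
      (s.re < 1 → ‖ZZ χ (2 ^ J * N0) s‖ ≤ C / (1 - s.re) * (N0 : ℝ) ^ (1 - s.re)) ∧
      ‖ZZ χ (2 ^ J * N0) s‖ ≤ C * (N0 : ℝ) ^ (1 - a) := by
  obtain ⟨C1, hC10, hC1⟩ := sum_nonprime ha
  obtain ⟨G, hG⟩ : ∃ G : ℝ, G = ∑' j : ℕ, Real.exp (-(c * j)) := ⟨_, rfl⟩
  have hsum : Summable (fun j : ℕ => Real.exp (-(c * j))) := by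
    have h1 : ∀ j : ℕ, Real.exp (-(c * j)) = Real.exp (-c) ^ j := by
      intro j
      rw [← Real.exp_nat_mul]; congr 1; ring
    simp_rw [h1]
    apply summable_geometric_of_lt_one (Real.exp_pos _).le
    rw [Real.exp_lt_one_iff]; linarith
  have hG0 : 0 ≤ G := by rw [hG]; exact tsum_nonneg fun j => (Real.exp_pos _).le
  have h1a : 0 < 1 - a := by linarith
  refine ⟨(3 / 2 + G + C1) / (1 - a), by positivity, ?_⟩
  intro q χ N0 J s hN0 hs hblk
  have hN0r : (0 : ℝ) < N0 := by exact_mod_cast hN0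
  have hN01 : (1 : ℝ) ≤ N0 := by exact_mod_cast hN0
  -- decomposition
  have hdec : ‖ZZ χ (2 ^ J * N0) s‖ ≤
      ∑ p ∈ (Icc 1 N0).filter Nat.Prime, Real.log p * (p : ℝ) ^ (-s.re) +
      G * (N0 : ℝ) ^ (1 - s.re) + C1 := by
    have e1 : ZZ χ (2 ^ J * N0) s =
        (∑ p ∈ (Icc 1 N0).filter Nat.Prime, χ (p : ZMod q) * (Real.log p : ℂ) * (p : ℂ) ^ (-s) +
        ∑ j ∈ range J, ∑ p ∈ IB (2 ^ j * N0),
          χ (p : ZMod q) * (Real.log p : ℂ) * (p : ℂ) ^ (-s)) +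
        ∑ n ∈ (Icc 1 (2 ^ J * N0)).filter (fun n => ¬ n.Prime),
          χ (n : ZMod q) * (ArithmeticFunction.vonMangoldt n : ℂ) * (n : ℂ) ^ (-s) := by
      rw [← split_blocks]
      unfold ZZ
      rw [← sum_filter_add_sum_filter_not (Icc 1 (2 ^ J * N0)) Nat.Prime]
      congr 1
      apply sum_congr rfl
      intro p hp
      rw [mem_filter] at hp
      rw [ArithmeticFunction.vonMangoldt_apply_prime hp.2]
    rw [e1]
    refine (norm_add_le _ _).trans (add_le_add ((norm_add_le _ _).trans (add_le_add ?_ ?_)) ?_)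
    · refine (norm_sum_le _ _).trans (sum_le_sum fun p hp => ?_)
      rw [mem_filter, mem_Icc] at hp
      have hp1 : (1 : ℝ) ≤ p := by exact_mod_cast hp.1.1
      rw [norm_mul, norm_mul, Complex.norm_natCast_cpow_of_pos (by omega), Complex.norm_real,
        Real.norm_eq_abs, abs_of_nonneg (Real.log_nonneg hp1), Complex.neg_re]
      have h2 : ‖χ (p : ZMod q)‖ ≤ 1 := DirichletCharacter.norm_le_one χ _
      have h3 : 0 ≤ Real.log p := Real.log_nonneg hp1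
      calc ‖χ (p : ZMod q)‖ * Real.log p * (p : ℝ) ^ (-s.re) ≤
          1 * Real.log p * (p : ℝ) ^ (-s.re) := by gcongr
        _ = _ := by ring
    · refine (norm_sum_le _ _).trans ?_
      have hterm : ∀ j ∈ range J, ‖∑ p ∈ IB (2 ^ j * N0),
          χ (p : ZMod q) * (Real.log p : ℂ) * (p : ℂ) ^ (-s)‖ ≤
          Real.exp (-(c * j)) * (N0 : ℝ) ^ (1 - s.re) := by
        intro j hj
        rw [mem_range] at hj
        have hNj : 1 ≤ 2 ^ j * N0 := Nat.mul_pos (by positivity) hN0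
        rw [norm_block χ hNj a s]
        have h4 : ((2 ^ j * N0 : ℕ) : ℝ) ^ (a - s.re) ≤ (N0 : ℝ) ^ (a - s.re) := by
          apply Real.rpow_le_rpow_of_nonpos hN0r _ (by linarith)
          have : N0 ≤ 2 ^ j * N0 := Nat.le_mul_of_pos_left _ (by positivity)
          exact_mod_cast this
        calc ‖PB χ (2 ^ j * N0) a s‖ * ((2 ^ j * N0 : ℕ) : ℝ) ^ (a - s.re) ≤
            (Real.exp (-(c * j)) * (N0 : ℝ) ^ (1 - a)) * (N0 : ℝ) ^ (a - s.re) := by
              apply mul_le_mul (hblk j hj) h4 (by positivity) (by positivity)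
          _ = Real.exp (-(c * j)) * ((N0 : ℝ) ^ (1 - a) * (N0 : ℝ) ^ (a - s.re)) := by ring
          _ = _ := by
            rw [← Real.rpow_add hN0r]; congr 2; ring
      refine (sum_le_sum hterm).trans ?_
      rw [← sum_mul]
      apply mul_le_mul_of_nonneg_right _ (by positivity)
      rw [hG]
      exact hsum.sum_le_tsum _ (fun j _ => (Real.exp_pos _).le)
    · refine le_trans ((norm_sum_le _ _).trans (sum_le_sum fun n hn => ?_)) (hC1 (2 ^ J * N0) s.re hs)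
      rw [mem_filter, mem_Icc] at hn
      rw [norm_mul, norm_mul, Complex.norm_natCast_cpow_of_pos (by omega), Complex.norm_real,
        Real.norm_eq_abs, abs_of_nonneg ArithmeticFunction.vonMangoldt_nonneg, Complex.neg_re]
      have h2 : ‖χ (n : ZMod q)‖ ≤ 1 := DirichletCharacter.norm_le_one χ _
      have h3 : 0 ≤ ArithmeticFunction.vonMangoldt n := ArithmeticFunction.vonMangoldt_nonneg
      calc ‖χ (n : ZMod q)‖ * ArithmeticFunction.vonMangoldt n * (n : ℝ) ^ (-s.re) ≤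
          1 * ArithmeticFunction.vonMangoldt n * (n : ℝ) ^ (-s.re) := by gcongr
        _ = _ := by ring
  constructor
  · intro hs1
    have h1s : 0 < 1 - s.re := by linarith
    have h5 := sum_prime_rpow (by linarith : 0 ≤ s.re) hs1 N0
    have hpow1 : 1 ≤ (N0 : ℝ) ^ (1 - s.re) := Real.one_le_rpow hN01 h1s.le
    have hinv : 1 ≤ 1 / (1 - s.re) := by
      rw [le_div_iff₀ h1s]; linarith
    refine hdec.trans ?_
    have h6 : G * (N0 : ℝ) ^ (1 - s.re) ≤ G * ((N0 : ℝ) ^ (1 - s.re) / (1 - s.re)) := by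
      apply mul_le_mul_of_nonneg_left _ hG0
      rw [le_div_iff₀ h1s]
      nlinarith
    have h7 : C1 ≤ C1 * ((N0 : ℝ) ^ (1 - s.re) / (1 - s.re)) := by
      have : 1 ≤ (N0 : ℝ) ^ (1 - s.re) / (1 - s.re) := by
        rw [le_div_iff₀ h1s]
        linarith
      nlinarith
    have h8 : ∑ p ∈ (Icc 1 N0).filter Nat.Prime, Real.log p * (p : ℝ) ^ (-s.re) +
      G * (N0 : ℝ) ^ (1 - s.re) + C1 ≤
        (3 / 2 + G + C1) * ((N0 : ℝ) ^ (1 - s.re) / (1 - s.re)) := by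
      linarith
    refine h8.trans ?_
    have h9 : 3 / 2 + G + C1 ≤ (3 / 2 + G + C1) / (1 - a) := by
      rw [le_div_iff₀ h1a]
      have : 0 ≤ 3 / 2 + G + C1 := by positivity
      nlinarith
    calc (3 / 2 + G + C1) * ((N0 : ℝ) ^ (1 - s.re) / (1 - s.re)) ≤
        ((3 / 2 + G + C1) / (1 - a)) * ((N0 : ℝ) ^ (1 - s.re) / (1 - s.re)) := by gcongr
      _ = _ := by ring
  · have h5 := sum_prime_rpow (by linarith : 0 ≤ a) ha1 N0
    have h5' : ∑ p ∈ (Icc 1 N0).filter Nat.Prime, Real.log p * (p : ℝ) ^ (-s.re) ≤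
        ∑ p ∈ (Icc 1 N0).filter Nat.Prime, Real.log p * (p : ℝ) ^ (-a) := by
      apply sum_le_sum
      intro p hp
      rw [mem_filter, mem_Icc] at hp
      have hp1 : (1 : ℝ) ≤ p := by exact_mod_cast hp.1.1
      have h3 : 0 ≤ Real.log p := Real.log_nonneg hp1
      have h2 : (p : ℝ) ^ (-s.re) ≤ (p : ℝ) ^ (-a) :=
        Real.rpow_le_rpow_of_exponent_le hp1 (by linarith)
      gcongr
    have hpow1 : 1 ≤ (N0 : ℝ) ^ (1 - a) := Real.one_le_rpow hN01 h1a.le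
    refine hdec.trans ?_
    have h6 : G * (N0 : ℝ) ^ (1 - s.re) ≤ G * ((N0 : ℝ) ^ (1 - a) / (1 - a)) := by
      apply mul_le_mul_of_nonneg_left _ hG0
      have h7 : (N0 : ℝ) ^ (1 - s.re) ≤ (N0 : ℝ) ^ (1 - a) :=
        Real.rpow_le_rpow_of_exponent_le hN01 (by linarith)
      refine h7.trans ?_
      rw [le_div_iff₀ h1a]
      nlinarith
    have h7 : C1 ≤ C1 * ((N0 : ℝ) ^ (1 - a) / (1 - a)) := by
      have : 1 ≤ (N0 : ℝ) ^ (1 - a) / (1 - a) := by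
        rw [le_div_iff₀ h1a]
        linarith
      nlinarith
    calc ∑ p ∈ (Icc 1 N0).filter Nat.Prime, Real.log p * (p : ℝ) ^ (-s.re) +
      G * (N0 : ℝ) ^ (1 - s.re) + C1 ≤
        (3 / 2 + G + C1) * ((N0 : ℝ) ^ (1 - a) / (1 - a)) := by
          linarith
      _ = _ := by ring

end Run7.h837
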