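import Pool.Agent.H370R2.DirGood
import Pool.Agent.H38R2.CG.PV

/-!
# Truncation of the Dirichlet series of `L(s, χ)`
-/

set_option autoImplicit false

namespace Run7.h837

open Complex MeasureTheory Set Filter Topology

/-- the values of `χ` beyond `N` -/
noncomputable def trc {q : ℕ} (χ : DirichletCharacter ℂ q) (N k : ℕ) : ℂ :=
  if N < k then χ (k : ZMod q) else 0

lemma sum_trc {q : ℕ} (χ : DirichletCharacter ℂ q) (N m : ℕ) :
    ∑ k ∈ Finset.Icc 1 m, trc χ N k = ∑ k ∈ Finset.Ioc N m, χ (k : ZMod q) := by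
  unfold trc
  rw [← Finset.sum_filter]
  congr 1
  ext k
  simp only [Finset.mem_filter, Finset.mem_Icc, Finset.mem_Ioc]
  omega

lemma trunc_eq {q : ℕ} [NeZero q] {χ : DirichletCharacter ℂ q} (hχ1 : χ ≠ 1) (N : ℕ) {K : ℝ}
    (hK : 0 ≤ K)
    (hPV : ∀ m : ℕ, ‖∑ k ∈ Finset.Ioc N m, χ (k : ZMod q)‖ ≤ K) {s : ℂ} (hs : 0 < s.re) :
    DirichletCharacter.LFunction χ s - ∑ n ∈ Finset.Icc 1 N, χ (n : ZMod q) * (n : ℂ) ^ (-s) =
      s * ∫ u in Ioi (1 : ℝ), (∑ k ∈ Finset.Icc 1 ⌊u⌋₊, trc χ N k) * (u : ℂ) ^ (-s - 1) := by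
  obtain ⟨A, hA⟩ : ∃ A : ℝ → ℂ, A = fun u => ∑ k ∈ Finset.Icc 1 ⌊u⌋₊, trc χ N k := ⟨_, rfl⟩
  have hm : Measurable A := by
    rw [hA]
    exact (measurable_from_nat (f := fun n : ℕ => ∑ k ∈ Finset.Icc 1 n, trc χ N k)).comp
      Nat.measurable_floor
  have hbd : ∀ u, ‖A u‖ ≤ K := by
    intro u
    rw [hA]
    simp only
    rw [sum_trc]
    exact hPV _
  have hopen : IsOpen {s : ℂ | 0 < s.re} := isOpen_lt continuous_const continuous_re
  have hJ := H370.DL.J_diff (A := A) (K := K) hK hm hbd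
  have hpre : IsPreconnected {s : ℂ | 0 < s.re} := (convex_halfSpace_re_gt 0).isPreconnected
  have hpoly : Differentiable ℂ (fun s : ℂ => ∑ n ∈ Finset.Icc 1 N, χ (n : ZMod q) * (n : ℂ) ^ (-s)) := by
    intro s
    apply DifferentiableAt.fun_sum
    intro n hn
    rw [Finset.mem_Icc] at hn
    apply DifferentiableAt.mul (differentiableAt_const _)
    have hn0 : (n : ℂ) ≠ 0 := by exact_mod_cast (by omega : n ≠ 0)
    exact (differentiableAt_id.neg).const_cpow (Or.inl hn0)
  have heq : EqOn (fun s => DirichletCharacter.LFunction χ s -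
      ∑ n ∈ Finset.Icc 1 N, χ (n : ZMod q) * (n : ℂ) ^ (-s))
      (fun s => s * ∫ u in Ioi (1 : ℝ), A u * (u : ℂ) ^ (-s - 1)) {s : ℂ | 0 < s.re} := by
    refine AnalyticOnNhd.eqOn_of_preconnected_of_eventuallyEq (z₀ := 2)
      (((DirichletCharacter.differentiable_LFunction hχ1).sub hpoly).differentiableOn.analyticOnNhd hopen)
      ((differentiableOn_id.mul hJ).analyticOnNhd hopen) hpre (by simp) ?_
    have hopen1 : IsOpen {s : ℂ | 1 < s.re} := isOpen_lt continuous_const Complex.continuous_re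
    filter_upwards [hopen1.mem_nhds (show (2:ℂ) ∈ {s : ℂ | 1 < s.re} by simp)] with z hz
    have hz' : 1 < z.re := hz
    have hle : ∀ k, ‖trc χ N k‖ ≤ 1 := by
      intro k
      unfold trc
      split_ifs
      · exact DirichletCharacter.norm_le_one χ _
      · simp
    have hO : (fun n : ℕ => ∑ k ∈ Finset.Icc 1 n, ‖trc χ N k‖) =O[atTop]
        fun n : ℕ => (n : ℝ) ^ (1 : ℝ) := by
      refine Asymptotics.IsBigO.of_bound 1 (Filter.Eventually.of_forall fun n => ?_)
      rw [Real.rpow_one, one_mul, Real.norm_eq_abs, Real.norm_eq_abs,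
        abs_of_nonneg (Finset.sum_nonneg fun k _ => norm_nonneg _),
        abs_of_nonneg (Nat.cast_nonneg n)]
      calc ∑ k ∈ Finset.Icc 1 n, ‖trc χ N k‖ ≤ ∑ k ∈ Finset.Icc 1 n, (1 : ℝ) :=
            Finset.sum_le_sum fun k _ => hle k
        _ = n := by simp
    have h1 := LSeries_eq_mul_integral' (fun n : ℕ => trc χ N n) (r := 1) zero_le_one hz' hO
    have hSχ := DirichletCharacter.LSeriesSummable_of_one_lt_re χ hz'
    have hS2 : LSeries (fun n : ℕ => trc χ N n) z = DirichletCharacter.LFunction χ z -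
        ∑ n ∈ Finset.Icc 1 N, χ (n : ZMod q) * (n : ℂ) ^ (-z) := by
      rw [DirichletCharacter.LFunction_eq_LSeries χ hz']
      set g : ℕ → ℂ := fun n => LSeries.term (fun n : ℕ => χ (n : ZMod q)) z n with hg
      set g' : ℕ → ℂ := fun n => LSeries.term (fun n : ℕ => trc χ N n) z n with hg'
      have hZ : ∑ n ∈ Finset.Icc 1 N, χ (n : ZMod q) * (n : ℂ) ^ (-z) =
          ∑ n ∈ Finset.range (N + 1), g n := by
        rw [Finset.range_eq_Ico, Finset.sum_eq_sum_Ico_succ_bot (by omega)]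
        have h0 : g 0 = 0 := by simp [hg]
        rw [h0, zero_add]
        have : Finset.Ico (0 + 1) (N + 1) = Finset.Icc 1 N := by
          ext n; simp only [Finset.mem_Ico, Finset.mem_Icc]; omega
        rw [this]
        refine Finset.sum_congr rfl fun n hn => ?_
        rw [Finset.mem_Icc] at hn
        rw [hg]
        simp only
        rw [LSeries.term_of_ne_zero (by omega), Complex.cpow_neg, div_eq_mul_inv]
      have hgs : Summable g := hSχ
      have hz1 : ∀ n ∈ Finset.range (N + 1), g' n = 0 := by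
        intro n hn
        rw [Finset.mem_range] at hn
        rw [hg']
        simp only
        rcases Nat.eq_zero_or_pos n with h | h
        · rw [h]; simp
        · rw [LSeries.term_of_ne_zero (by omega)]
          unfold trc
          rw [if_neg (by omega), zero_div]
      have hz2 : ∀ n, g' (n + (N + 1)) = g (n + (N + 1)) := by
        intro n
        rw [hg', hg]
        simp only
        rw [LSeries.term_of_ne_zero (by omega), LSeries.term_of_ne_zero (by omega)]
        unfold trc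
        rw [if_pos (by omega)]
      have hg's : Summable g' := by
        rw [← summable_nat_add_iff (N + 1)]
        have h2 := (summable_nat_add_iff (N + 1)).2 hgs
        exact h2.congr fun n => (hz2 n).symm
      have e1 := hgs.sum_add_tsum_nat_add (N + 1)
      have e2 := hg's.sum_add_tsum_nat_add (N + 1)
      rw [Finset.sum_eq_zero hz1, zero_add] at e2
      have e3 : LSeries (fun n : ℕ => trc χ N n) z = ∑' n, g' n := rfl
      have e4 : LSeries (fun n : ℕ => χ (n : ZMod q)) z = ∑' n, g n := rfl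
      rw [hZ, e3, e4, ← e1, ← e2, tsum_congr hz2]
      ring
    rw [← hS2, h1, hA]
    congr 1
    apply setIntegral_congr_fun measurableSet_Ioi
    intro t _
    simp only
    rw [show -(z + 1) = -z - 1 by ring]
  have := heq hs
  rw [hA] at this
  exact this

/-- **truncation of `L(s, χ)`** -/
theorem trunc_bound : ∃ C : ℝ, 0 < C ∧ ∀ (q : ℕ) [NeZero q] (χ : DirichletCharacter ℂ q), 2 ≤ q →
    χ ≠ 1 → ∀ N : ℕ, 1 ≤ N → ∀ s : ℂ, 0 < s.re →
    ‖DirichletCharacter.LFunction χ s - ∑ n ∈ Finset.Icc 1 N, χ (n : ZMod q) * (n : ℂ) ^ (-s)‖ ≤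
      C * √(q : ℝ) * Real.log q * (‖s‖ / s.re) * (N : ℝ) ^ (-s.re) := by
  obtain ⟨C, hC, hPV⟩ := Pool.Agent.H38R2.CG.T_PV
  refine ⟨C, hC, ?_⟩
  intro q _ χ hq hχ N hN s hs
  have hq1 : (1 : ℝ) ≤ q := by exact_mod_cast (by omega : 1 ≤ q)
  set K : ℝ := C * √(q : ℝ) * Real.log q with hK
  have hK0 : 0 ≤ K := by
    have : 0 ≤ Real.log q := Real.log_nonneg hq1
    positivity
  have hN0 : (0 : ℝ) < N := by exact_mod_cast hN
  rw [trunc_eq hχ N hK0 (fun m => hPV q χ hq hχ N m) hs, norm_mul]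
  have hb : ‖∫ u in Ioi (1 : ℝ), (∑ k ∈ Finset.Icc 1 ⌊u⌋₊, trc χ N k) * (u : ℂ) ^ (-s - 1)‖ ≤
      K * (N : ℝ) ^ (-s.re) / s.re := by
    have h0 : ∫ u in Ioi (1 : ℝ), (Ioi (N : ℝ)).indicator (fun u : ℝ => K * u ^ (-s.re - 1)) u =
        K * (N : ℝ) ^ (-s.re) / s.re := by
      rw [setIntegral_indicator measurableSet_Ioi, Ioi_inter_Ioi, max_eq_right (by exact_mod_cast hN),
        integral_const_mul, integral_Ioi_rpow_of_lt (by linarith) hN0]
      have : s.re ≠ 0 := hs.ne'
      rw [show -s.re - 1 + 1 = -s.re by ring]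
      field_simp
    rw [← h0]
    refine norm_integral_le_of_norm_le ?_ ?_
    · have h1 : IntegrableOn (fun u : ℝ => K * u ^ (-s.re - 1)) (Ioi (N : ℝ)) :=
        (integrableOn_Ioi_rpow_of_lt (by linarith) hN0).const_mul K
      exact (h1.integrable_indicator measurableSet_Ioi).integrableOn
    · refine (ae_restrict_iff' measurableSet_Ioi).mpr (Filter.Eventually.of_forall fun u hu => ?_)
      have hu0 : (0 : ℝ) < u := lt_trans one_pos hu
      rw [sum_trc]
      by_cases huN : u ∈ Ioi (N : ℝ)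
      · rw [indicator_of_mem huN, norm_mul, norm_cpow_eq_rpow_re_of_pos hu0]
        have : (-s - 1).re = -s.re - 1 := by simp
        rw [this]
        exact mul_le_mul_of_nonneg_right (hPV q χ hq hχ N _) (by positivity)
      · rw [indicator_of_notMem huN]
        rw [Set.mem_Ioi, not_lt] at huN
        have h2 : ⌊u⌋₊ ≤ N := by
          have := Nat.floor_le_floor huN
          rwa [Nat.floor_natCast] at this
        rw [Finset.Ioc_eq_empty (by omega), Finset.sum_empty, zero_mul, norm_zero]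
  calc ‖s‖ * ‖∫ u in Ioi (1 : ℝ), (∑ k ∈ Finset.Icc 1 ⌊u⌋₊, trc χ N k) * (u : ℂ) ^ (-s - 1)‖ ≤
      ‖s‖ * (K * (N : ℝ) ^ (-s.re) / s.re) := mul_le_mul_of_nonneg_left hb (norm_nonneg _)
    _ = K * (‖s‖ / s.re) * (N : ℝ) ^ (-s.re) := by ring

end Run7.h837
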