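import Pool.Agent.Run7.h837.Ms
import Pool.Agent.Run7.h837.Cover

/-!
# The number of primitive characters with a zero in a box
-/

set_option autoImplicit false

namespace Run7.h837

open Complex Finset

/-- the primitive characters of conductor in `[2, Q]` -/
noncomputable def Fam (Q : ℕ) : Finset (Σ q : ℕ, DirichletCharacter ℂ q) :=
  (Icc 2 Q).sigma prim

lemma mem_Fam {Q : ℕ} {x : Σ q : ℕ, DirichletCharacter ℂ q} :
    x ∈ Fam Q ↔ (2 ≤ x.1 ∧ x.1 ≤ Q) ∧ x.2.IsPrimitive := by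
  unfold Fam
  rw [mem_sigma, mem_Icc, mem_prim]

lemma differentiable_MM {q : ℕ} (χ : DirichletCharacter ℂ q) (X : ℕ) :
    Differentiable ℂ (MM χ X) := by
  unfold MM
  intro s
  apply DifferentiableAt.fun_sum
  intro n hn
  rw [Finset.mem_Icc] at hn
  apply DifferentiableAt.mul (differentiableAt_const _)
  apply DifferentiableAt.mul (differentiableAt_const _)
  have hn0 : (n : ℂ) ≠ 0 := by exact_mod_cast (by omega : n ≠ 0)
  exact (differentiableAt_id.neg).const_cpow (Or.inl hn0)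

lemma differentiable_LL {q : ℕ} (hq : 2 ≤ q) {χ : DirichletCharacter ℂ q} (hχ : χ ≠ 1) :
    Differentiable ℂ (LL χ) := by
  have : NeZero q := ⟨by omega⟩
  rw [LL_eq]
  exact DirichletCharacter.differentiable_LFunction hχ

lemma LL_ne_zero {q : ℕ} (hq : 2 ≤ q) {χ : DirichletCharacter ℂ q} (hχ : χ ≠ 1) {s : ℂ}
    (hs : 1 ≤ s.re) : LL χ s ≠ 0 := by
  have : NeZero q := ⟨by omega⟩
  rw [LL_eq]
  exact DirichletCharacter.LFunction_ne_zero_of_one_le_re χ (Or.inl hχ) hs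

lemma grid_le {r T c : ℝ} (hr : 0 < r) (hT : 1 ≤ T) (hc : c ≤ 1) :
    (((⌊c / (r / 4)⌋₊ + 1) * (⌊2 * T / (r / 4)⌋₊ + 1) : ℕ) : ℝ) ≤
      (4 / r + 1) * (8 / r + 1) * T := by
  have h1 : ((⌊c / (r / 4)⌋₊ : ℕ) : ℝ) ≤ 4 / r := by
    rcases le_or_gt 0 c with h | h
    · refine (Nat.floor_le (by positivity)).trans ?_
      rw [div_div_eq_mul_div]
      gcongr
      linarith
    · have : c / (r / 4) ≤ 0 := div_nonpos_of_nonpos_of_nonneg h.le (by positivity)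
      rw [Nat.floor_of_nonpos this]
      simp only [Nat.cast_zero]
      positivity
  have h2 : ((⌊2 * T / (r / 4)⌋₊ : ℕ) : ℝ) ≤ 8 / r * T := by
    refine (Nat.floor_le (by positivity)).trans (le_of_eq ?_)
    field_simp
    ring
  push_cast
  have h3 : (0 : ℝ) < 4 / r := by positivity
  have h4 : (0 : ℝ) < 8 / r := by positivity
  calc ((⌊c / (r / 4)⌋₊ : ℝ) + 1) * ((⌊2 * T / (r / 4)⌋₊ : ℝ) + 1) ≤
      (4 / r + 1) * (8 / r * T + 1) := by gcongr
    _ ≤ (4 / r + 1) * (8 / r * T + T) := by gcongr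
    _ = _ := by ring

open Classical in
/-- **few characters have a zero in the box** -/
theorem zeros_avg {α r ε : ℝ} (hα : 1 / 2 < α) (hr : 0 < r) (hr1 : r ≤ 1) (hε : 0 < ε) :
    ∃ C : ℝ, 0 < C ∧ ∀ Q : ℕ, 2 ≤ Q → ∀ T : ℝ, 1 ≤ T →
      (((Fam Q).filter (fun x => ∃ s : ℂ, α + r ≤ s.re ∧ |s.im| ≤ T ∧ LL x.2 s = 0)).card : ℝ) ≤
        C * T ^ 3 * (Q : ℝ) ^ (3 - 2 * α + ε) := by
  obtain ⟨C, hC, hms⟩ := ms_avg hα hε
  refine ⟨(4 / r + 1) * (8 / r + 1) * (2 * (C * 36)), by positivity, ?_⟩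
  intro Q hQ T hT
  set F : Finset (Σ q : ℕ, DirichletCharacter ℂ q) :=
    (Fam Q).filter (fun x => ∃ s : ℂ, α + r ≤ s.re ∧ |s.im| ≤ T ∧ LL x.2 s = 0) with hF
  have hmem : ∀ x ∈ F, ∃ s : ℂ, α + r ≤ s.re ∧ |s.im| ≤ T ∧ LL x.2 s = 0 := fun x hx =>
    (mem_filter.1 hx).2
  have hfam : ∀ x ∈ F, (2 ≤ x.1 ∧ x.1 ≤ Q) ∧ x.2.IsPrimitive := fun x hx =>
    mem_Fam.1 (mem_filter.1 hx).1
  set w : (Σ q : ℕ, DirichletCharacter ℂ q) → ℂ := fun x =>
    if h : ∃ s : ℂ, α + r ≤ s.re ∧ |s.im| ≤ T ∧ LL x.2 s = 0 then h.choose else 0 with hw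
  have hwspec : ∀ x ∈ F, α + r ≤ (w x).re ∧ |(w x).im| ≤ T ∧ LL x.2 (w x) = 0 := by
    intro x hx
    have h := hmem x hx
    rw [hw]
    simp only
    rw [dif_pos h]
    exact h.choose_spec
  have hw1 : ∀ x ∈ F, (w x).re ≤ 1 := by
    intro x hx
    by_contra hcon
    push Not at hcon
    exact LL_ne_zero (hfam x hx).1.1 (prim_ne_one (hfam x hx).1.1 (hfam x hx).2) hcon.le
      (hwspec x hx).2.2
  set f : (Σ q : ℕ, DirichletCharacter ℂ q) → ℂ → ℂ := fun x s => LL x.2 s * MM x.2 Q s - 1 with hf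
  have hfd : ∀ x ∈ F, Differentiable ℂ (f x) := by
    intro x hx
    have h1 := differentiable_LL (hfam x hx).1.1 (prim_ne_one (hfam x hx).1.1 (hfam x hx).2)
    exact (h1.mul (differentiable_MM x.2 Q)).sub_const 1
  set S : ℝ := C * (6 * T) ^ 2 * (Q : ℝ) ^ (3 - 2 * α + ε) with hS
  have hS0 : 0 ≤ S := by positivity
  have hSb : ∀ s : ℂ, (α + r) - r ≤ s.re → s.re ≤ 1 + r → |s.im| ≤ T + r →
      ∑ x ∈ F, ‖f x s‖ ^ 2 ≤ S := by
    intro s h1 h2 h3
    have h4 : ∑ x ∈ F, ‖f x s‖ ^ 2 ≤ ∑ x ∈ Fam Q, ‖f x s‖ ^ 2 :=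
      sum_le_sum_of_subset_of_nonneg (filter_subset _ _) fun x _ _ => by positivity
    refine h4.trans ?_
    unfold Fam
    rw [sum_sigma]
    refine (hms Q hQ s (by linarith)).trans ?_
    rw [hS]
    have h5 : ‖s‖ ≤ |s.re| + |s.im| := norm_le_abs_re_add_abs_im s
    have h6 : |s.re| ≤ 2 := by rw [abs_le]; constructor <;> linarith
    have h7 : 1 + ‖s‖ ≤ 6 * T := by linarith
    gcongr
  have key := cover F f hfd (a := α + r) (b := 1) (T := T) hr hS0 hSb w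
    (fun x hx => ⟨(hwspec x hx).1, hw1 x hx, (hwspec x hx).2.1⟩)
  have hone : ∑ x ∈ F, ‖f x (w x)‖ ^ 2 = F.card := by
    rw [← nsmul_one F.card, ← sum_const]
    refine sum_congr rfl fun x hx => ?_
    rw [hf]
    simp only
    rw [(hwspec x hx).2.2, zero_mul, zero_sub, norm_neg, norm_one, one_pow]
  rw [hone] at key
  refine key.trans ?_
  have hg := grid_le (c := 1 - (α + r)) hr hT (by linarith)
  calc _ ≤ ((4 / r + 1) * (8 / r + 1) * T) * (2 * S) :=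
        mul_le_mul_of_nonneg_right hg (by positivity)
    _ = _ := by rw [hS]; ring

end Run7.h837
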