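import Pool.Agent.Run7.h837.MsF
import Pool.Agent.Run7.h837.Blk

/-!
# One modulus: characters with a zero in a box, characters with a large block sum
-/

set_option autoImplicit false

namespace Run7.h837

open Complex Finset

open Classical in
/-- **few characters modulo `q` have a zero in the box** -/
theorem zeros_fix {α r : ℝ} (hα : 1 / 2 < α) (hα1 : α ≤ 1) (hr : 0 < r) (hr1 : r ≤ 1) :
    ∃ C δ : ℝ, 0 < C ∧ 0 < δ ∧ ∀ (q : ℕ) [NeZero q], 2 ≤ q → ∀ T : ℝ, 1 ≤ T →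
      (((npr q).filter (fun χ => ∃ s : ℂ, α + r ≤ s.re ∧ |s.im| ≤ T ∧ LL χ s = 0)).card : ℝ) ≤
        C * T ^ 3 * (Nat.totient q * (q : ℝ) ^ (-δ)) := by
  have h2a : 0 < 2 * α - 1 := by linarith
  obtain ⟨C, hC, hms⟩ := ms_fix (ε := (2 * α - 1) / 4) hα (by linarith)
  refine ⟨(4 / r + 1) * (8 / r + 1) * (2 * (C * 36 * 3)), (2 * α - 1) ^ 2 / 4, by positivity,
    by positivity, ?_⟩
  intro q _ hq T hT
  have hq0 : (0 : ℝ) < q := by exact_mod_cast (by omega : 0 < q)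
  have hq1 : (1 : ℝ) ≤ q := by exact_mod_cast (by omega : 1 ≤ q)
  -- the length of the mollifier
  obtain ⟨X, hXdef⟩ : ∃ X : ℕ, X = ⌈(q : ℝ) ^ ((2 * α - 1) / 2)⌉₊ := ⟨_, rfl⟩
  have hqθ1 : 1 ≤ (q : ℝ) ^ ((2 * α - 1) / 2) := Real.one_le_rpow hq1 (by linarith)
  have hX1 : (q : ℝ) ^ ((2 * α - 1) / 2) ≤ X := by rw [hXdef]; exact Nat.le_ceil _
  have hX2 : (X : ℝ) ≤ 2 * (q : ℝ) ^ ((2 * α - 1) / 2) := by
    have : (X : ℝ) ≤ (q : ℝ) ^ ((2 * α - 1) / 2) + 1 := by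
      rw [hXdef]; exact (Nat.ceil_lt_add_one (by linarith)).le
    linarith
  have hX : 1 ≤ X := by
    have : (1 : ℝ) ≤ X := hqθ1.trans hX1
    exact_mod_cast this
  have hXq : X ≤ q := by
    rw [hXdef, Nat.ceil_le]
    calc (q : ℝ) ^ ((2 * α - 1) / 2) ≤ (q : ℝ) ^ (1 : ℝ) :=
          Real.rpow_le_rpow_of_exponent_le hq1 (by linarith)
      _ = q := Real.rpow_one _
  have hbound : (X : ℝ) ^ (1 - 2 * α + (2 * α - 1) / 4) +
      X * (q : ℝ) ^ (1 - 2 * α + (2 * α - 1) / 4) ≤ 3 * (q : ℝ) ^ (-((2 * α - 1) ^ 2 / 4)) := by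
    have b1 : (X : ℝ) ^ (1 - 2 * α + (2 * α - 1) / 4) ≤ (q : ℝ) ^ (-((2 * α - 1) ^ 2 / 4)) := by
      calc (X : ℝ) ^ (1 - 2 * α + (2 * α - 1) / 4) ≤
          ((q : ℝ) ^ ((2 * α - 1) / 2)) ^ (1 - 2 * α + (2 * α - 1) / 4) :=
            Real.rpow_le_rpow_of_nonpos (by positivity) hX1 (by linarith)
        _ = (q : ℝ) ^ ((2 * α - 1) / 2 * (1 - 2 * α + (2 * α - 1) / 4)) := by
            rw [← Real.rpow_mul hq0.le]
        _ ≤ _ := by
            apply Real.rpow_le_rpow_of_exponent_le hq1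
            nlinarith
    have b2 : X * (q : ℝ) ^ (1 - 2 * α + (2 * α - 1) / 4) ≤
        2 * (q : ℝ) ^ (-((2 * α - 1) ^ 2 / 4)) := by
      calc X * (q : ℝ) ^ (1 - 2 * α + (2 * α - 1) / 4) ≤
          (2 * (q : ℝ) ^ ((2 * α - 1) / 2)) * (q : ℝ) ^ (1 - 2 * α + (2 * α - 1) / 4) := by gcongr
        _ = 2 * (q : ℝ) ^ ((2 * α - 1) / 2 + (1 - 2 * α + (2 * α - 1) / 4)) := by
            rw [Real.rpow_add hq0 ((2 * α - 1) / 2) (1 - 2 * α + (2 * α - 1) / 4)]; ring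
        _ ≤ _ := by
            apply mul_le_mul_of_nonneg_left _ (by norm_num)
            apply Real.rpow_le_rpow_of_exponent_le hq1
            nlinarith
    linarith
  set F : Finset (DirichletCharacter ℂ q) :=
    (npr q).filter (fun χ => ∃ s : ℂ, α + r ≤ s.re ∧ |s.im| ≤ T ∧ LL χ s = 0) with hF
  have hmem : ∀ χ ∈ F, ∃ s : ℂ, α + r ≤ s.re ∧ |s.im| ≤ T ∧ LL χ s = 0 := fun χ hχ =>
    (mem_filter.1 hχ).2
  have hnp : ∀ χ ∈ F, χ ≠ 1 := fun χ hχ => mem_npr.1 (mem_filter.1 hχ).1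
  set w : DirichletCharacter ℂ q → ℂ := fun χ =>
    if h : ∃ s : ℂ, α + r ≤ s.re ∧ |s.im| ≤ T ∧ LL χ s = 0 then h.choose else 0 with hw
  have hwspec : ∀ χ ∈ F, α + r ≤ (w χ).re ∧ |(w χ).im| ≤ T ∧ LL χ (w χ) = 0 := by
    intro χ hχ
    have h := hmem χ hχ
    rw [hw]
    simp only
    rw [dif_pos h]
    exact h.choose_spec
  have hw1 : ∀ χ ∈ F, (w χ).re ≤ 1 := by
    intro χ hχ
    by_contra hcon
    push Not at hcon
    exact LL_ne_zero hq (hnp χ hχ) hcon.le (hwspec χ hχ).2.2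
  set f : DirichletCharacter ℂ q → ℂ → ℂ := fun χ s => LL χ s * MM χ X s - 1 with hf
  have hfd : ∀ χ ∈ F, Differentiable ℂ (f χ) := by
    intro χ hχ
    have h1 := differentiable_LL hq (hnp χ hχ)
    exact (h1.mul (differentiable_MM χ X)).sub_const 1
  set S : ℝ := C * (6 * T) ^ 2 * (Nat.totient q * (3 * (q : ℝ) ^ (-((2 * α - 1) ^ 2 / 4)))) with hS
  have hS0 : 0 ≤ S := by positivity
  have hSb : ∀ s : ℂ, (α + r) - r ≤ s.re → s.re ≤ 1 + r → |s.im| ≤ T + r →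
      ∑ χ ∈ F, ‖f χ s‖ ^ 2 ≤ S := by
    intro s h1 h2 h3
    have h4 : ∑ χ ∈ F, ‖f χ s‖ ^ 2 ≤ ∑ χ ∈ npr q, ‖f χ s‖ ^ 2 :=
      sum_le_sum_of_subset_of_nonneg (filter_subset _ _) fun x _ _ => by positivity
    refine h4.trans ?_
    refine (hms q X hq hX hXq s (by linarith)).trans ?_
    rw [hS]
    have h5 : ‖s‖ ≤ |s.re| + |s.im| := norm_le_abs_re_add_abs_im s
    have h6 : |s.re| ≤ 2 := by rw [abs_le]; constructor <;> linarith
    have h7 : 1 + ‖s‖ ≤ 6 * T := by linarith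
    gcongr
  have key := cover F f hfd (a := α + r) (b := 1) (T := T) hr hS0 hSb w
    (fun x hx => ⟨(hwspec x hx).1, hw1 x hx, (hwspec x hx).2.1⟩)
  have hone : ∑ χ ∈ F, ‖f χ (w χ)‖ ^ 2 = F.card := by
    rw [← nsmul_one F.card, ← sum_const]
    refine sum_congr rfl fun x hx => ?_
    rw [hf]
    simp only
    rw [(hwspec x hx).2.2, zero_mul, zero_sub, norm_neg, norm_one, one_pow]
  rw [hone] at key
  refine key.trans ?_
  have hg := grid_le (c := 1 - (α + r)) hr hT (by linarith)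
  calc _ ≤ ((4 / r + 1) * (8 / r + 1) * T) * (2 * S) :=
        mul_le_mul_of_nonneg_right hg (by positivity)
    _ = _ := by rw [hS]; ring

/-- no off-diagonal terms -/
lemma OFF_eq_zero {q k M : ℕ} {I : Finset ℕ} (hI0 : ∀ p ∈ I, p.Prime) (hI : ∀ p ∈ I, p ≤ M)
    (hM : M ^ k ≤ q) (f : ℕ → ℝ) : OFF q I f k = 0 := by
  unfold OFF
  refine sum_eq_zero fun x hx => sum_eq_zero fun y hy => ?_
  rw [if_neg]
  rintro ⟨h1, h2⟩
  apply h1
  have hpos : ∀ z ∈ TT I k, 0 < ∏ i, z i := by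
    intro z hz
    rw [mem_TT] at hz
    exact prod_pos fun i _ => (hI0 _ (hz i)).pos
  apply inj_block (A := 0) (q := q) (S := Ioc 0 q) (by rw [zero_add]) _ _ _ _ h2
  · rw [mem_Ioc]
    exact ⟨hpos x hx, (prod_le hI hx).trans hM⟩
  · rw [mem_Ioc]
    exact ⟨hpos y hy, (prod_le hI hy).trans hM⟩

/-- moments of the block sums over the characters of one modulus -/
theorem mom_fix {q : ℕ} [NeZero q] {k N : ℕ} (hN : 1 ≤ N) (hk : (2 * N) ^ k ≤ q) {α : ℝ} {s : ℂ}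
    (hs : 0 ≤ s.re) :
    ∑ χ : DirichletCharacter ℂ q, ‖PB χ N α s ^ k‖ ^ 2 ≤
      Nat.totient q * (k * (3 * (N : ℝ) ^ (1 - 2 * α) * Real.log (2 * N))) ^ k := by
  have hN1 : (1 : ℝ) ≤ N := by exact_mod_cast hN
  have hlog0 : 0 ≤ Real.log (2 * N) := Real.log_nonneg (by linarith)
  have hprime : ∀ p ∈ IB N, p.Prime := fun p hp => (mem_filter.1 hp).2
  have hle : ∀ p ∈ IB N, p ≤ 2 * N := fun p hp => (mem_Ioc.1 (mem_filter.1 hp).1).2
  set A2 : ℝ := 3 * (N : ℝ) ^ (1 - 2 * α) * Real.log (2 * N) with hA2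
  have hA20 : 0 ≤ A2 := by positivity
  have h1 := mom_fixed hprime (cf N α s) (q := q) k
  rw [OFF_eq_zero hprime hle hk, add_zero] at h1
  unfold PB
  refine h1.trans ?_
  apply mul_le_mul_of_nonneg_left _ (Nat.cast_nonneg _)
  calc (k.factorial : ℝ) * (∑ p ∈ IB N, ‖cf N α s p‖ ^ 2) ^ k ≤ (k : ℝ) ^ k * A2 ^ k := by
        have h2 : (k.factorial : ℝ) ≤ (k : ℝ) ^ k := by exact_mod_cast Nat.factorial_le_pow k
        have h3 := sum_cf_sq hN (α := α) hs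
        gcongr
    _ = (k * A2) ^ k := (mul_pow _ _ _).symm

open Classical in
/-- **few characters modulo `q` with a large block sum** -/
theorem blk_fix {q : ℕ} [NeZero q] {k N : ℕ} {a r T V : ℝ} (hN : 1 ≤ N) (hk : (2 * N) ^ k ≤ q)
    (hr : 0 < r) (hra : r ≤ a) (hT : 1 ≤ T) (hV : 0 < V) :
    (((univ : Finset (DirichletCharacter ℂ q)).filter (fun χ => ∃ s : ℂ, a ≤ s.re ∧ s.re ≤ 2 ∧
      |s.im| ≤ T ∧ V < ‖PB χ N a s‖)).card : ℝ) ≤
      (8 / r + 1) * (8 / r + 1) * T * (2 *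
        (Nat.totient q * (k * (3 * (N : ℝ) ^ (1 - 2 * a) * Real.log (2 * N)) / V ^ 2) ^ k)) := by
  set F : Finset (DirichletCharacter ℂ q) :=
    (univ : Finset (DirichletCharacter ℂ q)).filter (fun χ => ∃ s : ℂ, a ≤ s.re ∧ s.re ≤ 2 ∧
      |s.im| ≤ T ∧ V < ‖PB χ N a s‖) with hF
  have hmem : ∀ χ ∈ F, ∃ s : ℂ, a ≤ s.re ∧ s.re ≤ 2 ∧ |s.im| ≤ T ∧
      V < ‖PB χ N a s‖ := fun χ hχ => (mem_filter.1 hχ).2
  set w : DirichletCharacter ℂ q → ℂ := fun χ =>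
    if h : ∃ s : ℂ, a ≤ s.re ∧ s.re ≤ 2 ∧ |s.im| ≤ T ∧
      V < ‖PB χ N a s‖ then h.choose else 0 with hw
  have hwspec : ∀ χ ∈ F, a ≤ (w χ).re ∧ (w χ).re ≤ 2 ∧ |(w χ).im| ≤ T ∧
      V < ‖PB χ N a (w χ)‖ := by
    intro χ hχ
    have h := hmem χ hχ
    rw [hw]
    simp only
    rw [dif_pos h]
    exact h.choose_spec
  set f : DirichletCharacter ℂ q → ℂ → ℂ := fun χ s => PB χ N a s ^ k with hf
  have hfd : ∀ χ ∈ F, Differentiable ℂ (f χ) := fun χ _ => (differentiable_PB χ hN a).pow k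
  have hN1 : (1 : ℝ) ≤ N := by exact_mod_cast hN
  have hlog0 : 0 ≤ Real.log (2 * N) := Real.log_nonneg (by linarith)
  set S : ℝ := Nat.totient q * (k * (3 * (N : ℝ) ^ (1 - 2 * a) * Real.log (2 * N))) ^ k with hS
  have hS0 : 0 ≤ S := by positivity
  have hSb : ∀ s : ℂ, a - r ≤ s.re → s.re ≤ 2 + r → |s.im| ≤ T + r →
      ∑ χ ∈ F, ‖f χ s‖ ^ 2 ≤ S := by
    intro s h1 h2 h3
    have h4 : ∑ χ ∈ F, ‖f χ s‖ ^ 2 ≤ ∑ χ : DirichletCharacter ℂ q, ‖f χ s‖ ^ 2 :=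
      sum_le_sum_of_subset_of_nonneg (subset_univ _) fun x _ _ => by positivity
    exact h4.trans (mom_fix hN hk (by linarith))
  have key := cover F f hfd (a := a) (b := 2) (T := T) hr hS0 hSb w
    (fun x hx => ⟨(hwspec x hx).1, (hwspec x hx).2.1, (hwspec x hx).2.2.1⟩)
  have hlow : (F.card : ℝ) * (V ^ k) ^ 2 ≤ ∑ χ ∈ F, ‖f χ (w χ)‖ ^ 2 := by
    rw [← nsmul_eq_mul]
    apply card_nsmul_le_sum
    intro x hx
    rw [hf]
    simp only
    rw [norm_pow]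
    have h5 := (hwspec x hx).2.2.2.le
    gcongr
  have hg := grid_le2 (c := 2 - a) hr hT (by linarith)
  have hVk : 0 < (V ^ k) ^ 2 := by positivity
  have h6 : (F.card : ℝ) * (V ^ k) ^ 2 ≤ ((8 / r + 1) * (8 / r + 1) * T) * (2 * S) :=
    hlow.trans (key.trans (mul_le_mul_of_nonneg_right hg (by positivity)))
  rw [← le_div_iff₀ hVk] at h6
  refine h6.trans (le_of_eq ?_)
  rw [hS]
  have e1 : (k * (3 * (N : ℝ) ^ (1 - 2 * a) * Real.log (2 * N)) / V ^ 2) ^ k =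
      (k * (3 * (N : ℝ) ^ (1 - 2 * a) * Real.log (2 * N))) ^ k / (V ^ k) ^ 2 := by
    rw [div_pow, ← pow_mul, ← pow_mul, mul_comm 2 k]
  rw [e1]
  field_simp

end Run7.h837
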